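import Mathlib

/-!
# Min-max area triangulations: definitions
-/

set_option autoImplicit false

namespace Pool.Agent.W982.TA

/-- points with integer coordinates -/
abbrev Pt := ℤ × ℤ

/-- twice the signed area of the triangle `a b c` -/
def dt (a b c : Pt) : ℤ := (b.1 - a.1) * (c.2 - a.2) - (b.2 - a.2) * (c.1 - a.1)

/-- the point in the plane -/
def emb (p : Pt) : ℝ × ℝ := ((p.1 : ℝ), (p.2 : ℝ))

/-- the relative interior of the segment `p q` -/
def oseg (p q : Pt) : Set (ℝ × ℝ) := openSegment ℝ (emb p) (emb q)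

/-- a segment with endpoints in `S` whose relative interior contains no point of `S` -/
def IsSeg (S : Finset Pt) (p q : Pt) : Prop :=
  p ∈ S ∧ q ∈ S ∧ p ≠ q ∧ ∀ r ∈ S, emb r ∉ oseg p q

/-- a triangulation of `S`: a maximal family of pairwise non-crossing segments -/
structure IsTriangulation (S : Finset Pt) (T : Set (Sym2 Pt)) : Prop where
  seg : ∀ p q, s(p, q) ∈ T → IsSeg S p q
  noncross : ∀ p q p' q', s(p, q) ∈ T → s(p', q') ∈ T → s(p, q) ≠ s(p', q') →
    Disjoint (oseg p q) (oseg p' q')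
  maximal : ∀ p q, IsSeg S p q →
    (∀ p' q', s(p', q') ∈ T → s(p, q) ≠ s(p', q') → Disjoint (oseg p q) (oseg p' q')) →
    s(p, q) ∈ T

/-- a triangle of the triangulation: its sides are segments of `T` and it contains no
further point of `S` -/
def IsTri (S : Finset Pt) (T : Set (Sym2 Pt)) (a b c : Pt) : Prop :=
  s(a, b) ∈ T ∧ s(b, c) ∈ T ∧ s(a, c) ∈ T ∧ dt a b c ≠ 0 ∧
    ∀ r ∈ S, emb r ∈ convexHull ℝ {emb a, emb b, emb c} → r = a ∨ r = b ∨ r = c

/-- there is a triangulation of `S` all of whose triangles have area at most `A` -/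
def MinMaxArea (S : Finset Pt) (A : ℚ) : Prop :=
  ∃ T, IsTriangulation S T ∧ ∀ a b c, IsTri S T a b c → ((|dt a b c| : ℤ) : ℚ) / 2 ≤ A

/-- closed triangle, in integer terms (for `dt a b c > 0`) -/
def InTri (a b c r : Pt) : Prop := 0 ≤ dt a b r ∧ 0 ≤ dt b c r ∧ 0 ≤ dt c a r

/-- proper crossing, in integer terms -/
def PCross (a b c d : Pt) : Prop := dt a b c * dt a b d < 0 ∧ dt c d a * dt c d b < 0

/-- all lattice points of the box `[0,X] × [0,Y]` -/
noncomputable def box (X Y : ℤ) : Finset Pt := Finset.Icc 0 X ×ˢ Finset.Icc 0 Y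

/-- the open box -/
noncomputable def ibox (X Y : ℤ) : Finset Pt := Finset.Ioo 0 X ×ˢ Finset.Ioo 0 Y

/-- a medial family for the missing points `M` of the box: for every `q` in `M` a primitive
half vector `e q` -/
structure Medial (X Y : ℤ) (M : Finset Pt) (e : Pt → Pt) : Prop where
  prim : ∀ q ∈ M, Int.gcd (e q).1 (e q).2 = 1
  add_mem : ∀ q ∈ M, q + e q ∈ box X Y \ M
  sub_mem : ∀ q ∈ M, q - e q ∈ box X Y \ M
  disj : ∀ q ∈ M, ∀ q' ∈ M, q ≠ q' → ¬ PCross (q - e q) (q + e q) (q' - e q') (q' + e q')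
  notri : ∀ q₁ ∈ M, ∀ q₂ ∈ M, ∀ q₃ ∈ M, ∀ a b c : Pt,
    s(q₁ - e q₁, q₁ + e q₁) = s(b, c) → s(q₂ - e q₂, q₂ + e q₂) = s(a, c) →
    s(q₃ - e q₃, q₃ + e q₃) = s(a, b) → |dt a b c| ≠ 4

end Pool.Agent.W982.TA
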