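import Pool.Agent.W982.TA.Defs

/-!
# Min-max area triangulations: statements of the geometric lemmas
-/

set_option autoImplicit false

namespace Pool.Agent.W982.TA

/-- G1: membership in the closed triangle in integer terms -/
def TaskG1 : Prop := ∀ a b c r : Pt, 0 < dt a b c →
  (emb r ∈ convexHull ℝ {emb a, emb b, emb c} ↔ InTri a b c r)

/-- G2: lattice points on a segment with a primitive half vector -/
def TaskG2 : Prop := ∀ q v r : Pt, Int.gcd v.1 v.2 = 1 →
  (emb r ∈ oseg (q - v) (q + v) ↔ r = q)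

/-- G3: a proper crossing gives a common point -/
def TaskG3 : Prop := ∀ a b c d : Pt, PCross a b c d → ¬ Disjoint (oseg a b) (oseg c d)

/-- G4: two segments whose relative interiors meet cross properly, unless an endpoint of one
of them lies in the relative interior of the other, or they are the same segment -/
def TaskG4 : Prop := ∀ a b c d : Pt, a ≠ b → c ≠ d → s(a, b) ≠ s(c, d) →
  emb a ∉ oseg c d → emb b ∉ oseg c d → emb c ∉ oseg a b → emb d ∉ oseg a b →
  ¬ Disjoint (oseg a b) (oseg c d) → PCross a b c d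

/-- G5: every family of pairwise non-crossing segments extends to a triangulation -/
def TaskG5 : Prop := ∀ (S : Finset Pt) (F : Set (Sym2 Pt)),
  (∀ p q, s(p, q) ∈ F → IsSeg S p q) →
  (∀ p q p' q', s(p, q) ∈ F → s(p', q') ∈ F → s(p, q) ≠ s(p', q') →
    Disjoint (oseg p q) (oseg p' q')) →
  ∃ T, IsTriangulation S T ∧ F ⊆ T

/-- the point `z` sees the point `c`: no segment of `T` meets the open segment and no point of
`S` lies on it -/
def Sees (S : Finset Pt) (T : Set (Sym2 Pt)) (z : ℝ × ℝ) (c : Pt) : Prop :=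
  (∀ p q, s(p, q) ∈ T → Disjoint (openSegment ℝ z (emb c)) (oseg p q)) ∧
    ∀ r ∈ S, emb r ∉ openSegment ℝ z (emb c)

/-- G6: a point in the relative interior of an edge sees some point on the left, if there is
a point of `S` on the left -/
def TaskG6 : Prop := ∀ (S : Finset Pt) (T : Set (Sym2 Pt)), IsTriangulation S T →
  ∀ a b : Pt, s(a, b) ∈ T → ∀ z ∈ oseg a b, (∃ s ∈ S, 0 < dt a b s) →
  ∃ c ∈ S, 0 < dt a b c ∧ Sees S T z c

/-- G7: if `z` (in the relative interior of the edge `ab`) sees `c` on the left, then either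
there is no further point of `S` in the triangle `a b c`, or `z` sees a point `s ≠ c` of this
triangle that is on the left of `ab` -/
def TaskG7 : Prop := ∀ (S : Finset Pt) (T : Set (Sym2 Pt)), IsTriangulation S T →
  ∀ a b : Pt, s(a, b) ∈ T → ∀ z ∈ oseg a b, ∀ c ∈ S, 0 < dt a b c → Sees S T z c →
  (∃ r ∈ S, InTri a b c r ∧ r ≠ a ∧ r ≠ b ∧ r ≠ c) →
  ∃ s ∈ S, InTri a b c s ∧ s ≠ c ∧ 0 < dt a b s ∧ Sees S T z s

/-- G8: if `z` sees `c` and the triangle `a b c` is empty then its sides are in `T` -/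
def TaskG8 : Prop := ∀ (S : Finset Pt) (T : Set (Sym2 Pt)), IsTriangulation S T →
  ∀ a b : Pt, s(a, b) ∈ T → ∀ z ∈ oseg a b, ∀ c ∈ S, 0 < dt a b c → Sees S T z c →
  (∀ r ∈ S, InTri a b c r → r = a ∨ r = b ∨ r = c) → s(a, c) ∈ T ∧ s(b, c) ∈ T

/-- G9: the triangle on the left of an edge; it contains every point of the plane on the left
of the edge that is seen (in the sense below) from a point of the edge -/
def TaskG9 : Prop := ∀ (S : Finset Pt) (T : Set (Sym2 Pt)), IsTriangulation S T →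
  ∀ a b : Pt, s(a, b) ∈ T → (∃ s ∈ S, 0 < dt a b s) →
  ∃ c, 0 < dt a b c ∧ IsTri S T a b c ∧
    ∀ z ∈ oseg a b, ∀ q : Pt, 0 < dt a b q → q ∉ S →
      (∀ p r, s(p, r) ∈ T → Disjoint (openSegment ℝ z (emb q)) (oseg p r)) →
      (∀ p r, s(p, r) ∈ T → emb q ∉ oseg p r) →
      (∀ r ∈ S, emb r ∉ openSegment ℝ z (emb q)) → InTri a b c q

/-- G10: a point that is on no edge is seen from a point of some edge -/
def TaskG10 : Prop := ∀ (S : Finset Pt) (T : Set (Sym2 Pt)), IsTriangulation S T →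
  ∀ q : Pt, q ∉ S → (∃ a b, s(a, b) ∈ T ∧ dt a b q ≠ 0) →
  (∀ p r, s(p, r) ∈ T → emb q ∉ oseg p r) →
  ∃ a b, s(a, b) ∈ T ∧ 0 < dt a b q ∧ ∃ z ∈ oseg a b,
      (∀ p r, s(p, r) ∈ T → Disjoint (openSegment ℝ z (emb q)) (oseg p r)) ∧
      (∀ r ∈ S, emb r ∉ openSegment ℝ z (emb q))

/-- G11: lattice triangle of doubled area at most 2 with a further lattice point -/
def TaskG11 : Prop := ∀ a b c q : Pt, 0 < dt a b c → dt a b c ≤ 2 → InTri a b c q →
  q ≠ a → q ≠ b → q ≠ c →
  (∃ v : Pt, Int.gcd v.1 v.2 = 1 ∧ s(q - v, q + v) = s(a, b)) ∨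
  (∃ v : Pt, Int.gcd v.1 v.2 = 1 ∧ s(q - v, q + v) = s(b, c)) ∨
  (∃ v : Pt, Int.gcd v.1 v.2 = 1 ∧ s(q - v, q + v) = s(a, c))

/-- G12: an empty lattice triangle has doubled area 1 -/
def TaskG12 : Prop := ∀ a b c : Pt, 0 < dt a b c →
  (∀ r, InTri a b c r → r = a ∨ r = b ∨ r = c) → dt a b c = 1

/-- G13: a lattice triangle whose only further lattice points are midpoints of sides has
doubled area at most 2, or doubled area 4 and all three midpoints are lattice points -/
def TaskG13 : Prop := ∀ a b c : Pt, 0 < dt a b c →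
  (∀ r, InTri a b c r → r = a ∨ r = b ∨ r = c ∨ r + r = a + b ∨ r + r = b + c ∨ r + r = a + c) →
  dt a b c ≤ 2 ∨ (dt a b c = 4 ∧ (∃ r, r + r = a + b) ∧ (∃ r, r + r = b + c) ∧
    ∃ r, r + r = a + c)

/-- G16: the lattice points of a triangle of doubled area 4 with lattice midpoints -/
def TaskG16 : Prop := ∀ a b c q₁ q₂ q₃ : Pt, q₁ + q₁ = b + c → q₂ + q₂ = a + c →
  q₃ + q₃ = a + b → dt a b c = 4 → ∀ r, InTri a b c r →
  r = a ∨ r = b ∨ r = c ∨ r = q₁ ∨ r = q₂ ∨ r = q₃

/-- G14: the box without missing points has at most area-1 triangulations only if there is a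
medial family -/
def TaskG14 : Prop := ∀ (X Y : ℤ) (M : Finset Pt), 0 < X → 0 < Y → M ⊆ ibox X Y →
  MinMaxArea (box X Y \ M) 1 → ∃ e, Medial X Y M e

/-- G15: a medial family extends to a triangulation with all areas at most 1 -/
def TaskG15 : Prop := ∀ (X Y : ℤ) (M : Finset Pt) (e : Pt → Pt), 0 < X → 0 < Y →
  M ⊆ ibox X Y → Medial X Y M e → MinMaxArea (box X Y \ M) 1

end Pool.Agent.W982.TA
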