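import Pool.Agent.W982.TA.DatF
import Pool.Agent.NPC.Sat2

/-!
# Min-max area triangulations: the grid of tiles
-/

set_option autoImplicit false

namespace Pool.Agent.W982.TA

open Pool.Agent.NPC

/-! ### the tiles: ports -/

/-- rows of the cells of a tile of type `t` on the left side -/
def hrL (t y : ℕ) : Bool :=
  if t ≤ 1 then decide (y = 23 ∨ y = 24 ∨ y = 41 ∨ y = 42)
  else if t = 4 then decide (y = 41 ∨ y = 42)
  else if t = 6 then decide (y = 19 ∨ y = 20) else false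

/-- rows of the cells of a tile of type `t` on the right side -/
def hrR (t y : ℕ) : Bool :=
  if t ≤ 3 then decide (y = 23 ∨ y = 24 ∨ y = 41 ∨ y = 42)
  else if t ≤ 5 then decide (y = 41 ∨ y = 42)
  else decide (y = 19 ∨ y = 20)

/-- columns of the cells of a tile of type `t` on the bottom side -/
def vcB (t x : ℕ) : Bool :=
  if t ≤ 1 ∨ t = 6 then decide (x = 15 ∨ x = 16)
  else if t = 3 then decide (x = 4 ∨ x = 5 ∨ x = 25 ∨ x = 26)
  else if t = 4 ∨ t = 5 then false else decide (x = 4 ∨ x = 5)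

/-- columns of the cells of a tile of type `t` on the top side -/
def vcT (t x : ℕ) : Bool :=
  if t ≤ 1 ∨ t = 4 then decide (x = 15 ∨ x = 16)
  else if t = 2 then decide (x = 4 ∨ x = 5 ∨ x = 25 ∨ x = 26)
  else if t = 3 ∨ t = 5 then decide (x = 4 ∨ x = 5) else false

/-- the pattern has the right size and the right cells on the sides -/
def patOK (t : ℕ) (P : List ℕ) : Bool :=
  decide (P.length = 62) && (P.all fun r => decide (r < 2 ^ 64)) &&
    ((List.range 62).all fun y => (missP P (0, (y : ℤ)) == hrL t y) &&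
      (missP P (63, (y : ℤ)) == hrR t y)) &&
    ((List.range 64).all fun x => (missP P ((x : ℤ), 0) == vcB t x) &&
      (missP P ((x : ℤ), 61) == vcT t x))

/-- signals of the horizontal ports of a tile of type `t` in state `s` (`true` is positive) -/
def hs (t s y : ℕ) : Bool :=
  if 6 ≤ t then true else if 41 ≤ y then false
  else if t = 3 then decide (s = 0) else decide (s % 2 = 1)

/-- signals of the top ports -/
def vt (t s x : ℕ) : Bool :=
  if t = 0 then decide (s / 2 = 1) else if t = 1 then decide (s ≠ 0)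
  else if t = 2 then decide (25 ≤ x ∧ s = 1) else false

/-- signals of the bottom ports -/
def vb (t s x : ℕ) : Bool :=
  if t ≤ 1 then decide (s / 2 = 1) else if t = 3 then decide (25 ≤ x ∧ s = 1)
  else decide (t = 6)

/-! ### the explicit families -/

/-- the codes of the cells of a pattern -/
def cellCodes (P : List ℕ) : List ℕ :=
  P.zipIdx.flatMap fun r => ((List.range 64).filter fun x => r.1.testBit x).map fun x => x + 64 * r.2

/-- the segment is inside of the tile -/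
def inN (n : ℕ) : Bool :=
  decide (8 ≤ px n) && decide (px n ≤ 71) && decide (8 ≤ qx n) && decide (qx n ≤ 71) &&
    decide (8 ≤ qy n) && decide (py n ≤ 69)

/-- standard segment of a horizontal port -/
def hpN (t s n : ℕ) : Bool :=
  ((decide (ex n = 0) && hrL t (ey n)) || (decide (ex n = 63) && hrR t (ey n))) &&
    decide (eb n = 10) && decide (ea n = if hs t s (ey n) then 9 else 7)

/-- standard segment of a vertical port -/
def vpN (t s n : ℕ) : Bool :=
  ((decide (ey n = 61) && vcT t (ex n) && decide (ea n = if vt t s (ex n) then 10 else 6)) ||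
    (decide (ey n = 0) && vcB t (ex n) && decide (ea n = if vb t s (ex n) then 10 else 6))) &&
    decide (eb n = 9)

/-- the check of an entry -/
def entOK (t s : ℕ) (P : List ℕ) (n : ℕ) : Bool :=
  decide (Int.gcd ((ea n : ℤ) - 8) ((eb n : ℤ) - 8) = 1) && decide (8 ≤ eb n) &&
    decide (n < 2 ^ 20) &&
    !missP P ((px n : ℤ) - 8, (py n : ℤ) - 8) && !missP P ((qx n : ℤ) - 8, (qy n : ℤ) - 8) &&
    (inN n || hpN t s n || vpN t s n)

/-- sorted by cells -/
def sortedN : List ℕ → Bool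
  | n :: m :: t => decide (n % 4096 < m % 4096) && sortedN (m :: t)
  | _ => true

/-- the pairs of `n` with the entries of the list; stops when the rows are too far -/
def pairsFrom (L : List ℕ) (n : ℕ) : List ℕ → Bool
  | [] => true
  | m :: t => Nat.blt (ey n + 14) (ey m) || (pairOK L n m && pairsFrom L n t)

/-- the check of all pairs -/
def pairsOK2 (L : List ℕ) : List ℕ → Bool
  | [] => true
  | n :: t => pairsFrom L n t && pairsOK2 L t

/-- the check of a family -/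
def famOK (t s : ℕ) (P L : List ℕ) : Bool :=
  decide (L.map (fun n => n % 4096) = cellCodes P) && L.all (entOK t s P) && sortedN L &&
    pairsOK2 L L

/-- the half vector of the cell `(x, y)` in the family `L` -/
def loc (L : List ℕ) (x y : ℕ) : Pt :=
  let n := (L.find? fun n => n % 4096 == x + 64 * y).getD 0
  ((ea n : ℤ) - 8, (eb n : ℤ) - 8)

/-- the segment of the cell `(x, y)` with half vector `v` is inside of the tile -/
def InBox (x y : ℕ) (v : Pt) : Prop :=
  0 ≤ (x : ℤ) - |v.1| ∧ (x : ℤ) + |v.1| ≤ 63 ∧ 0 ≤ (y : ℤ) - |v.2| ∧ (y : ℤ) + |v.2| ≤ 61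

/-- standard segment of a horizontal port -/
def HPort (t s x y : ℕ) (v : Pt) : Prop :=
  ((x = 0 ∧ hrL t y = true) ∨ (x = 63 ∧ hrR t y = true)) ∧ v = (if hs t s y then 1 else -1, 2)

/-- standard segment of a vertical port -/
def VPort (t s x y : ℕ) (v : Pt) : Prop :=
  (y = 61 ∧ vcT t x = true ∧ v = (if vt t s x then 2 else -2, 1)) ∨
    (y = 0 ∧ vcB t x = true ∧ v = (if vb t s x then 2 else -2, 1))

/-- the first endpoint -/
def en1 (f : ℕ → ℕ → Pt) (x y : ℕ) : Pt := ((x : ℤ) - (f x y).1, (y : ℤ) - (f x y).2)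
/-- the second endpoint -/
def en2 (f : ℕ → ℕ → Pt) (x y : ℕ) : Pt := ((x : ℤ) + (f x y).1, (y : ℤ) + (f x y).2)

/-- the family `f` of half vectors is correct for the tile with pattern `P` -/
structure LocOK (t s : ℕ) (P : List ℕ) (f : ℕ → ℕ → Pt) : Prop where
  prim : ∀ x y : ℕ, missP P ((x : ℤ), (y : ℤ)) = true → Int.gcd (f x y).1 (f x y).2 = 1
  add : ∀ x y : ℕ, missP P ((x : ℤ), (y : ℤ)) = true → missP P (en2 f x y) = false
  sub : ∀ x y : ℕ, missP P ((x : ℤ), (y : ℤ)) = true → missP P (en1 f x y) = false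
  edge : ∀ x y : ℕ, missP P ((x : ℤ), (y : ℤ)) = true →
    InBox x y (f x y) ∨ HPort t s x y (f x y) ∨ VPort t s x y (f x y)
  disj : ∀ x y x' y' : ℕ, missP P ((x : ℤ), (y : ℤ)) = true →
    missP P ((x' : ℤ), (y' : ℤ)) = true → (x, y) ≠ (x', y') →
    ¬ PCross (en1 f x y) (en2 f x y) (en1 f x' y') (en2 f x' y')
  notri : ∀ x y x' y' x'' y'' : ℕ, missP P ((x : ℤ), (y : ℤ)) = true →
    missP P ((x' : ℤ), (y' : ℤ)) = true → missP P ((x'' : ℤ), (y'' : ℤ)) = true →
    ∀ a b c : Pt, s(en1 f x y, en2 f x y) = s(b, c) → s(en1 f x' y', en2 f x' y') = s(a, c) →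
      s(en1 f x'' y'', en2 f x'' y'') = s(a, b) → |dt a b c| ≠ 4

/-- soundness of the local checks -/
def TaskF1 : Prop := ∀ (t s : ℕ) (P L : List ℕ), patOK t P = true → famOK t s P L = true →
  LocOK t s P (loc L)

/-! ### gluing -/

/-- a grid of tiles with correct families and matching signals; `i` is the number of the row,
`j` the number of the column -/
structure GridOK (R C : ℕ) (ty st : ℕ → ℕ → ℕ) (P : ℕ → List ℕ) (f : ℕ → ℕ → ℕ → ℕ → Pt)
    (M : Finset Pt) (e : Pt → Pt) : Prop where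
  pos : 0 < R ∧ 0 < C
  pat : ∀ i < R, ∀ j < C, patOK (ty i j) (P (ty i j)) = true
  loc : ∀ i < R, ∀ j < C, LocOK (ty i j) (st i j) (P (ty i j)) (f i j)
  mem : ∀ q : Pt, q ∈ M ↔ ∃ i < R, ∃ j < C, ∃ x : ℕ, x < 64 ∧ ∃ y : ℕ, y < 62 ∧
    missP (P (ty i j)) ((x : ℤ), (y : ℤ)) = true ∧ q = (64 * (j : ℤ) + x, 62 * (i : ℤ) + y)
  val : ∀ i < R, ∀ j < C, ∀ x : ℕ, x < 64 → ∀ y : ℕ, y < 62 →
    e (64 * (j : ℤ) + (x : ℤ), 62 * (i : ℤ) + (y : ℤ)) = f i j x y
  hc : ∀ i < R, ∀ j, j + 1 < C → ∀ y, hrR (ty i j) y = hrL (ty i (j + 1)) y ∧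
    (hrR (ty i j) y = true → hs (ty i j) (st i j) y = hs (ty i (j + 1)) (st i (j + 1)) y)
  vc : ∀ i, i + 1 < R → ∀ j < C, ∀ x, vcT (ty i j) x = vcB (ty (i + 1) j) x ∧
    (vcT (ty i j) x = true → vt (ty i j) (st i j) x = vb (ty (i + 1) j) (st (i + 1) j) x)
  bl : ∀ i < R, ∀ y, hrL (ty i 0) y = false
  bb : ∀ j < C, ∀ x, vcB (ty 0 j) x = false
  bt : ∀ j < C, ∀ x, vcT (ty (R - 1) j) x = false

/-- gluing: endpoints -/
def TaskF2 : Prop := ∀ (R C : ℕ) (ty st : ℕ → ℕ → ℕ) (P : ℕ → List ℕ)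
  (f : ℕ → ℕ → ℕ → ℕ → Pt) (M : Finset Pt) (e : Pt → Pt), GridOK R C ty st P f M e →
  ∀ q ∈ M, Int.gcd (e q).1 (e q).2 = 1 ∧ q + e q ∈ box (64 * C + 7) (62 * R - 1) \ M ∧
    q - e q ∈ box (64 * C + 7) (62 * R - 1) \ M

/-- segments separated by a vertical or horizontal line do not cross -/
def TaskF3 : Prop := ∀ (a b c d : Pt) (m : ℤ),
  (a.1 ≤ m → b.1 ≤ m → m ≤ c.1 → m ≤ d.1 → ¬ PCross a b c d) ∧
  (a.2 ≤ m → b.2 ≤ m → m ≤ c.2 → m ≤ d.2 → ¬ PCross a b c d)

/-- gluing: no crossings -/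
def TaskF4 : Prop := ∀ (R C : ℕ) (ty st : ℕ → ℕ → ℕ) (P : ℕ → List ℕ)
  (f : ℕ → ℕ → ℕ → ℕ → Pt) (M : Finset Pt) (e : Pt → Pt), GridOK R C ty st P f M e →
  ∀ q ∈ M, ∀ q' ∈ M, q ≠ q' → ¬ PCross (q - e q) (q + e q) (q' - e q') (q' + e q')

/-- gluing: no triangles -/
def TaskF5 : Prop := ∀ (R C : ℕ) (ty st : ℕ → ℕ → ℕ) (P : ℕ → List ℕ)
  (f : ℕ → ℕ → ℕ → ℕ → Pt) (M : Finset Pt) (e : Pt → Pt), GridOK R C ty st P f M e →
  ∀ q₁ ∈ M, ∀ q₂ ∈ M, ∀ q₃ ∈ M, ∀ a b c : Pt,
    s(q₁ - e q₁, q₁ + e q₁) = s(b, c) → s(q₂ - e q₂, q₂ + e q₂) = s(a, c) →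
    s(q₃ - e q₃, q₃ + e q₃) = s(a, b) → |dt a b c| ≠ 4

/-! ### the instance of a formula -/

/-- clauses -/
abbrev Cl : Type := Lit ℕ × Lit ℕ × Lit ℕ

/-- number of rows of tiles -/
def nR (φ : List Cl) : ℕ := 6 * φ.length + 2
/-- number of columns of tiles -/
def nC (φ : List Cl) : ℕ := φ.length + 1

/-- the literal of a row -/
def litRow (i : ℕ) : Lit ℕ := (decide (i % 2 = 1), (i - 1) / 2)

/-- the literal occurs in the clause -/
def inCl (l : Lit ℕ) (c : Cl) : Bool := decide (l = c.1) || decide (l = c.2.1) || decide (l = c.2.2)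

/-- the clause of a column -/
def clOf (φ : List Cl) (j : ℕ) : Cl := φ.getD (j - 1) ((true, 0), (true, 0), (true, 0))

/-- the type of the tile in row `i` and column `j` -/
def ty (φ : List Cl) (i j : ℕ) : ℕ :=
  if j = 0 then (if i = 0 then 5 else if i = nR φ - 1 then 7 else if i % 2 = 1 then 2 else 3)
  else if i = 0 then 4 else if i = nR φ - 1 then 6
  else if inCl (litRow i) (clOf φ j) then 1 else 0

/-- the cells of a pattern -/
def cellsOf (P : List ℕ) : List (ℕ × ℕ) :=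
  (List.range 62).flatMap fun (y : ℕ) =>
    ((List.range 64).filter fun (x : ℕ) => missP P ((x : ℤ), (y : ℤ))).map fun (x : ℕ) => (x, y)

/-- the missing points of the instance -/
def Mlist (φ : List Cl) : List Pt :=
  (List.range (nR φ)).flatMap fun i => (List.range (nC φ)).flatMap fun j =>
    (cellsOf (pat (ty φ i j))).map fun c => (((64 * j + c.1 : ℕ) : ℤ), ((62 * i + c.2 : ℕ) : ℤ))

/-- the points of the instance -/
def Slist (φ : List Cl) : List Pt :=
  ((List.range (64 * nC φ + 8)).flatMap fun x => (List.range (62 * nR φ)).map fun y =>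
    (((x : ℕ) : ℤ), ((y : ℕ) : ℤ))).filter fun p => decide (p ∉ Mlist φ)

/-- the missing points as a set -/
def Mset (φ : List Cl) : Finset Pt := (Mlist φ).toFinset

/-- the patterns are correct -/
def PatsOK : Prop := ∀ t < 8, patOK t (pat t) = true

/-- the tiles are correct -/
def TilesOK : Prop := ∀ t < 8, tileOK (tile t) = true

/-- the families are correct -/
def FamsOK : Prop := ∀ t < 8, ∀ s < 4, (2 ≤ t → s ≤ 1) → (4 ≤ t → s = 0) →
  famOK t s (pat t) (fam t s) = true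

/-- the set of the missing points -/
def TaskI1 : Prop := PatsOK → ∀ (φ : List Cl) (q : Pt), q ∈ Mset φ ↔
  ∃ i < nR φ, ∃ j < nC φ, ∃ x : ℕ, x < 64 ∧ ∃ y : ℕ, y < 62 ∧
    missP (pat (ty φ i j)) ((x : ℤ), (y : ℤ)) = true ∧ q = (64 * (j : ℤ) + x, 62 * (i : ℤ) + y)

/-- the missing points are in the open box -/
def TaskI2 : Prop := PatsOK → ∀ (φ : List Cl), Mset φ ⊆ ibox (64 * nC φ + 7) (62 * nR φ - 1)

/-- the points of the instance as a set -/
def TaskI3 : Prop := PatsOK → ∀ (φ : List Cl), (Slist φ).Nodup ∧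
  (Slist φ).toFinset = box (64 * nC φ + 7) (62 * nR φ - 1) \ Mset φ

/-- the value of a literal -/
def lval (τ : ℕ → Bool) (l : Lit ℕ) : Bool := decide (τ l.2 = l.1)

/-- the signal of column `j` at the bottom of row `i` -/
def bsig (φ : List Cl) (τ : ℕ → Bool) (i j : ℕ) : Bool :=
  (List.range i).any fun i' => decide (1 ≤ i') && inCl (litRow i') (clOf φ j) &&
    lval τ (litRow i')

/-- the state of the tile in row `i` and column `j` -/
def st (φ : List Cl) (τ : ℕ → Bool) (i j : ℕ) : ℕ :=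
  if i = 0 ∨ i = nR φ - 1 then 0
  else if j = 0 then (τ ((i - 1) / 2)).toNat
  else (lval τ (litRow i)).toNat + 2 * (bsig φ τ i j).toNat

/-- the family of half vectors of the whole instance -/
def eAll (φ : List Cl) (τ : ℕ → Bool) (q : Pt) : Pt :=
  let i := (q.2 / 62).toNat
  let j := (q.1 / 64).toNat
  loc (fam (ty φ i j) (st φ τ i j)) (q.1 % 64).toNat (q.2 % 62).toNat

/-- the formula is satisfied by `τ` -/
def SatBy (φ : List Cl) (τ : ℕ → Bool) : Prop :=
  ∀ c ∈ φ, τ c.1.2 = c.1.1 ∨ τ c.2.1.2 = c.2.1.1 ∨ τ c.2.2.2 = c.2.2.1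

/-- the signals match horizontally -/
def TaskI4 : Prop := ∀ (φ : List Cl) (τ : ℕ → Bool), ∀ i < nR φ, ∀ j, j + 1 < nC φ → ∀ y,
  hrR (ty φ i j) y = hrL (ty φ i (j + 1)) y ∧ (hrR (ty φ i j) y = true →
    hs (ty φ i j) (st φ τ i j) y = hs (ty φ i (j + 1)) (st φ τ i (j + 1)) y)

/-- the signals match vertically -/
def TaskI5 : Prop := ∀ (φ : List Cl) (τ : ℕ → Bool), Bounded3 φ → SatBy φ τ →
  ∀ i, i + 1 < nR φ → ∀ j < nC φ, ∀ x,
    vcT (ty φ i j) x = vcB (ty φ (i + 1) j) x ∧ (vcT (ty φ i j) x = true →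
      vt (ty φ i j) (st φ τ i j) x = vb (ty φ (i + 1) j) (st φ τ (i + 1) j) x)

/-- completeness -/
def TaskI6 : Prop := PatsOK → FamsOK → ∀ (φ : List Cl), φ ≠ [] → Bounded3 φ → SAT3 φ →
  ∃ e, Medial (64 * nC φ + 7) (62 * nR φ - 1) (Mset φ) e

/-- the signals of a medial family: `h i j y` is the signal at the right side of tile `i j` in
row `y`, `v i j x` the signal at the top side in column `x` (`true` is positive) -/
structure Sig (φ : List Cl) (h v : ℕ → ℕ → ℕ → Bool) : Prop where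
  bl : v 0 0 4 = false ∧ h 0 0 41 = false
  bf : ∀ j, 1 ≤ j → j < nC φ → h 0 (j - 1) 41 = false → h 0 j 41 = false ∧ v 0 j 15 = false
  tA : ∀ i, i < nR φ - 1 → i % 2 = 1 → v (i - 1) 0 4 = false →
    v i 0 4 = false ∧ h i 0 41 = false ∧ (h i 0 23 = true → v i 0 25 = true)
  tB : ∀ i, 1 ≤ i → i < nR φ - 1 → i % 2 = 0 → v (i - 1) 0 4 = false →
    v i 0 4 = false ∧ h i 0 41 = false ∧ ¬ (h i 0 23 = true ∧ v (i - 1) 0 25 = true)
  tC : ∀ i j, 1 ≤ i → i < nR φ - 1 → 1 ≤ j → j < nC φ → h i (j - 1) 41 = false →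
    h i j 41 = false ∧ (h i j 23 = true → h i (j - 1) 23 = true) ∧
      (v i j 15 = true → v (i - 1) j 15 = true ∨
        (inCl (litRow i) (clOf φ j) = true ∧ h i (j - 1) 23 = true))
  tl : h (nR φ - 1) 0 19 = true
  tf : ∀ j, 1 ≤ j → j < nC φ → h (nR φ - 1) (j - 1) 19 = true →
    h (nR φ - 1) j 19 = true ∧ v (nR φ - 2) j 15 = true

/-- signals of adjacent tiles -/
def TaskJ1 : Prop := PatsOK → ∀ (φ : List Cl) (e : Pt → Pt), φ ≠ [] →
  Medial (64 * nC φ + 7) (62 * nR φ - 1) (Mset φ) e →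
  (∀ i < nR φ, ∀ j, j + 1 < nC φ → ∀ y, hrR (ty φ i j) y = true →
    0 < sg e (64 * (j : ℤ) + 63, 62 * (i : ℤ) + y) *
      sg e (64 * ((j + 1 : ℕ) : ℤ), 62 * (i : ℤ) + y)) ∧
  (∀ i, i + 1 < nR φ → ∀ j < nC φ, ∀ x, vcT (ty φ i j) x = true →
    0 < sg e (64 * (j : ℤ) + x, 62 * (i : ℤ) + 61) *
      sg e (64 * (j : ℤ) + x, 62 * ((i + 1 : ℕ) : ℤ)))

/-- signals of tiles -/
def TaskJ2 : Prop := PatsOK → TilesOK → ∀ (φ : List Cl) (e : Pt → Pt), φ ≠ [] →
  Medial (64 * nC φ + 7) (62 * nR φ - 1) (Mset φ) e → ∀ i < nR φ, ∀ j < nC φ,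
  (∀ g ∈ (tile (ty φ i j)).goals, ¬ ∀ a ∈ g,
    SgAt e (64 * (j : ℤ) + a.2.1.1, 62 * (i : ℤ) + a.2.1.2) a.2.2) ∧
  ∀ c ∈ (tile (ty φ i j)).comps, ∀ q ∈ c, sg e (64 * (j : ℤ) + q.1, 62 * (i : ℤ) + q.2) ≠ 0

/-- the signals of a medial family -/
def TaskJ3 : Prop := PatsOK → TilesOK → ∀ (φ : List Cl) (e : Pt → Pt), φ ≠ [] →
  Medial (64 * nC φ + 7) (62 * nR φ - 1) (Mset φ) e → ∃ h v, Sig φ h v

/-- the signals give a satisfying assignment -/
def TaskJ4 : Prop := ∀ (φ : List Cl) (h v : ℕ → ℕ → ℕ → Bool), Bounded3 φ → Sig φ h v → SAT3 φ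

/-- the assertion `a` is known -/
def known (K : List (ℕ × Bool)) (a : ℕ × Bool) : Bool := K.any fun b => b.1 == a.1 && b.2 == a.2

/-- one round of unit propagation, `none` if there is a contradiction -/
def upStep : List Claim → List (ℕ × Bool) → Option (List (ℕ × Bool))
  | [], K => some K
  | c :: cs, K => match c.asm.filter (fun a => !known K a) with
    | [] => none
    | [a] => upStep cs ((a.1, !a.2) :: K)
    | _ => upStep cs K

/-- unit propagation -/
def upr (cs : List Claim) : ℕ → List (ℕ × Bool) → Bool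
  | 0, _ => false
  | n + 1, K => match upStep cs K with
    | none => true
    | some K' => upr cs n K'

/-- the goal `g` follows from the claims by unit propagation -/
def goalUP (T : TileData) (g : List (ℕ × (ℕ × ℕ) × Bool)) : Bool :=
  (g.all fun a => (T.comps.getD a.1 []).contains a.2.1) &&
    upr T.claims 12 (g.map fun a => (a.1, a.2.2))

/-- soundness of unit propagation -/
def TaskU1 : Prop := ∀ (T : TileData) (g : List (ℕ × (ℕ × ℕ) × Bool)), goalUP T g = true →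
  goalOK T g = true

end Pool.Agent.W982.TA
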