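import Pool.Agent.W982.TA.Grid

/-!
# Min-max area triangulations: the check of tile 0
-/

set_option autoImplicit false

namespace Pool.Agent.W982.TA

theorem ckC0 : (tile 0).comps.all (compOK (tile 0).pat) = true := by decide +kernel

theorem ckL0_F_rl : claimOK (tile 0).pat (tile 0).comps clC_F_rl = true := by
  decide +kernel

theorem ckL0_F_tb : claimOK (tile 0).pat (tile 0).comps clC_F_tb = true := by
  decide +kernel

theorem ckL0_F_Rr : claimOK (tile 0).pat (tile 0).comps clC_F_Rr = true := by
  decide +kernel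

theorem ckL0_F_tt : claimOK (tile 0).pat (tile 0).comps clC_F_tt = true := by
  decide +kernel

theorem ckL0_X_k : claimOK (tile 0).pat (tile 0).comps clC_X_k = true := by
  decide +kernel

theorem ckL0_X_tb : claimOK (tile 0).pat (tile 0).comps clC_X_tb = true := by
  decide +kernel

theorem ckL0_X_Kl : claimOK (tile 0).pat (tile 0).comps clC_X_Kl = true := by
  decide +kernel

theorem ckL0_X_Kr : claimOK (tile 0).pat (tile 0).comps clC_X_Kr = true := by
  decide +kernel

theorem ckL0_K_r : claimOK (tile 0).pat (tile 0).comps clC_K_r = true := by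
  decide +kernel

theorem ckL0_K_b : claimOK (tile 0).pat (tile 0).comps clC_K_b = true := by
  decide +kernel

theorem ckL0 : (tile 0).claims.all (claimOK (tile 0).pat (tile 0).comps) = true := by
  rw [List.all_eq_true]
  intro c hc
  change c ∈ [clC_F_rl, clC_F_tb, clC_F_Rr, clC_F_tt, clC_X_k, clC_X_tb, clC_X_Kl, clC_X_Kr, clC_K_r, clC_K_b] at hc
  simp only [List.mem_cons, List.not_mem_nil, or_false] at hc
  rcases hc with rfl | rfl | rfl | rfl | rfl | rfl | rfl | rfl | rfl | rfl
  · exact ckL0_F_rl
  · exact ckL0_F_tb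
  · exact ckL0_F_Rr
  · exact ckL0_F_tt
  · exact ckL0_X_k
  · exact ckL0_X_tb
  · exact ckL0_X_Kl
  · exact ckL0_X_Kr
  · exact ckL0_K_r
  · exact ckL0_K_b

theorem ckG0 : (tile 0).goals.all (goalUP (tile 0)) = true := by decide +kernel

theorem ckA0 : ((tile 0).claims.all fun c => c.asm.all fun a =>
    decide (a.1 < (tile 0).comps.length)) = true := by decide +kernel

theorem ckT0 (hu : TaskU1) : tileOK (tile 0) = true := by
  have h : (tile 0).goals.all (goalOK (tile 0)) = true := by
    rw [List.all_eq_true]
    intro g hg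
    exact hu _ g (List.all_eq_true.1 ckG0 g hg)
  unfold tileOK
  rw [ckC0, ckL0, h, ckA0]
  rfl

end Pool.Agent.W982.TA
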