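import Pool.Agent.W982.TA.Grid

/-!
# Min-max area triangulations: the check of tile 1
-/

set_option autoImplicit false

namespace Pool.Agent.W982.TA

theorem ckC1 : (tile 1).comps.all (compOK (tile 1).pat) = true := by decide +kernel

theorem ckL1_O_rl : claimOK (tile 1).pat (tile 1).comps clO_O_rl = true := by
  decide +kernel

theorem ckL1_O_tbl : claimOK (tile 1).pat (tile 1).comps clO_O_tbl = true := by
  decide +kernel

theorem ckL1_O_Rr : claimOK (tile 1).pat (tile 1).comps clO_O_Rr = true := by
  decide +kernel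

theorem ckL1_O_lL : claimOK (tile 1).pat (tile 1).comps clO_O_lL = true := by
  decide +kernel

theorem ckL1_O_Kk : claimOK (tile 1).pat (tile 1).comps clO_O_Kk = true := by
  decide +kernel

theorem ckL1_X_k : claimOK (tile 1).pat (tile 1).comps clO_X_k = true := by
  decide +kernel

theorem ckL1_X_tb : claimOK (tile 1).pat (tile 1).comps clO_X_tb = true := by
  decide +kernel

theorem ckL1_X_Kl : claimOK (tile 1).pat (tile 1).comps clO_X_Kl = true := by
  decide +kernel

theorem ckL1_X_Kr : claimOK (tile 1).pat (tile 1).comps clO_X_Kr = true := by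
  decide +kernel

theorem ckL1_K_r : claimOK (tile 1).pat (tile 1).comps clO_K_r = true := by
  decide +kernel

theorem ckL1_K_b : claimOK (tile 1).pat (tile 1).comps clO_K_b = true := by
  decide +kernel

theorem ckL1 : (tile 1).claims.all (claimOK (tile 1).pat (tile 1).comps) = true := by
  rw [List.all_eq_true]
  intro c hc
  change c ∈ [clO_O_rl, clO_O_tbl, clO_O_Rr, clO_O_lL, clO_O_Kk, clO_X_k, clO_X_tb, clO_X_Kl, clO_X_Kr, clO_K_r, clO_K_b] at hc
  simp only [List.mem_cons, List.not_mem_nil, or_false] at hc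
  rcases hc with rfl | rfl | rfl | rfl | rfl | rfl | rfl | rfl | rfl | rfl | rfl
  · exact ckL1_O_rl
  · exact ckL1_O_tbl
  · exact ckL1_O_Rr
  · exact ckL1_O_lL
  · exact ckL1_O_Kk
  · exact ckL1_X_k
  · exact ckL1_X_tb
  · exact ckL1_X_Kl
  · exact ckL1_X_Kr
  · exact ckL1_K_r
  · exact ckL1_K_b

theorem ckG1 : (tile 1).goals.all (goalUP (tile 1)) = true := by decide +kernel

theorem ckA1 : ((tile 1).claims.all fun c => c.asm.all fun a =>
    decide (a.1 < (tile 1).comps.length)) = true := by decide +kernel

theorem ckT1 (hu : TaskU1) : tileOK (tile 1) = true := by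
  have h : (tile 1).goals.all (goalOK (tile 1)) = true := by
    rw [List.all_eq_true]
    intro g hg
    exact hu _ g (List.all_eq_true.1 ckG1 g hg)
  unfold tileOK
  rw [ckC1, ckL1, h, ckA1]
  rfl

end Pool.Agent.W982.TA
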