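import Pool.Agent.W982.TA.Grid

/-!
# Min-max area triangulations: the check of tile 2
-/

set_option autoImplicit false

namespace Pool.Agent.W982.TA

theorem ckC2 : (tile 2).comps.all (compOK (tile 2).pat) = true := by decide +kernel

theorem ckL2_A_rv : claimOK (tile 2).pat (tile 2).comps clA_A_rv = true := by
  decide +kernel

theorem ckL2_J_t : claimOK (tile 2).pat (tile 2).comps clA_J_t = true := by
  decide +kernel

theorem ckL2_J_r : claimOK (tile 2).pat (tile 2).comps clA_J_r = true := by
  decide +kernel

theorem ckL2_X_k : claimOK (tile 2).pat (tile 2).comps clA_X_k = true := by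
  decide +kernel

theorem ckL2_X_bt : claimOK (tile 2).pat (tile 2).comps clA_X_bt = true := by
  decide +kernel

theorem ckL2_X_Kl : claimOK (tile 2).pat (tile 2).comps clA_X_Kl = true := by
  decide +kernel

theorem ckL2_X_Kr : claimOK (tile 2).pat (tile 2).comps clA_X_Kr = true := by
  decide +kernel

theorem ckL2_K_r : claimOK (tile 2).pat (tile 2).comps clA_K_r = true := by
  decide +kernel

theorem ckL2_K_b : claimOK (tile 2).pat (tile 2).comps clA_K_b = true := by
  decide +kernel

theorem ckL2 : (tile 2).claims.all (claimOK (tile 2).pat (tile 2).comps) = true := by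
  rw [List.all_eq_true]
  intro c hc
  change c ∈ [clA_A_rv, clA_J_t, clA_J_r, clA_X_k, clA_X_bt, clA_X_Kl, clA_X_Kr, clA_K_r, clA_K_b] at hc
  simp only [List.mem_cons, List.not_mem_nil, or_false] at hc
  rcases hc with rfl | rfl | rfl | rfl | rfl | rfl | rfl | rfl | rfl
  · exact ckL2_A_rv
  · exact ckL2_J_t
  · exact ckL2_J_r
  · exact ckL2_X_k
  · exact ckL2_X_bt
  · exact ckL2_X_Kl
  · exact ckL2_X_Kr
  · exact ckL2_K_r
  · exact ckL2_K_b

theorem ckG2 : (tile 2).goals.all (goalUP (tile 2)) = true := by decide +kernel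

theorem ckA2 : ((tile 2).claims.all fun c => c.asm.all fun a =>
    decide (a.1 < (tile 2).comps.length)) = true := by decide +kernel

theorem ckT2 (hu : TaskU1) : tileOK (tile 2) = true := by
  have h : (tile 2).goals.all (goalOK (tile 2)) = true := by
    rw [List.all_eq_true]
    intro g hg
    exact hu _ g (List.all_eq_true.1 ckG2 g hg)
  unfold tileOK
  rw [ckC2, ckL2, h, ckA2]
  rfl

end Pool.Agent.W982.TA
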