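import Pool.Agent.W982.TA.Grid

/-!
# Min-max area triangulations: the check of tile 3
-/

set_option autoImplicit false

namespace Pool.Agent.W982.TA

theorem ckC3 : (tile 3).comps.all (compOK (tile 3).pat) = true := by decide +kernel

theorem ckL3_B_nand : claimOK (tile 3).pat (tile 3).comps clB_B_nand = true := by
  decide +kernel

theorem ckL3_J_t : claimOK (tile 3).pat (tile 3).comps clB_J_t = true := by
  decide +kernel

theorem ckL3_J_r : claimOK (tile 3).pat (tile 3).comps clB_J_r = true := by
  decide +kernel

theorem ckL3_K_r : claimOK (tile 3).pat (tile 3).comps clB_K_r = true := by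
  decide +kernel

theorem ckL3_K_b : claimOK (tile 3).pat (tile 3).comps clB_K_b = true := by
  decide +kernel

theorem ckL3 : (tile 3).claims.all (claimOK (tile 3).pat (tile 3).comps) = true := by
  rw [List.all_eq_true]
  intro c hc
  change c ∈ [clB_B_nand, clB_J_t, clB_J_r, clB_K_r, clB_K_b] at hc
  simp only [List.mem_cons, List.not_mem_nil, or_false] at hc
  rcases hc with rfl | rfl | rfl | rfl | rfl
  · exact ckL3_B_nand
  · exact ckL3_J_t
  · exact ckL3_J_r
  · exact ckL3_K_r
  · exact ckL3_K_b

theorem ckG3 : (tile 3).goals.all (goalUP (tile 3)) = true := by decide +kernel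

theorem ckA3 : ((tile 3).claims.all fun c => c.asm.all fun a =>
    decide (a.1 < (tile 3).comps.length)) = true := by decide +kernel

theorem ckT3 (hu : TaskU1) : tileOK (tile 3) = true := by
  have h : (tile 3).goals.all (goalOK (tile 3)) = true := by
    rw [List.all_eq_true]
    intro g hg
    exact hu _ g (List.all_eq_true.1 ckG3 g hg)
  unfold tileOK
  rw [ckC3, ckL3, h, ckA3]
  rfl

end Pool.Agent.W982.TA
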