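import Pool.Agent.W982.TA.Grid

/-!
# Min-max area triangulations: the check of tile 4
-/

set_option autoImplicit false

namespace Pool.Agent.W982.TA

theorem ckC4 : (tile 4).comps.all (compOK (tile 4).pat) = true := by decide +kernel

theorem ckL4_F_r : claimOK (tile 4).pat (tile 4).comps clBF_F_r = true := by
  decide +kernel

theorem ckL4_F_t : claimOK (tile 4).pat (tile 4).comps clBF_F_t = true := by
  decide +kernel

theorem ckL4 : (tile 4).claims.all (claimOK (tile 4).pat (tile 4).comps) = true := by
  rw [List.all_eq_true]
  intro c hc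
  change c ∈ [clBF_F_r, clBF_F_t] at hc
  simp only [List.mem_cons, List.not_mem_nil, or_false] at hc
  rcases hc with rfl | rfl
  · exact ckL4_F_r
  · exact ckL4_F_t

theorem ckG4 : (tile 4).goals.all (goalUP (tile 4)) = true := by decide +kernel

theorem ckA4 : ((tile 4).claims.all fun c => c.asm.all fun a =>
    decide (a.1 < (tile 4).comps.length)) = true := by decide +kernel

theorem ckT4 (hu : TaskU1) : tileOK (tile 4) = true := by
  have h : (tile 4).goals.all (goalOK (tile 4)) = true := by
    rw [List.all_eq_true]
    intro g hg
    exact hu _ g (List.all_eq_true.1 ckG4 g hg)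
  unfold tileOK
  rw [ckC4, ckL4, h, ckA4]
  rfl

end Pool.Agent.W982.TA
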