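import Pool.Agent.W982.TA.Grid

/-!
# Min-max area triangulations: the check of tile 5
-/

set_option autoImplicit false

namespace Pool.Agent.W982.TA

theorem ckC5 : (tile 5).comps.all (compOK (tile 5).pat) = true := by decide +kernel

theorem ckL5_BL_c : claimOK (tile 5).pat (tile 5).comps clBL_BL_c = true := by
  decide +kernel

theorem ckL5_J_t : claimOK (tile 5).pat (tile 5).comps clBL_J_t = true := by
  decide +kernel

theorem ckL5_J_r : claimOK (tile 5).pat (tile 5).comps clBL_J_r = true := by
  decide +kernel

theorem ckL5 : (tile 5).claims.all (claimOK (tile 5).pat (tile 5).comps) = true := by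
  rw [List.all_eq_true]
  intro c hc
  change c ∈ [clBL_BL_c, clBL_J_t, clBL_J_r] at hc
  simp only [List.mem_cons, List.not_mem_nil, or_false] at hc
  rcases hc with rfl | rfl | rfl
  · exact ckL5_BL_c
  · exact ckL5_J_t
  · exact ckL5_J_r

theorem ckG5 : (tile 5).goals.all (goalUP (tile 5)) = true := by decide +kernel

theorem ckA5 : ((tile 5).claims.all fun c => c.asm.all fun a =>
    decide (a.1 < (tile 5).comps.length)) = true := by decide +kernel

theorem ckT5 (hu : TaskU1) : tileOK (tile 5) = true := by
  have h : (tile 5).goals.all (goalOK (tile 5)) = true := by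
    rw [List.all_eq_true]
    intro g hg
    exact hu _ g (List.all_eq_true.1 ckG5 g hg)
  unfold tileOK
  rw [ckC5, ckL5, h, ckA5]
  rfl

end Pool.Agent.W982.TA
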