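import Pool.Agent.W982.TA.Grid

/-!
# Min-max area triangulations: the check of tile 6
-/

set_option autoImplicit false

namespace Pool.Agent.W982.TA

theorem ckC6 : (tile 6).comps.all (compOK (tile 6).pat) = true := by decide +kernel

theorem ckL6_T_r : claimOK (tile 6).pat (tile 6).comps clTF_T_r = true := by
  decide +kernel

theorem ckL6_T_b : claimOK (tile 6).pat (tile 6).comps clTF_T_b = true := by
  decide +kernel

theorem ckL6 : (tile 6).claims.all (claimOK (tile 6).pat (tile 6).comps) = true := by
  rw [List.all_eq_true]
  intro c hc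
  change c ∈ [clTF_T_r, clTF_T_b] at hc
  simp only [List.mem_cons, List.not_mem_nil, or_false] at hc
  rcases hc with rfl | rfl
  · exact ckL6_T_r
  · exact ckL6_T_b

theorem ckG6 : (tile 6).goals.all (goalUP (tile 6)) = true := by decide +kernel

theorem ckA6 : ((tile 6).claims.all fun c => c.asm.all fun a =>
    decide (a.1 < (tile 6).comps.length)) = true := by decide +kernel

theorem ckT6 (hu : TaskU1) : tileOK (tile 6) = true := by
  have h : (tile 6).goals.all (goalOK (tile 6)) = true := by
    rw [List.all_eq_true]
    intro g hg
    exact hu _ g (List.all_eq_true.1 ckG6 g hg)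
  unfold tileOK
  rw [ckC6, ckL6, h, ckA6]
  rfl

end Pool.Agent.W982.TA
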