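import Pool.Agent.W982.TA.Grid

/-!
# Min-max area triangulations: the check of tile 7
-/

set_option autoImplicit false

namespace Pool.Agent.W982.TA

theorem ckC7 : (tile 7).comps.all (compOK (tile 7).pat) = true := by decide +kernel

theorem ckL7_TL_c : claimOK (tile 7).pat (tile 7).comps clTL_TL_c = true := by
  decide +kernel

theorem ckL7_TL_r : claimOK (tile 7).pat (tile 7).comps clTL_TL_r = true := by
  decide +kernel

theorem ckL7 : (tile 7).claims.all (claimOK (tile 7).pat (tile 7).comps) = true := by
  rw [List.all_eq_true]
  intro c hc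
  change c ∈ [clTL_TL_c, clTL_TL_r] at hc
  simp only [List.mem_cons, List.not_mem_nil, or_false] at hc
  rcases hc with rfl | rfl
  · exact ckL7_TL_c
  · exact ckL7_TL_r

theorem ckG7 : (tile 7).goals.all (goalUP (tile 7)) = true := by decide +kernel

theorem ckA7 : ((tile 7).claims.all fun c => c.asm.all fun a =>
    decide (a.1 < (tile 7).comps.length)) = true := by decide +kernel

theorem ckT7 (hu : TaskU1) : tileOK (tile 7) = true := by
  have h : (tile 7).goals.all (goalOK (tile 7)) = true := by
    rw [List.all_eq_true]
    intro g hg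
    exact hu _ g (List.all_eq_true.1 ckG7 g hg)
  unfold tileOK
  rw [ckC7, ckL7, h, ckA7]
  rfl

end Pool.Agent.W982.TA
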