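import Pool.Agent.W982.TA.Fin
import Pool.Agent.W12.TA_S13All
import Pool.Agent.W762.TA_F1
import Pool.Agent.W120.TA_F2
import Pool.Agent.W654.TA_F3
import Pool.Agent.W585.TA_F4
import Pool.Agent.W239.TA_F5
import Pool.Agent.W975.TA_I1
import Pool.Agent.W577.TA_I2
import Pool.Agent.W584.TA_I3
import Pool.Agent.W303.TA_I4
import Pool.Agent.W509.TA_I5
import Pool.Agent.W168.TA_I6
import Pool.Agent.W511.TA_J1
import Pool.Agent.W880.TA_J2
import Pool.Agent.W503.TA_J3
import Pool.Agent.W724.TA_J4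
import Pool.Agent.W225.TA_U1
import Pool.Agent.W60.TA_R1
import Pool.Agent.W481.TA_Q1
import Pool.Agent.W999.TA_G1
import Pool.Agent.W804.TA_G2
import Pool.Agent.W120.TA_G3
import Pool.Agent.W366.TA_G4
import Pool.Agent.W584.TA_G5
import Pool.Agent.W585.TA_G6
import Pool.Agent.W284.TA_G7
import Pool.Agent.W403.TA_G8
import Pool.Agent.W347.TA_G9
import Pool.Agent.W685.TA_G10
import Pool.Agent.W881.TA_G11
import Pool.Agent.W554.TA_G12
import Pool.Agent.W418.TA_G13
import Pool.Agent.W428.TA_G16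
import Pool.Agent.W863.TA_G14
import Pool.Agent.W490.TA_G15
import Pool.Agent.W982.TA.CkT0
import Pool.Agent.W982.TA.CkT1
import Pool.Agent.W982.TA.CkT2
import Pool.Agent.W982.TA.CkT3
import Pool.Agent.W982.TA.CkT4
import Pool.Agent.W982.TA.CkT5
import Pool.Agent.W982.TA.CkT6
import Pool.Agent.W982.TA.CkT7
import Pool.Agent.W982.TA.CkF00
import Pool.Agent.W982.TA.CkF01
import Pool.Agent.W982.TA.CkF02
import Pool.Agent.W982.TA.CkF03
import Pool.Agent.W982.TA.CkF10
import Pool.Agent.W982.TA.CkF11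
import Pool.Agent.W982.TA.CkF12
import Pool.Agent.W982.TA.CkF13
import Pool.Agent.W982.TA.CkF20
import Pool.Agent.W982.TA.CkF21
import Pool.Agent.W982.TA.CkF30
import Pool.Agent.W982.TA.CkF31
import Pool.Agent.W982.TA.CkF40
import Pool.Agent.W982.TA.CkF50
import Pool.Agent.W982.TA.CkF60
import Pool.Agent.W982.TA.CkF70

/-!
# Min-max area triangulations: the computation is NP-hard
-/

set_option autoImplicit false

namespace Pool.Agent.W982.TA

open Pool.Agent.NPC

theorem patsOK : PatsOK := by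
  intro t ht
  interval_cases t <;> decide +kernel

theorem tilesOK : TilesOK := by
  intro t ht
  interval_cases t
  · exact ckT0 u1
  · exact ckT1 u1
  · exact ckT2 u1
  · exact ckT3 u1
  · exact ckT4 u1
  · exact ckT5 u1
  · exact ckT6 u1
  · exact ckT7 u1

theorem famsOK : FamsOK := by
  intro t ht s hs h2 h4
  interval_cases t
  · interval_cases s
    · exact ckF00
    · exact ckF01
    · exact ckF02
    · exact ckF03
  · interval_cases s
    · exact ckF10
    · exact ckF11
    · exact ckF12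
    · exact ckF13
  · have := h2 (by norm_num)
    interval_cases s
    · exact ckF20
    · exact ckF21
  · have := h2 (by norm_num)
    interval_cases s
    · exact ckF30
    · exact ckF31
  · rw [h4 (by norm_num)]; exact ckF40
  · rw [h4 (by norm_num)]; exact ckF50
  · rw [h4 (by norm_num)]; exact ckF60
  · rw [h4 (by norm_num)]; exact ckF70

theorem i6_all : TaskI6 := i6 f1 f2 (f4 f3) f5 i1 i4 i5

theorem j3_all : TaskJ3 := j3 (j1 s11 i1) (j2 s13_all i1)

theorem g14_all : TaskG14 := g14 g1 g3 (g9 g1 g6 g7 g8) g10 g11 g16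

theorem g15_all : TaskG15 := g15 g1 g2 g3 g4 g5 (g13 g12)

section
variable {α : Type} [TEnc α]

theorem poly_zq {x : α → ℤ} (hx : Poly x) : Poly (fun a => ((x a : ℤ) : ℚ)) := by
  have h : Poly (fun a => (x a, (1 : ℕ))) := NPC.Poly.pair hx (NPC.Poly.const 1)
  have h2 : Poly (fun a => (((x a : ℤ) : ℚ).num, ((x a : ℤ) : ℚ).den)) :=
    h.congr fun a => by simp
  exact h2

end

theorem r2 : Poly (fun φ : List Cl => (Qlist φ, (1 : ℚ))) := by
  have h : Poly Slist := NPC.Poly.fst r1
  have h2 : Poly (fun φ : List Cl => (Slist φ).map Q.qt) := by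
    refine NPC.Poly.map (F := fun _ p => Q.qt p) h ?_
    have e : Poly (fun x : List Cl × Pt => x.2) := NPC.Poly.snd NPC.Poly.id
    exact NPC.Poly.pair (poly_zq (NPC.Poly.fst e)) (poly_zq (NPC.Poly.snd e))
  exact NPC.Poly.pair h2 (NPC.Poly.const 1)

/-- the hardness theorem -/
theorem all : ∀ L : Set (List Bool), InNP L → ∃ f : List Bool → List (ℚ × ℚ),
    PolyTime (fun w => bits (f w, (1 : ℚ))) ∧ ∀ w,
      (f w).Nodup ∧
      (∀ p ∈ f w, ∃ a b : ℕ, a < (f w).length ∧ b < (f w).length ∧ p = ((a : ℚ), (b : ℚ))) ∧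
      ¬ Collinear ℝ {x | ∃ p ∈ f w, x = Q.pt p} ∧
      (w ∈ L ↔ Q.MinMaxArea (f w).toFinset 1) :=
  hard g14_all g15_all (i2 i1) (i3 (i2 i1)) i6_all j3_all j4 Q.q1 patsOK tilesOK famsOK r2

end Pool.Agent.W982.TA
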