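import Pool.Agent.W982.TA.Defs

/-!
# Min-max area triangulations: the local checker
-/

set_option autoImplicit false

namespace Pool.Agent.W982.TA

/-- the primitive vectors of norm at most 4 up to sign, sorted by angle, and `(-1, 0)` -/
def dirs : List Pt :=
  [(1, 0), (4, 1), (3, 1), (2, 1), (3, 2), (4, 3), (1, 1), (3, 4), (2, 3), (1, 2), (1, 3), (1, 4),
    (0, 1), (-1, 4), (-1, 3), (-1, 2), (-2, 3), (-3, 4), (-1, 1), (-4, 3), (-3, 2), (-2, 1),
    (-3, 1), (-4, 1), (-1, 0)]

/-- the direction number `k` -/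
def dv (k : ℕ) : Pt := dirs.getD k (0, 0)

/-- the vector `v` has type `k`: for `k < 24` it is the direction `k`; for `24 ≤ k < 48` it lies
in the open cone spanned by the directions `k - 24` and `k - 23` -/
def HasT (k : ℕ) (v : Pt) : Prop :=
  if k < 24 then v = dv k else ∃ i j : ℤ, 1 ≤ i ∧ 1 ≤ j ∧
    v = (i * (dv (k - 24)).1 + j * (dv (k - 23)).1, i * (dv (k - 24)).2 + j * (dv (k - 23)).2)

/-- normal vectors: in the upper half plane or on the positive axis -/
def Norm (v : Pt) : Prop := 0 < v.2 ∨ (v.2 = 0 ∧ 0 < v.1)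

/-- determinant -/
def dtv (u v : Pt) : ℤ := u.1 * v.2 - u.2 * v.1

/-- `s + i p + j q > 0` for all `i, j ≥ 1` -/
def allpos (s p q : ℤ) : Bool := decide (0 ≤ p) && decide (0 ≤ q) && decide (0 < s + p + q)

/-- `s + i p + j q < 0` for all `i, j ≥ 1` -/
def allneg (s p q : ℤ) : Bool := allpos (-s) (-p) (-q)

/-- crossing of two segments given by midpoint and half vector -/
def crossSS (c v d w : Pt) : Bool :=
  let a : Pt := (c.1 - v.1, c.2 - v.2)
  let b : Pt := (c.1 + v.1, c.2 + v.2)
  let a' : Pt := (d.1 - w.1, d.2 - w.2)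
  let b' : Pt := (d.1 + w.1, d.2 + w.2)
  decide (dt a b a' * dt a b b' < 0) && decide (dt a' b' a * dt a' b' b < 0)

/-- crossing of the segments with midpoint `(0,0)` and half vectors in the open cone of `u, w`
with the segment with midpoint `d` and half vector `v` -/
def crossCS (u w d v : Pt) : Bool :=
  let pu := dtv u (d.1 + v.1, d.2 + v.2)
  let pw := dtv w (d.1 + v.1, d.2 + v.2)
  let mu := dtv u (d.1 - v.1, d.2 - v.2)
  let mw := dtv w (d.1 - v.1, d.2 - v.2)
  let l0 := -dtv v d
  let lu := dtv v u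
  let lw := dtv v w
  ((allpos 0 pu pw && allneg 0 mu mw) || (allneg 0 pu pw && allpos 0 mu mw)) &&
    ((allneg l0 lu lw && allpos l0 (-lu) (-lw)) || (allpos l0 lu lw && allneg l0 (-lu) (-lw)))

/-- the half condition for two cones: for all `x` in the open cone of `u', w'` one has
`f x (-d) > 0` and `f x (z - d) < 0` for all `z` in the open cone of `u, w`, where
`f x y = s * dtv x y` -/
def halfCC (s : ℤ) (u' w' d u w : Pt) : Bool :=
  let a1 := -(s * dtv u' d)
  let a2 := -(s * dtv w' d)
  let p1 := s * dtv u' u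
  let q1 := s * dtv u' w
  let p2 := s * dtv w' u
  let q2 := s * dtv w' w
  decide (0 ≤ a1) && decide (0 ≤ a2) && decide (0 < a1 + a2) &&
    decide (p1 ≤ 0) && decide (q1 ≤ 0) && decide (p2 ≤ 0) && decide (q2 ≤ 0) &&
    decide (a1 + p1 + q1 ≤ 0) && decide (a2 + p2 + q2 ≤ 0) &&
    decide (a1 + p1 + q1 + (a2 + p2 + q2) < 0)

/-- negation -/
def ng (v : Pt) : Pt := (-v.1, -v.2)

/-- crossing of all segments with midpoint `(0,0)` and half vectors in the open cone of `u, w`
with all segments with midpoint `d` and half vectors in the open cone of `u', w'` -/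
def crossCC (u w d u' w' : Pt) : Bool :=
  let A := fun (s t : ℤ) (z1 z2 : Pt) (y1 y2 : Pt) =>
    halfCC s u' w' d z1 z2 && halfCC t u w (ng d) y1 y2
  let B := fun (z1 z2 y1 y2 : Pt) =>
    A 1 1 z1 z2 y1 y2 || A 1 (-1) z1 z2 y1 y2 || A (-1) 1 z1 z2 y1 y2 || A (-1) (-1) z1 z2 y1 y2
  B u w u' w' || B u w (ng u') (ng w') || B (ng u) (ng w) u' w' || B (ng u) (ng w) (ng u') (ng w')

/-- all segments of type `k` at `c` cross all segments of type `l` at `d` -/
def confl (c : Pt) (k : ℕ) (d : Pt) (l : ℕ) : Bool :=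
  let r : Pt := (d.1 - c.1, d.2 - c.2)
  if k < 24 then
    if l < 24 then crossSS c (dv k) d (dv l)
    else crossCS (dv (l - 24)) (dv (l - 23)) (ng r) (dv k)
  else
    if l < 24 then crossCS (dv (k - 24)) (dv (k - 23)) r (dv l)
    else crossCC (dv (k - 24)) (dv (k - 23)) r (dv (l - 24)) (dv (l - 23))

/-- equality of unordered pairs -/
def eqSeg (a b c d : Pt) : Bool := (decide (a = c) && decide (b = d)) || (decide (a = d) && decide (b = c))

/-- the three segments with midpoints `c, d, f` and half vectors `u, v, w` are the sides of a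
triangle of doubled area 4 -/
def triOK (c u d v f w : Pt) : Bool :=
  let T := fun (b c' a : Pt) =>
    eqSeg (d.1 - v.1, d.2 - v.2) (d.1 + v.1, d.2 + v.2) a c' &&
      eqSeg (f.1 - w.1, f.2 - w.2) (f.1 + w.1, f.2 + w.2) a b &&
      (decide (dt a b c' = 4) || decide (dt a b c' = -4))
  let p : Pt := (c.1 - u.1, c.2 - u.2)
  let q : Pt := (c.1 + u.1, c.2 + u.2)
  let a : Pt := (d.1 - v.1, d.2 - v.2)
  let a' : Pt := (d.1 + v.1, d.2 + v.2)
  T p q a || T p q a' || T q p a || T q p a'

/-- refutations -/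
inductive Cert : Type
  | rm (i j m : ℕ) (c : Cert) : Cert
  | tri (i k j l m n : ℕ) (c : Cert) : Cert
  | split (i m : ℕ) (c₁ c₂ : Cert) : Cert
  | stop (i : ℕ) : Cert

/-- every type in the mask `m` conflicts with every type in the mask `D` -/
def rmOK (c d : Pt) (m D : ℕ) : Bool :=
  (List.range 48).all fun k => !m.testBit k ||
    (List.range 48).all fun l => !D.testBit l || confl c k d l

/-- the checker: `cs` are the cells, `D` the domains -/
def check (cs : List Pt) : List ℕ → Cert → Bool
  | D, Cert.rm i j m c =>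
    rmOK (cs.getD i (0, 0)) (cs.getD j (0, 0)) m (D.getD j 0) && decide (i < D.length) &&
      decide (j < D.length) && check cs (D.set i (Nat.ldiff (D.getD i 0) m)) c
  | D, Cert.tri i k j l m n c =>
    decide (k < 24) && decide (l < 24) && decide (n < 24) && decide (i < D.length) &&
      decide (j < D.length) && decide (m < D.length) &&
      decide (D.getD j 0 = 2 ^ l) && decide (D.getD m 0 = 2 ^ n) &&
      triOK (cs.getD i (0, 0)) (dv k) (cs.getD j (0, 0)) (dv l) (cs.getD m (0, 0)) (dv n) &&
      check cs (D.set i (Nat.ldiff (D.getD i 0) (2 ^ k))) c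
  | D, Cert.split i m c₁ c₂ =>
    decide (i < D.length) && check cs (D.set i (Nat.land (D.getD i 0) m)) c₁ &&
      check cs (D.set i (Nat.ldiff (D.getD i 0) m)) c₂
  | D, Cert.stop i => decide (i < D.length) && decide (D.getD i 0 = 0)

/-- missing cells of a pattern given by rows of bits -/
def missP (P : List ℕ) (p : Pt) : Bool :=
  decide (0 ≤ p.1) && decide (0 ≤ p.2) && (P.getD p.2.toNat 0).testBit p.1.toNat

/-- the sign of a type: 1 positive, 2 negative, 0 none -/
def sgT (k : ℕ) : ℕ :=
  if k = 0 ∨ k = 12 then 0 else if k < 12 then 1 else if k < 24 then 2 else if k < 36 then 1 else 2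

/-- least absolute values of the coordinates of the vectors of type `k` -/
def minA (k : ℕ) : ℕ :=
  if k < 24 then (dv k).1.natAbs else ((dv (k - 24)).1 + (dv (k - 23)).1).natAbs

/-- least absolute values of the coordinates of the vectors of type `k` -/
def minB (k : ℕ) : ℕ :=
  if k < 24 then (dv k).2.natAbs else ((dv (k - 24)).2 + (dv (k - 23)).2).natAbs

/-- type `k` is possible at the cell `(x, y)` with sign requirement `s` (0 none, 1 positive,
2 negative), boundary mode `bd` (0 none, 1 lower left corner, 2 upper left corner of a tile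
of height 62) in the pattern `P` -/
def allow (P : List ℕ) (bd x y s k : ℕ) : Bool :=
  (if k < 24 then !missP P ((x : ℤ) + (dv k).1, (y : ℤ) + (dv k).2) &&
      !missP P ((x : ℤ) - (dv k).1, (y : ℤ) - (dv k).2) else true) &&
    (decide (s = 0) || decide (sgT k = s)) &&
    (if bd = 1 then decide (minA k ≤ x) && decide (minB k ≤ y) else true) &&
    (if bd = 2 then decide (minA k ≤ x) && decide (minB k ≤ 61 - y) else true)

/-- the initial domain of a cell -/
def dom0 (P : List ℕ) (bd : ℕ) (c : ℕ × ℕ × ℕ) : ℕ :=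
  (List.range 48).foldl (fun acc k => if allow P bd c.1 c.2.1 c.2.2 k then acc + 2 ^ k else acc) 0

/-- the full check: `cells` are the active cells with sign requirements -/
def certOK (P : List ℕ) (bd : ℕ) (cells : List (ℕ × ℕ × ℕ)) (c : Cert) : Bool :=
  (cells.all fun q => missP P ((q.1 : ℤ), (q.2.1 : ℤ)) && decide (q.2.1 < 62)) &&
    check (cells.map fun q => ((q.1 : ℤ), (q.2.1 : ℤ))) (cells.map (dom0 P bd)) c

/-- the product of the coordinates of the half vector: its sign is the signal -/
def sg (e : Pt → Pt) (q : Pt) : ℤ := (e q).1 * (e q).2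

/-- the pattern `P` at the origin `o` is contained in `M` -/
def HasP (P : List ℕ) (o : Pt) (M : Finset Pt) : Prop :=
  ∀ x y : ℕ, missP P ((x : ℤ), (y : ℤ)) = true → (o.1 + x, o.2 + y) ∈ M

/-- boundary mode -/
def BdOK (bd : ℕ) (o : Pt) (Y : ℤ) : Prop :=
  (bd = 1 → o = (0, 0)) ∧ (bd = 2 → o.1 = 0 ∧ o.2 + 61 = Y)

/-- the sign requirement of a cell -/
def SgOK (e : Pt → Pt) (o : Pt) (c : ℕ × ℕ × ℕ) : Prop :=
  (c.2.2 = 1 → 0 < sg e (o.1 + c.1, o.2 + c.2.1)) ∧ (c.2.2 = 2 → sg e (o.1 + c.1, o.2 + c.2.1) < 0)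

/-- a cell with a horizontal and a vertical missing neighbour -/
def blocky (P : List ℕ) (p : Pt) : Bool :=
  missP P p && (missP P (p.1 + 1, p.2) || missP P (p.1 - 1, p.2)) &&
    (missP P (p.1, p.2 + 1) || missP P (p.1, p.2 - 1))

/-- adjacency of cells -/
def adjC (p q : Pt) : Bool :=
  (decide (p.1 = q.1) && (decide (p.2 = q.2 + 1) || decide (q.2 = p.2 + 1))) ||
    (decide (p.2 = q.2) && (decide (p.1 = q.1 + 1) || decide (q.1 = p.1 + 1)))

/-- a list of blocky cells, every cell but the last one adjacent to a later cell -/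
def compOK (P : List ℕ) : List (ℕ × ℕ) → Bool
  | [] => true
  | [p] => blocky P ((p.1 : ℤ), (p.2 : ℤ))
  | p :: q :: l => blocky P ((p.1 : ℤ), (p.2 : ℤ)) &&
      (q :: l).any (fun r => adjC ((p.1 : ℤ), (p.2 : ℤ)) ((r.1 : ℤ), (r.2 : ℤ))) &&
      compOK P (q :: l)

/-- a claim: signs of components (number, positive?) that are impossible together, with the
boundary mode, the active cells and the certificate -/
structure Claim where
  asm : List (ℕ × Bool)
  bd : ℕ
  cells : List (ℕ × ℕ × ℕ)
  cert : Cert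

/-- the cells with sign requirement of a claim belong to the components of the claim with the
right sign, and the certificate is correct -/
def claimOK (P : List ℕ) (comps : List (List (ℕ × ℕ))) (c : Claim) : Bool :=
  (c.cells.all fun q => decide (q.2.2 = 0) || c.asm.any fun a =>
    decide (q.2.2 = if a.2 then 1 else 2) && (comps.getD a.1 []).contains (q.1, q.2.1)) &&
    certOK P c.bd c.cells c.cert

end Pool.Agent.W982.TA
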