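import Pool.Agent.W982.TA.Fam

/-!
# Min-max area triangulations: the data of the tiles
-/

set_option autoImplicit false

namespace Pool.Agent.W982.TA

/-- pattern of the tile C -/
def patC : List ℕ :=
  [98304, 98304, 98304, 98304,
    98304, 98304, 98304, 98304,
    196608, 196608, 393216, 393216,
    786432, 786432, 786432, 786432,
    786432, 13402112, 393216, 393216,
    393216, 1060569088, 8573190144, 18446744072651591679,
    18446744065134362623, 12288, 4591616, 5144576,
    12984320, 12984320, 12681216, 46235648,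
    12681216, 12681216, 12681216, 12681216,
    12681216, 25264128, 25264128, 50429952,
    50429952, 18446735277717292031, 18446741874787208191, 8246538775552,
    2061785996288, 515597430784, 129050574848, 33823811584,
    8053944320, 536145920, 535846912, 24576,
    24576, 24576, 24576, 49152,
    49152, 98304, 98304, 98304,
    98304, 98304]

/-- components of the tile C -/
def compsC : List (List (ℕ × ℕ)) :=
  [[(15, 23), (14, 23), (15, 24), (13, 25), (14, 24), (12, 25), (13, 24), (12, 24), (11, 24), (10, 24),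
     (11, 23), (9, 24), (10, 23), (8, 24), (9, 23), (7, 24), (8, 23), (6, 24), (7, 23), (5, 24),
     (6, 23), (4, 24), (5, 23), (3, 24), (4, 23), (2, 24), (3, 23), (1, 24), (2, 23), (0, 24),
     (1, 23), (0, 23)],
    [(23, 24), (22, 24), (23, 23), (21, 24), (22, 23), (21, 23)],
    [(27, 46), (26, 46), (27, 45), (26, 45), (27, 44), (26, 44), (27, 43), (26, 43), (26, 42), (25, 42),
     (26, 41), (25, 41), (25, 40), (24, 40), (25, 39), (24, 39), (24, 38), (23, 38), (24, 37), (23, 37),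
     (23, 36), (22, 36), (23, 35), (22, 35), (23, 34), (22, 34), (23, 33), (22, 33), (23, 32), (22, 32),
     (23, 31), (22, 31), (23, 30), (22, 30), (23, 29), (22, 29), (23, 28), (22, 28)],
    [(17, 21), (18, 21), (17, 20), (18, 20), (17, 19), (18, 19), (17, 18), (18, 18), (19, 17), (18, 17),
     (19, 16), (18, 16), (19, 15), (18, 15), (19, 14), (18, 14), (19, 13), (18, 13), (19, 12), (18, 12),
     (18, 11), (17, 11), (18, 10), (17, 10), (17, 9), (16, 9), (17, 8), (16, 8), (16, 7), (15, 7),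
     (16, 6), (15, 6), (16, 5), (15, 5), (16, 4), (15, 4), (16, 3), (15, 3), (16, 2), (15, 2),
     (16, 1), (15, 1), (16, 0), (15, 0)],
    [(18, 29), (17, 29), (18, 28), (17, 28), (18, 27), (17, 27), (18, 26), (17, 26)],
    [(63, 24), (62, 24), (63, 23), (61, 24), (62, 23), (60, 24), (61, 23), (59, 24), (60, 23), (58, 24),
     (59, 23), (57, 24), (58, 23), (56, 24), (57, 23), (55, 24), (56, 23), (54, 24), (55, 23), (53, 24),
     (54, 23), (52, 24), (53, 23), (51, 24), (52, 23), (50, 24), (51, 23), (49, 24), (50, 23), (48, 24),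
     (49, 23), (47, 24), (48, 23), (46, 24), (47, 23), (45, 24), (46, 23), (44, 24), (45, 23), (43, 24),
     (44, 23), (42, 24), (43, 23), (41, 24), (42, 23), (40, 24), (41, 23), (39, 24), (40, 23), (38, 24),
     (39, 23), (37, 24), (38, 23), (36, 24), (37, 23), (35, 24), (36, 23), (34, 24), (35, 23), (33, 24),
     (34, 23), (33, 23), (32, 23), (31, 23), (32, 22), (30, 23), (31, 22), (30, 22), (29, 22), (28, 22),
     (29, 21), (27, 22), (28, 21), (26, 22), (27, 21), (25, 22), (26, 21), (24, 22), (25, 21), (24, 21)],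
    [(16, 44), (17, 43), (15, 44), (16, 43), (17, 42), (15, 43), (16, 42), (15, 42), (16, 41), (15, 41),
     (16, 40), (15, 40), (16, 39), (15, 39), (16, 38), (15, 38), (16, 37), (15, 37), (16, 36), (15, 36),
     (16, 35), (15, 35), (16, 34), (15, 34), (16, 33), (15, 33), (16, 32), (15, 32), (16, 31), (15, 31),
     (16, 30), (15, 30)],
    [(12, 45), (12, 44), (11, 44), (10, 44), (11, 43), (10, 43)],
    [(19, 48), (18, 48), (19, 47), (18, 47), (17, 47), (17, 46)],
    [(16, 61), (15, 61), (16, 60), (15, 60), (16, 59), (15, 59), (16, 58), (15, 58), (16, 57), (15, 57),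
     (15, 56), (14, 56), (15, 55), (14, 55), (14, 54), (13, 54), (14, 53), (13, 53), (14, 52), (13, 52),
     (14, 51), (13, 51), (14, 50), (13, 50), (14, 47), (14, 49), (13, 47), (13, 49), (14, 48), (12, 49),
     (13, 48), (12, 48)],
    [(9, 42), (8, 42), (9, 41), (7, 42), (8, 41), (6, 42), (7, 41), (5, 42), (6, 41), (4, 42),
     (5, 41), (3, 42), (4, 41), (2, 42), (3, 41), (1, 42), (2, 41), (0, 42), (1, 41), (0, 41)],
    [(28, 50), (27, 50), (28, 49), (26, 50), (27, 49), (25, 50), (26, 49), (24, 50), (25, 49), (23, 50),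
     (24, 49), (22, 50), (23, 49), (21, 50), (22, 49), (20, 50), (21, 49), (20, 49)],
    [(63, 41), (62, 41), (63, 42), (61, 41), (62, 42), (60, 41), (61, 42), (59, 41), (60, 42), (58, 41),
     (59, 42), (57, 41), (58, 42), (56, 41), (57, 42), (55, 41), (56, 42), (54, 41), (55, 42), (53, 41),
     (54, 42), (52, 41), (53, 42), (51, 41), (52, 42), (50, 41), (51, 42), (49, 41), (50, 42), (48, 41),
     (49, 42), (47, 41), (48, 42), (46, 41), (47, 42), (45, 41), (46, 42), (44, 41), (45, 42), (43, 41),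
     (44, 42), (43, 42), (42, 42), (41, 42), (42, 43), (41, 43), (40, 43), (39, 43), (40, 44), (39, 44),
     (38, 44), (37, 44), (38, 45), (37, 45), (36, 45), (35, 45), (36, 46), (35, 46), (34, 46), (33, 46),
     (34, 47), (32, 48), (33, 47), (31, 48), (32, 47), (30, 48), (31, 47), (29, 48), (30, 47), (29, 47)]]

/-- claim F_rl of the tile C -/
def clC_F_rl : Claim :=
  ⟨[(0, false), (1, true), (2, false)], 0,
    [(17, 20, 0), (17, 21, 0), (18, 21, 0), (15, 22, 0), (15, 23, 2), (20, 23, 0), (21, 24, 1), (22, 26, 0), (23, 29, 2)],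
    (.rm 3 4 68702703486 (.rm 5 4 520093696 (.rm 6 4 301989888 (.rm 7 4 268435456 (.rm 5 6
    281406265376768 (.rm 7 6 4329327108096 (.rm 6 5 134217728 (.rm 5 8 2147483648 (.rm 6 8
    24696061952 (.rm 7 8 68182605984 (.rm 5 6 1073741824 (.rm 2 5 1073741824 (.rm 5 7 4294967296
    (.rm 6 7 42949672960 (.rm 5 6 60129549312 (.rm 4 5 246290604621824 (.rm 3 4 140737488355328
    (.rm 0 2 1073741824 (.split 5 2 (.rm 0 5 548413639808 (.rm 1 5 3848290828288 (.rm 2 5
    64424511744 (.rm 4 5 30786326102016 (.rm 0 2 512 (.rm 0 1 3848290697216 (.rm 0 4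
    277076946452480 (.rm 3 4 1 (.rm 0 3 251658264 (.stop 0)))))))))) (.rm 6 5 83886094 (.rm 7 6
    277076933607424 (.split 5 32 (.rm 0 5 281472845483648 (.rm 4 5 30786326102016 (.rm 3 4 1 (.rm
    0 3 1056964632 (.stop 0))))) (.rm 6 5 16 (.rm 7 6 117440518 (.split 5 512 (.rm 6 5 536870912
    (.rm 7 6 134217753 (.tri 7 6 5 9 6 8 (.stop 7)))) (.rm 3 5 412316884992 (.rm 4 5
    35115653144576 (.rm 4 3 16384 (.stop 4)))))))))))))))))))))))))))))⟩

/-- claim F_tb of the tile C -/
def clC_F_tb : Claim :=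
  ⟨[(2, false), (3, false), (4, true)], 0,
    [(16, 21, 0), (17, 21, 2), (14, 23, 0), (14, 24, 0), (15, 24, 0), (17, 26, 1), (19, 27, 0), (22, 28, 2)],
    (.rm 0 1 68702701566 (.rm 1 5 2130303778816 (.rm 0 1 68719484928 (.rm 4 7 268435456 (.rm 5 7
    436207616 (.rm 6 7 1056964608 (.rm 3 5 134217728 (.rm 2 6 268435456 (.rm 3 6 268435456 (.rm 4
    6 671088640 (.rm 5 6 620757028 (.rm 1 5 2199023386624 (.rm 2 5 788529174 (.rm 3 5
    277077598142464 (.rm 4 5 117440524 (.rm 2 4 8 (.rm 3 4 8 (.rm 0 1 4096 (.rm 3 1 4329327050752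
    (.rm 2 0 16106129152 (.rm 3 0 60129544192 (.rm 3 2 7516193600 (.stop 3)))))))))))))))))))))))⟩

/-- claim F_Rr of the tile C -/
def clC_F_Rr : Claim :=
  ⟨[(1, false), (5, true)], 0,
    [(24, 22, 1), (23, 23, 2)],
    (.rm 0 1 68702703608 (.stop 0))⟩

/-- claim F_tt of the tile C -/
def clC_F_tt : Claim :=
  ⟨[(4, false), (6, true)], 0,
    [(17, 29, 2), (16, 30, 1)],
    (.rm 1 0 68702702570 (.stop 1))⟩

/-- claim X_k of the tile C -/
def clC_X_k : Claim :=
  ⟨[(7, false), (8, true)], 0,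
    [(13, 43, 0), (15, 43, 0), (16, 43, 0), (10, 44, 2), (11, 44, 2), (12, 44, 2), (12, 45, 2), (16, 46, 0), (11, 47, 0), (14, 47, 0), (17, 47, 1), (13, 48, 0), (15, 49, 0)],
    (.rm 2 10 1030792159232 (.rm 8 10 70368744177664 (.rm 9 10 280925230333952 (.rm 11 10
    280375465607168 (.rm 12 10 140600050057216 (.rm 0 5 68702700752 (.rm 7 5 1308622848 (.rm 10 5
    805306368 (.rm 11 5 67645734912 (.rm 10 7 201326592 (.rm 2 9 3298534883328 (.rm 8 9
    175921860444160 (.rm 11 9 549762170880 (.rm 7 6 16777216 (.rm 10 6 33554432 (.rm 11 6 256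
    (.rm 10 7 16777222 (.rm 1 10 277076930723840 (.rm 2 10 277076937113600 (.rm 4 10
    70368744177664 (.rm 5 10 246290604621824 (.rm 6 10 272678883688448 (.rm 8 10 8796093022208
    (.rm 11 10 33554432 (.rm 12 10 140737538686976 (.rm 3 5 140737488355328 (.rm 4 5
    140737488355328 (.rm 0 2 280925221421056 (.rm 1 2 4329327230976 (.rm 3 2 70368744177664 (.rm
    4 2 65970697666560 (.rm 5 2 34084860461056 (.rm 6 2 7696581394432 (.rm 8 2 1099511627776 (.rm
    9 2 412316860416 (.rm 11 9 274877906944 (.rm 3 0 35184372088832 (.rm 5 0 549755879424 (.rm 6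
    0 549755813888 (.rm 8 0 549755813888 (.rm 3 1 17592186044416 (.rm 8 1 6597069766656 (.rm 9 1
    68719476736 (.rm 11 1 137438953472 (.rm 8 9 4194304 (.rm 11 9 68719517696 (.rm 0 11
    481036337152 (.rm 4 11 206158438400 (.rm 5 11 481036345344 (.rm 6 11 481036361728 (.rm 8 11
    18073224949760 (.rm 12 11 68719480832 (.rm 0 6 24576 (.split 0 1 (.rm 5 0 32768 (.rm 7 0
    2147483776 (.rm 10 0 1073741824 (.rm 4 5 4123168849920 (.rm 10 7 2147483776 (.rm 12 10
    67108866 (.rm 8 12 117440514 (.rm 11 12 16777222 (.rm 8 11 1 (.rm 3 8 17523476750336 (.tri 4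
    22 0 0 3 21 (.tri 5 21 0 0 4 18 (.stop 5))))))))))))) (.rm 5 0 2097152 (.rm 6 5 2097152 (.tri
    6 18 0 12 5 15 (.stop 6))))))))))))))))))))))))))))))))))))))))))))))))))))))))))⟩

/-- claim X_tb of the tile C -/
def clC_X_tb : Claim :=
  ⟨[(6, false), (7, false), (9, true)], 0,
    [(15, 44, 2), (12, 45, 2), (13, 45, 0), (14, 45, 0), (17, 46, 0), (11, 47, 0), (18, 47, 0), (13, 48, 1), (14, 48, 1), (18, 48, 0)],
    (.rm 2 0 34342961280 (.rm 3 0 68702700672 (.rm 4 0 34326183952 (.rm 6 0 134217728 (.rm 8 0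
    67645736960 (.rm 9 0 8321499136 (.rm 0 8 4329327034368 (.rm 2 8 34359738368 (.rm 3 8
    4329327165440 (.rm 2 0 4329327071232 (.rm 3 0 4096 (.rm 4 0 34359738368 (.rm 7 0 60129542144
    (.rm 9 0 25769803776 (.rm 4 2 16777216 (.rm 6 2 33554432 (.rm 6 4 83886082 (.rm 9 4
    34493959424 (.rm 5 3 4329327239168 (.rm 7 3 7516193024 (.rm 8 3 805306400 (.rm 0 7
    13194139533312 (.rm 2 7 13194139533312 (.rm 3 7 30786326102016 (.rm 5 7 277144582492160 (.rm
    8 7 512 (.rm 0 3 17592187092992 (.rm 2 3 17592186306560 (.rm 1 0 262144 (.rm 7 1 805306400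
    (.rm 8 1 134217728 (.rm 5 2 939524128 (.rm 7 2 134217728 (.rm 7 5 16 (.rm 8 7 16 (.rm 9 6
    117440512 (.rm 5 9 33554432 (.rm 7 9 50331648 (.rm 8 9 117440512 (.rm 5 8 16777218 (.rm 7 8 2
    (.split 5 1 (.rm 7 5 67108864 (.tri 8 3 5 0 7 2 (.stop 8))) (.rm 1 5 211106232532992 (.rm 2 5
    246290604621824 (.rm 2 1 8388608 (.stop 2))))))))))))))))))))))))))))))))))))))))))))))⟩

/-- claim X_Kl of the tile C -/
def clC_X_Kl : Claim :=
  ⟨[(7, true), (10, false)], 0,
    [(9, 42, 2), (10, 43, 1)],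
    (.rm 0 1 281406274002944 (.stop 0))⟩

/-- claim X_Kr of the tile C -/
def clC_X_Kr : Claim :=
  ⟨[(8, false), (11, true)], 0,
    [(19, 48, 2), (20, 49, 1)],
    (.rm 0 1 281406265352192 (.stop 0))⟩

/-- claim K_r of the tile C -/
def clC_K_r : Claim :=
  ⟨[(11, false), (12, true)], 0,
    [(29, 48, 1), (28, 49, 2)],
    (.rm 0 1 68702703214 (.stop 0))⟩

/-- claim K_b of the tile C -/
def clC_K_b : Claim :=
  ⟨[(2, true), (11, false)], 0,
    [(27, 46, 1), (30, 47, 0), (30, 48, 0), (28, 49, 2)],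
    (.rm 1 0 263882790666240 (.rm 2 0 30786326102016 (.rm 3 0 4329327255552 (.rm 0 3 60129542144
    (.rm 2 3 4398029991694 (.rm 1 0 2097152 (.rm 2 1 246290604621824 (.stop 2))))))))⟩

/-- goals of the tile C -/
def goalsC : List (List (ℕ × (ℕ × ℕ) × Bool)) :=
  [[(10, (0, 41), false), (12, (63, 41), true)],
    [(10, (0, 41), false), (5, (63, 23), true), (0, (0, 23), false)],
    [(10, (0, 41), false), (9, (15, 61), true), (3, (15, 0), false)]]

/-- data of the tile C -/
def tileC : TileData :=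
  ⟨patC, compsC, [clC_F_rl, clC_F_tb, clC_F_Rr, clC_F_tt, clC_X_k, clC_X_tb, clC_X_Kl, clC_X_Kr, clC_K_r, clC_K_b], goalsC⟩

/-- pattern of the tile O -/
def patO : List ℕ :=
  [98304, 98304, 98304, 98304,
    98304, 98304, 98304, 98304,
    98304, 98304, 98304, 98304,
    49152, 49152, 49152, 49152,
    10534912, 4243456, 98304, 98304,
    0, 1069559808, 8586620928, 18446744072639156223,
    18446744065122963455, 98560, 3244544, 3244032,
    12681216, 12681216, 12681216, 12681216,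
    12681216, 12681216, 12681216, 12681216,
    12681216, 25264128, 25264128, 50429952,
    50429952, 18446735277717292031, 18446741874787208191, 8246538775552,
    2061785996288, 515597430784, 129050574848, 33823811584,
    8053944320, 536145920, 535846912, 24576,
    24576, 24576, 24576, 49152,
    49152, 98304, 98304, 98304,
    98304, 98304]

/-- components of the tile O -/
def compsO : List (List (ℕ × ℕ)) :=
  [[(13, 22), (12, 22), (13, 21), (12, 21)],
    [(21, 24), (20, 24), (21, 23), (20, 23)],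
    [(21, 27), (20, 27), (21, 26), (20, 26)],
    [(16, 0), (15, 0), (16, 1), (15, 1), (16, 2), (15, 2), (16, 3), (15, 3), (16, 4), (15, 4),
     (16, 5), (16, 19), (15, 5), (16, 6), (15, 19), (16, 18), (15, 6), (16, 7), (15, 18), (15, 7),
     (16, 8), (15, 17), (14, 17), (15, 8), (16, 9), (15, 16), (14, 16), (15, 9), (16, 10), (15, 15),
     (14, 15), (15, 10), (16, 11), (15, 14), (14, 14), (15, 11), (15, 13), (14, 13), (15, 12), (14, 12)],
    [(16, 44), (17, 43), (15, 44), (16, 43), (17, 42), (15, 43), (16, 42), (15, 42), (16, 41), (15, 41),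
     (16, 40), (15, 40), (16, 39), (15, 39), (16, 38), (15, 38), (16, 37), (15, 37), (16, 36), (15, 36),
     (16, 35), (15, 35), (16, 34), (15, 34), (16, 33), (15, 33), (16, 32), (15, 32), (16, 31), (15, 31),
     (16, 30), (15, 30), (16, 29), (15, 29), (17, 23), (16, 28), (15, 28), (16, 23), (17, 24), (16, 27),
     (15, 27), (16, 24), (16, 26), (15, 26), (16, 25), (15, 25)],
    [(63, 24), (62, 24), (63, 23), (61, 24), (62, 23), (60, 24), (61, 23), (59, 24), (60, 23), (58, 24),
     (59, 23), (57, 24), (58, 23), (56, 24), (57, 23), (55, 24), (56, 23), (54, 24), (55, 23), (53, 24),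
     (54, 23), (52, 24), (53, 23), (51, 24), (52, 23), (50, 24), (51, 23), (49, 24), (50, 23), (48, 24),
     (49, 23), (47, 24), (48, 23), (46, 24), (47, 23), (45, 24), (46, 23), (44, 24), (45, 23), (43, 24),
     (44, 23), (42, 24), (43, 23), (41, 24), (42, 23), (40, 24), (41, 23), (39, 24), (40, 23), (38, 24),
     (39, 23), (37, 24), (38, 23), (36, 24), (37, 23), (35, 24), (36, 23), (34, 24), (35, 23), (33, 24),
     (34, 23), (33, 23), (32, 23), (31, 23), (32, 22), (30, 23), (31, 22), (30, 22), (29, 22), (28, 22),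
     (29, 21), (27, 22), (28, 21), (26, 22), (27, 21), (25, 22), (26, 21), (24, 22), (25, 21), (23, 22),
     (24, 21), (22, 22), (23, 21), (22, 21)],
    [(11, 24), (10, 24), (11, 23), (9, 24), (10, 23), (8, 24), (9, 23), (7, 24), (8, 23), (6, 24),
     (7, 23), (5, 24), (6, 23), (4, 24), (5, 23), (3, 24), (4, 23), (2, 24), (3, 23), (1, 24),
     (2, 23), (0, 24), (1, 23), (0, 23)],
    [(27, 46), (26, 46), (27, 45), (26, 45), (27, 44), (26, 44), (27, 43), (26, 43), (26, 42), (25, 42),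
     (26, 41), (25, 41), (25, 40), (24, 40), (25, 39), (24, 39), (24, 38), (23, 38), (24, 37), (23, 37),
     (23, 36), (22, 36), (23, 35), (22, 35), (23, 34), (22, 34), (23, 33), (22, 33), (23, 32), (22, 32),
     (23, 31), (22, 31), (23, 30), (22, 30), (23, 29), (22, 29), (23, 28), (22, 28)],
    [(12, 45), (12, 44), (11, 44), (10, 44), (11, 43), (10, 43)],
    [(19, 48), (18, 48), (19, 47), (18, 47), (17, 47), (17, 46)],
    [(16, 61), (15, 61), (16, 60), (15, 60), (16, 59), (15, 59), (16, 58), (15, 58), (16, 57), (15, 57),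
     (15, 56), (14, 56), (15, 55), (14, 55), (14, 54), (13, 54), (14, 53), (13, 53), (14, 52), (13, 52),
     (14, 51), (13, 51), (14, 50), (13, 50), (14, 47), (14, 49), (13, 47), (13, 49), (14, 48), (12, 49),
     (13, 48), (12, 48)],
    [(9, 42), (8, 42), (9, 41), (7, 42), (8, 41), (6, 42), (7, 41), (5, 42), (6, 41), (4, 42),
     (5, 41), (3, 42), (4, 41), (2, 42), (3, 41), (1, 42), (2, 41), (0, 42), (1, 41), (0, 41)],
    [(28, 50), (27, 50), (28, 49), (26, 50), (27, 49), (25, 50), (26, 49), (24, 50), (25, 49), (23, 50),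
     (24, 49), (22, 50), (23, 49), (21, 50), (22, 49), (20, 50), (21, 49), (20, 49)],
    [(63, 41), (62, 41), (63, 42), (61, 41), (62, 42), (60, 41), (61, 42), (59, 41), (60, 42), (58, 41),
     (59, 42), (57, 41), (58, 42), (56, 41), (57, 42), (55, 41), (56, 42), (54, 41), (55, 42), (53, 41),
     (54, 42), (52, 41), (53, 42), (51, 41), (52, 42), (50, 41), (51, 42), (49, 41), (50, 42), (48, 41),
     (49, 42), (47, 41), (48, 42), (46, 41), (47, 42), (45, 41), (46, 42), (44, 41), (45, 42), (43, 41),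
     (44, 42), (43, 42), (42, 42), (41, 42), (42, 43), (41, 43), (40, 43), (39, 43), (40, 44), (39, 44),
     (38, 44), (37, 44), (38, 45), (37, 45), (36, 45), (35, 45), (36, 46), (35, 46), (34, 46), (33, 46),
     (34, 47), (32, 48), (33, 47), (31, 48), (32, 47), (30, 48), (31, 47), (29, 48), (30, 47), (29, 47)]]

/-- claim O_rl of the tile O -/
def clO_O_rl : Claim :=
  ⟨[(0, false), (1, true), (2, false)], 0,
    [(12, 22, 2), (16, 22, 0), (18, 22, 0), (16, 23, 0), (20, 23, 1), (17, 24, 0), (21, 24, 1), (21, 26, 2)],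
    (.rm 1 0 1040187424 (.rm 2 0 33554432 (.rm 3 0 1056964608 (.rm 5 0 973078528 (.rm 2 4
    277076935966720 (.rm 5 4 280375466786816 (.rm 2 5 3298534883328 (.rm 1 3 24 (.rm 4 3 50331648
    (.rm 5 3 83886094 (.rm 6 3 33554432 (.rm 2 5 16777218 (.rm 6 5 16777216 (.rm 7 6
    4329327149056 (.rm 2 7 34091302912 (.rm 4 7 68451041696 (.rm 6 7 68585260960 (.rm 2 6 32 (.rm
    4 6 512 (.rm 2 4 1065151921664 (.rm 5 4 1030792151040 (.rm 1 5 1 (.rm 2 1 201326592 (.rm 4 1
    67108864 (.rm 4 2 134217732 (.rm 6 4 67108868 (.tri 6 3 2 6 4 4 (.stop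
    6))))))))))))))))))))))))))))⟩

/-- claim O_tbl of the tile O -/
def clO_O_tbl : Claim :=
  ⟨[(0, false), (2, false), (3, false), (4, true)], 0,
    [(15, 19, 2), (12, 22, 2), (16, 22, 0), (16, 23, 1)],
    (.rm 2 1 251658240 (.rm 3 1 1056964608 (.rm 2 3 281406273978393 (.rm 0 2 281406272610304
    (.stop 0)))))⟩

/-- claim O_Rr of the tile O -/
def clO_O_Rr : Claim :=
  ⟨[(1, false), (5, true)], 0,
    [(22, 22, 1), (21, 23, 2)],
    (.rm 0 1 68702703614 (.stop 0))⟩

/-- claim O_lL of the tile O -/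
def clO_O_lL : Claim :=
  ⟨[(0, true), (6, false)], 0,
    [(12, 22, 1), (11, 23, 2)],
    (.rm 0 1 68702703452 (.stop 0))⟩

/-- claim O_Kk of the tile O -/
def clO_O_Kk : Claim :=
  ⟨[(2, true), (7, false)], 0,
    [(21, 27, 1), (22, 28, 2)],
    (.rm 1 0 281406274002944 (.stop 1))⟩

/-- claim X_k of the tile O -/
def clO_X_k : Claim :=
  ⟨[(8, false), (9, true)], 0,
    [(13, 43, 0), (15, 43, 0), (16, 43, 0), (10, 44, 2), (11, 44, 2), (12, 44, 2), (12, 45, 2), (16, 46, 0), (11, 47, 0), (14, 47, 0), (17, 47, 1), (13, 48, 0), (15, 49, 0)],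
    (.rm 2 10 1030792159232 (.rm 8 10 70368744177664 (.rm 9 10 280925230333952 (.rm 11 10
    280375465607168 (.rm 12 10 140600050057216 (.rm 0 5 68702700752 (.rm 7 5 1308622848 (.rm 10 5
    805306368 (.rm 11 5 67645734912 (.rm 10 7 201326592 (.rm 2 9 3298534883328 (.rm 8 9
    175921860444160 (.rm 11 9 549762170880 (.rm 7 6 16777216 (.rm 10 6 33554432 (.rm 11 6 256
    (.rm 10 7 16777222 (.rm 1 10 277076930723840 (.rm 2 10 277076937113600 (.rm 4 10
    70368744177664 (.rm 5 10 246290604621824 (.rm 6 10 272678883688448 (.rm 8 10 8796093022208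
    (.rm 11 10 33554432 (.rm 12 10 140737538686976 (.rm 3 5 140737488355328 (.rm 4 5
    140737488355328 (.rm 0 2 280925221421056 (.rm 1 2 4329327230976 (.rm 3 2 70368744177664 (.rm
    4 2 65970697666560 (.rm 5 2 34084860461056 (.rm 6 2 7696581394432 (.rm 8 2 1099511627776 (.rm
    9 2 412316860416 (.rm 11 9 274877906944 (.rm 3 0 35184372088832 (.rm 5 0 549755879424 (.rm 6
    0 549755813888 (.rm 8 0 549755813888 (.rm 3 1 17592186044416 (.rm 8 1 6597069766656 (.rm 9 1
    68719476736 (.rm 11 1 137438953472 (.rm 8 9 4194304 (.rm 11 9 68719517696 (.rm 0 11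
    481036337152 (.rm 4 11 206158438400 (.rm 5 11 481036345344 (.rm 6 11 481036361728 (.rm 8 11
    18073224949760 (.rm 12 11 68719480832 (.rm 0 6 24576 (.split 0 1 (.rm 5 0 32768 (.rm 7 0
    2147483776 (.rm 10 0 1073741824 (.rm 4 5 4123168849920 (.rm 10 7 2147483776 (.rm 12 10
    67108866 (.rm 8 12 117440514 (.rm 11 12 16777222 (.rm 8 11 1 (.rm 3 8 17523476750336 (.tri 4
    22 0 0 3 21 (.tri 5 21 0 0 4 18 (.stop 5))))))))))))) (.rm 5 0 2097152 (.rm 6 5 2097152 (.tri
    6 18 0 12 5 15 (.stop 6))))))))))))))))))))))))))))))))))))))))))))))))))))))))))⟩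

/-- claim X_tb of the tile O -/
def clO_X_tb : Claim :=
  ⟨[(4, false), (8, false), (10, true)], 0,
    [(15, 44, 2), (12, 45, 2), (13, 45, 0), (14, 45, 0), (17, 46, 0), (11, 47, 0), (18, 47, 0), (13, 48, 1), (14, 48, 1), (18, 48, 0)],
    (.rm 2 0 34342961280 (.rm 3 0 68702700672 (.rm 4 0 34326183952 (.rm 6 0 134217728 (.rm 8 0
    67645736960 (.rm 9 0 8321499136 (.rm 0 8 4329327034368 (.rm 2 8 34359738368 (.rm 3 8
    4329327165440 (.rm 2 0 4329327071232 (.rm 3 0 4096 (.rm 4 0 34359738368 (.rm 7 0 60129542144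
    (.rm 9 0 25769803776 (.rm 4 2 16777216 (.rm 6 2 33554432 (.rm 6 4 83886082 (.rm 9 4
    34493959424 (.rm 5 3 4329327239168 (.rm 7 3 7516193024 (.rm 8 3 805306400 (.rm 0 7
    13194139533312 (.rm 2 7 13194139533312 (.rm 3 7 30786326102016 (.rm 5 7 277144582492160 (.rm
    8 7 512 (.rm 0 3 17592187092992 (.rm 2 3 17592186306560 (.rm 1 0 262144 (.rm 7 1 805306400
    (.rm 8 1 134217728 (.rm 5 2 939524128 (.rm 7 2 134217728 (.rm 7 5 16 (.rm 8 7 16 (.rm 9 6
    117440512 (.rm 5 9 33554432 (.rm 7 9 50331648 (.rm 8 9 117440512 (.rm 5 8 16777218 (.rm 7 8 2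
    (.split 5 1 (.rm 7 5 67108864 (.tri 8 3 5 0 7 2 (.stop 8))) (.rm 1 5 211106232532992 (.rm 2 5
    246290604621824 (.rm 2 1 8388608 (.stop 2))))))))))))))))))))))))))))))))))))))))))))))⟩

/-- claim X_Kl of the tile O -/
def clO_X_Kl : Claim :=
  ⟨[(8, true), (11, false)], 0,
    [(9, 42, 2), (10, 43, 1)],
    (.rm 0 1 281406274002944 (.stop 0))⟩

/-- claim X_Kr of the tile O -/
def clO_X_Kr : Claim :=
  ⟨[(9, false), (12, true)], 0,
    [(19, 48, 2), (20, 49, 1)],
    (.rm 0 1 281406265352192 (.stop 0))⟩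

/-- claim K_r of the tile O -/
def clO_K_r : Claim :=
  ⟨[(12, false), (13, true)], 0,
    [(29, 48, 1), (28, 49, 2)],
    (.rm 0 1 68702703214 (.stop 0))⟩

/-- claim K_b of the tile O -/
def clO_K_b : Claim :=
  ⟨[(7, true), (12, false)], 0,
    [(27, 46, 1), (30, 47, 0), (30, 48, 0), (28, 49, 2)],
    (.rm 1 0 263882790666240 (.rm 2 0 30786326102016 (.rm 3 0 4329327255552 (.rm 0 3 60129542144
    (.rm 2 3 4398029991694 (.rm 1 0 2097152 (.rm 2 1 246290604621824 (.stop 2))))))))⟩

/-- goals of the tile O -/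
def goalsO : List (List (ℕ × (ℕ × ℕ) × Bool)) :=
  [[(11, (0, 41), false), (13, (63, 41), true)],
    [(11, (0, 41), false), (5, (63, 23), true), (6, (0, 23), false)],
    [(11, (0, 41), false), (10, (15, 61), true), (3, (15, 0), false), (6, (0, 23), false)]]

/-- data of the tile O -/
def tileO : TileData :=
  ⟨patO, compsO, [clO_O_rl, clO_O_tbl, clO_O_Rr, clO_O_lL, clO_O_Kk, clO_X_k, clO_X_tb, clO_X_Kl, clO_X_Kr, clO_K_r, clO_K_b], goalsO⟩

/-- pattern of the tile A -/
def patA : List ℕ :=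
  [48, 48, 48, 48,
    48, 48, 48, 48,
    48, 48, 48, 48,
    48, 48, 48, 48,
    48, 48, 48, 48,
    48, 1610612784, 1610612784, 18446744071964721200,
    18446744071964721200, 402653232, 402653232, 412719513648,
    412719513648, 412719513648, 412719513648, 412719513648,
    412719513648, 412719513648, 412719513648, 412719513648,
    412719513648, 412719513648, 412719513648, 412719513648,
    412719513612, 18428730087923777484, 18442240887418257356, 16889324222021644,
    4222950790135820, 1056355913826316, 264708363911180, 68173588070412,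
    15396769890328, 2196053688344, 2194828951576, 100663344,
    100663344, 100663344, 100663344, 100663344,
    100663344, 100663344, 100663344, 100663344,
    100663344, 100663344]

/-- components of the tile A -/
def compsA : List (List (ℕ × ℕ)) :=
  [[(28, 44), (29, 43), (27, 44), (28, 43), (29, 42), (27, 43), (28, 42), (27, 42), (28, 41), (27, 41),
     (28, 40), (27, 40), (28, 39), (27, 39), (28, 38), (27, 38), (28, 37), (27, 37), (28, 36), (27, 36),
     (28, 35), (27, 35), (28, 34), (27, 34), (28, 33), (27, 33), (28, 32), (27, 32), (28, 31), (27, 31),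
     (28, 30), (27, 30), (28, 29), (27, 29), (28, 28), (27, 28), (28, 27), (27, 27), (28, 26), (27, 26),
     (28, 25), (27, 25), (28, 24), (27, 24), (28, 23), (27, 23)],
    [(63, 24), (62, 24), (63, 23), (61, 24), (62, 23), (60, 24), (61, 23), (59, 24), (60, 23), (58, 24),
     (59, 23), (57, 24), (58, 23), (56, 24), (57, 23), (55, 24), (56, 23), (54, 24), (55, 23), (53, 24),
     (54, 23), (52, 24), (53, 23), (51, 24), (52, 23), (50, 24), (51, 23), (49, 24), (50, 23), (48, 24),
     (49, 23), (47, 24), (48, 23), (46, 24), (47, 23), (45, 24), (46, 23), (44, 24), (45, 23), (43, 24),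
     (44, 23), (42, 24), (43, 23), (41, 24), (42, 23), (40, 24), (41, 23), (39, 24), (40, 23), (38, 24),
     (39, 23), (37, 24), (38, 23), (36, 24), (37, 23), (35, 24), (36, 23), (34, 24), (35, 23), (33, 24),
     (34, 23), (32, 24), (33, 23), (31, 24), (32, 23), (31, 23)],
    [(39, 46), (38, 46), (39, 45), (38, 45), (39, 44), (38, 44), (39, 43), (38, 43), (38, 42), (37, 42),
     (38, 41), (37, 41), (38, 40), (37, 40), (38, 39), (37, 39), (38, 38), (37, 38), (38, 37), (37, 37),
     (38, 36), (37, 36), (38, 35), (37, 35), (38, 34), (37, 34), (38, 33), (37, 33), (38, 32), (37, 32),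
     (38, 31), (37, 31), (38, 30), (37, 30), (38, 29), (37, 29), (38, 28), (37, 28), (38, 27), (37, 27)],
    [(5, 39), (4, 39), (5, 38), (4, 38), (5, 37), (4, 37), (5, 36), (4, 36), (5, 35), (4, 35),
     (5, 34), (4, 34), (5, 33), (4, 33), (5, 32), (4, 32), (5, 31), (4, 31), (5, 30), (4, 30),
     (5, 29), (4, 29), (5, 28), (4, 28), (5, 27), (4, 27), (5, 26), (4, 26), (5, 25), (4, 25),
     (5, 24), (4, 24), (5, 23), (4, 23), (5, 22), (4, 22), (5, 21), (4, 21), (5, 20), (4, 20),
     (5, 19), (4, 19), (5, 18), (4, 18), (5, 17), (4, 17), (5, 16), (4, 16), (5, 15), (4, 15),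
     (5, 14), (4, 14), (5, 13), (4, 13), (5, 12), (4, 12), (5, 11), (4, 11), (5, 10), (4, 10),
     (5, 9), (4, 9), (5, 8), (4, 8), (5, 7), (4, 7), (5, 6), (4, 6), (5, 5), (4, 5),
     (5, 4), (4, 4), (5, 3), (4, 3), (5, 2), (4, 2), (5, 1), (4, 1), (5, 0), (4, 0)],
    [(5, 61), (4, 61), (5, 60), (4, 60), (5, 59), (4, 59), (5, 58), (4, 58), (5, 57), (4, 57),
     (5, 56), (4, 56), (5, 55), (4, 55), (5, 54), (4, 54), (5, 53), (4, 53), (5, 52), (4, 52),
     (5, 51), (4, 51), (4, 50), (3, 50), (4, 49), (3, 49), (4, 48), (3, 48), (3, 47), (2, 47),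
     (3, 46), (2, 46), (3, 45), (2, 45), (3, 44), (2, 44), (3, 43), (2, 43), (3, 42), (2, 42),
     (3, 41), (2, 41), (3, 40), (2, 40)],
    [(21, 42), (20, 42), (21, 41), (19, 42), (20, 41), (18, 42), (19, 41), (17, 42), (18, 41), (16, 42),
     (17, 41), (15, 42), (16, 41), (14, 42), (15, 41), (13, 42), (14, 41), (12, 42), (13, 41), (11, 42),
     (12, 41), (10, 42), (11, 41), (9, 42), (10, 41), (8, 42), (9, 41), (7, 42), (8, 41), (6, 42),
     (7, 41), (6, 41)],
    [(24, 45), (24, 44), (23, 44), (22, 44), (23, 43), (22, 43)],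
    [(31, 48), (30, 48), (31, 47), (30, 47), (29, 47), (29, 46)],
    [(26, 61), (25, 61), (26, 60), (25, 60), (26, 59), (25, 59), (26, 58), (25, 58), (26, 57), (25, 57),
     (26, 56), (25, 56), (26, 55), (25, 55), (26, 54), (25, 54), (26, 53), (25, 53), (26, 52), (25, 52),
     (26, 51), (25, 51), (26, 50), (25, 50), (26, 47), (26, 49), (25, 47), (25, 49), (26, 48), (24, 49),
     (25, 48), (24, 48)],
    [(40, 50), (39, 50), (40, 49), (38, 50), (39, 49), (37, 50), (38, 49), (36, 50), (37, 49), (35, 50),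
     (36, 49), (34, 50), (35, 49), (33, 50), (34, 49), (32, 50), (33, 49), (32, 49)],
    [(63, 41), (62, 41), (63, 42), (61, 41), (62, 42), (60, 41), (61, 42), (59, 41), (60, 42), (58, 41),
     (59, 42), (57, 41), (58, 42), (56, 41), (57, 42), (55, 41), (56, 42), (54, 41), (55, 42), (54, 42),
     (53, 42), (52, 42), (53, 43), (52, 43), (51, 43), (50, 43), (51, 44), (50, 44), (49, 44), (48, 44),
     (49, 45), (48, 45), (47, 45), (46, 45), (47, 46), (46, 46), (45, 46), (44, 46), (45, 47), (43, 48),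
     (44, 47), (42, 48), (43, 47), (41, 48), (42, 47), (41, 47)]]

/-- claim A_rv of the tile A -/
def clA_A_rv : Claim :=
  ⟨[(0, false), (1, true), (2, false)], 0,
    [(30, 21, 0), (29, 22, 0), (28, 23, 2), (31, 23, 1)],
    (.rm 0 2 16106127488 (.rm 1 2 68702703584 (.rm 3 2 1056964656 (.rm 0 3 281407329460238 (.rm 0
    1 51539609664 (.stop 0))))))⟩

/-- claim J_t of the tile A -/
def clA_J_t : Claim :=
  ⟨[(3, false), (4, true)], 0,
    [(4, 39, 2), (3, 40, 1)],
    (.rm 1 0 68702703592 (.stop 1))⟩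

/-- claim J_r of the tile A -/
def clA_J_r : Claim :=
  ⟨[(3, false), (5, true)], 0,
    [(5, 38, 2), (4, 39, 2), (3, 40, 0), (6, 41, 1)],
    (.rm 2 1 16777216 (.rm 3 1 34326184112 (.rm 3 2 16777216 (.rm 3 0 34359738368 (.stop 3)))))⟩

/-- claim X_k of the tile A -/
def clA_X_k : Claim :=
  ⟨[(6, false), (7, true)], 0,
    [(25, 43, 0), (27, 43, 0), (28, 43, 0), (22, 44, 2), (23, 44, 2), (24, 44, 2), (24, 45, 2), (28, 46, 0), (23, 47, 0), (26, 47, 0), (29, 47, 1), (25, 48, 0), (27, 49, 0)],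
    (.rm 2 10 1030792159232 (.rm 8 10 70368744177664 (.rm 9 10 280925230333952 (.rm 11 10
    280375465607168 (.rm 12 10 140600050057216 (.rm 0 5 68702700752 (.rm 7 5 1308622848 (.rm 10 5
    805306368 (.rm 11 5 67645734912 (.rm 10 7 201326592 (.rm 2 9 3298534883328 (.rm 8 9
    175921860444160 (.rm 11 9 549762170880 (.rm 7 6 16777216 (.rm 10 6 33554432 (.rm 11 6 256
    (.rm 10 7 16777222 (.rm 1 10 277076930723840 (.rm 2 10 277076937113600 (.rm 4 10
    70368744177664 (.rm 5 10 246290604621824 (.rm 6 10 272678883688448 (.rm 8 10 8796093022208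
    (.rm 11 10 33554432 (.rm 12 10 140737538686976 (.rm 3 5 140737488355328 (.rm 4 5
    140737488355328 (.rm 0 2 280925221421056 (.rm 1 2 4329327230976 (.rm 3 2 70368744177664 (.rm
    4 2 65970697666560 (.rm 5 2 34084860461056 (.rm 6 2 7696581394432 (.rm 8 2 1099511627776 (.rm
    9 2 412316860416 (.rm 11 9 274877906944 (.rm 3 0 35184372088832 (.rm 5 0 549755879424 (.rm 6
    0 549755813888 (.rm 8 0 549755813888 (.rm 3 1 17592186044416 (.rm 8 1 6597069766656 (.rm 9 1
    68719476736 (.rm 11 1 137438953472 (.rm 8 9 4194304 (.rm 11 9 68719517696 (.rm 0 11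
    481036337152 (.rm 4 11 206158438400 (.rm 5 11 481036345344 (.rm 6 11 481036361728 (.rm 8 11
    18073224949760 (.rm 12 11 68719480832 (.rm 0 6 24576 (.split 0 1 (.rm 5 0 32768 (.rm 7 0
    2147483776 (.rm 10 0 1073741824 (.rm 4 5 4123168849920 (.rm 10 7 2147483776 (.rm 12 10
    67108866 (.rm 8 12 117440514 (.rm 11 12 16777222 (.rm 8 11 1 (.rm 3 8 17523476750336 (.tri 4
    22 0 0 3 21 (.tri 5 21 0 0 4 18 (.stop 5))))))))))))) (.rm 5 0 2097152 (.rm 6 5 2097152 (.tri
    6 18 0 12 5 15 (.stop 6))))))))))))))))))))))))))))))))))))))))))))))))))))))))))⟩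

/-- claim X_bt of the tile A -/
def clA_X_bt : Claim :=
  ⟨[(0, true), (6, false), (8, false)], 0,
    [(22, 43, 2), (27, 43, 1), (28, 43, 1), (30, 44, 0), (27, 46, 0), (28, 46, 0), (29, 46, 0), (26, 47, 2)],
    (.rm 1 7 67645736960 (.rm 4 7 68702700672 (.rm 5 7 17163092096 (.rm 6 7 8573157392 (.rm 4 1
    4329327165440 (.rm 7 1 4329327034368 (.rm 2 7 60129542144 (.rm 4 7 4096 (.rm 5 7
    4329327071232 (.rm 6 7 60129542144 (.rm 1 4 805306400 (.rm 2 4 7516193024 (.rm 6 4
    1030792175616 (.rm 1 2 512 (.rm 3 2 263882797223936 (.rm 4 2 30786326102016 (.rm 5 2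
    13194139533312 (.rm 6 2 3298534883328 (.rm 5 4 17592186306560 (.rm 1 5 134217728 (.rm 2 5
    939524128 (.rm 3 5 939524128 (.rm 6 5 30786325839872 (.rm 2 3 16 (.rm 1 2 16 (.rm 1 0
    50331648 (.rm 2 1 50331650 (.rm 3 1 16777218 (.split 1 67108864 (.rm 3 1 1 (.rm 5 1
    35184372088832 (.rm 6 1 35184372088832 (.rm 6 3 211106232532992 (.rm 6 5 2097152 (.stop
    6)))))) (.split 2 4 (.tri 3 0 1 3 2 2 (.rm 5 3 35184372088832 (.rm 6 3 246290604621824 (.rm 6
    5 2097152 (.stop 6))))) (.rm 3 2 1 (.rm 5 2 35184372088832 (.rm 6 2 105553116266496 (.rm 6 3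
    140737488355328 (.rm 6 5 2097152 (.stop 6))))))))))))))))))))))))))))))))))))⟩

/-- claim X_Kl of the tile A -/
def clA_X_Kl : Claim :=
  ⟨[(5, false), (6, true)], 0,
    [(21, 42, 2), (22, 43, 1)],
    (.rm 0 1 281406274002944 (.stop 0))⟩

/-- claim X_Kr of the tile A -/
def clA_X_Kr : Claim :=
  ⟨[(7, false), (9, true)], 0,
    [(31, 48, 2), (32, 49, 1)],
    (.rm 0 1 281406265352192 (.stop 0))⟩

/-- claim K_r of the tile A -/
def clA_K_r : Claim :=
  ⟨[(9, false), (10, true)], 0,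
    [(41, 48, 1), (40, 49, 2)],
    (.rm 0 1 68702703214 (.stop 0))⟩

/-- claim K_b of the tile A -/
def clA_K_b : Claim :=
  ⟨[(2, true), (9, false)], 0,
    [(39, 46, 1), (43, 47, 0), (43, 48, 0), (40, 49, 2)],
    (.rm 1 0 277076930199552 (.rm 3 0 4329327255552 (.rm 1 3 4397912551312 (.rm 2 3 8573158294
    (.rm 1 2 117440588 (.stop 1))))))⟩

/-- goals of the tile A -/
def goalsA : List (List (ℕ × (ℕ × ℕ) × Bool)) :=
  [[(3, (4, 0), false), (4, (4, 61), true)],
    [(3, (4, 0), false), (10, (63, 41), true)],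
    [(3, (4, 0), false), (1, (63, 23), true), (8, (25, 61), false)]]

/-- data of the tile A -/
def tileA : TileData :=
  ⟨patA, compsA, [clA_A_rv, clA_J_t, clA_J_r, clA_X_k, clA_X_bt, clA_X_Kl, clA_X_Kr, clA_K_r, clA_K_b], goalsA⟩

/-- pattern of the tile B -/
def patB : List ℕ :=
  [100663344, 100663344, 100663344, 100663344,
    100663344, 100663344, 100663344, 100663344,
    100663344, 100663344, 100663344, 100663344,
    100663344, 100663344, 100663344, 100663344,
    100663344, 100663344, 100663344, 100663344,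
    100663344, 268435504, 48, 18446744073290121264,
    18446744073273344048, 100663344, 100663344, 100663344,
    100663344, 100663344, 100663344, 100663344,
    100663344, 100663344, 100663344, 100663344,
    100663344, 100663344, 100663344, 16911433776,
    137170518028, 18446744056798117836, 18446743936539033548, 12,
    12, 12, 12, 12,
    24, 24, 24, 48,
    48, 48, 48, 48,
    48, 48, 48, 48,
    48, 48]

/-- components of the tile B -/
def compsB : List (List (ℕ × ℕ)) :=
  [[(26, 20), (25, 20), (26, 19), (25, 19), (26, 18), (25, 18), (26, 17), (25, 17), (26, 16), (25, 16),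
     (26, 15), (25, 15), (26, 14), (25, 14), (26, 13), (25, 13), (26, 12), (25, 12), (26, 11), (25, 11),
     (26, 10), (25, 10), (26, 9), (25, 9), (26, 8), (25, 8), (26, 7), (25, 7), (26, 6), (25, 6),
     (26, 5), (25, 5), (26, 4), (25, 4), (26, 3), (25, 3), (26, 2), (25, 2), (26, 1), (25, 1),
     (26, 0), (25, 0)],
    [(63, 24), (62, 24), (63, 23), (61, 24), (62, 23), (60, 24), (61, 23), (59, 24), (60, 23), (58, 24),
     (59, 23), (57, 24), (58, 23), (56, 24), (57, 23), (55, 24), (56, 23), (54, 24), (55, 23), (53, 24),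
     (54, 23), (52, 24), (53, 23), (51, 24), (52, 23), (50, 24), (51, 23), (49, 24), (50, 23), (48, 24),
     (49, 23), (47, 24), (48, 23), (46, 24), (47, 23), (45, 24), (46, 23), (44, 24), (45, 23), (43, 24),
     (44, 23), (42, 24), (43, 23), (41, 24), (42, 23), (40, 24), (41, 23), (39, 24), (40, 23), (38, 24),
     (39, 23), (37, 24), (38, 23), (36, 24), (37, 23), (35, 24), (36, 23), (34, 24), (35, 23), (33, 24),
     (34, 23), (32, 24), (33, 23), (31, 24), (32, 23), (30, 24), (31, 23), (29, 24), (30, 23), (29, 23)],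
    [(26, 38), (25, 38), (26, 37), (25, 37), (26, 36), (25, 36), (26, 35), (25, 35), (26, 34), (25, 34),
     (26, 33), (25, 33), (26, 32), (25, 32), (26, 31), (25, 31), (26, 30), (25, 30), (26, 29), (25, 29),
     (26, 28), (25, 28), (26, 27), (25, 27), (26, 26), (25, 26), (26, 25), (25, 25), (26, 24), (25, 24),
     (26, 23), (25, 23)],
    [(5, 39), (4, 39), (5, 38), (4, 38), (5, 37), (4, 37), (5, 36), (4, 36), (5, 35), (4, 35),
     (5, 34), (4, 34), (5, 33), (4, 33), (5, 32), (4, 32), (5, 31), (4, 31), (5, 30), (4, 30),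
     (5, 29), (4, 29), (5, 28), (4, 28), (5, 27), (4, 27), (5, 26), (4, 26), (5, 25), (4, 25),
     (5, 24), (4, 24), (5, 23), (4, 23), (5, 22), (4, 22), (5, 21), (4, 21), (5, 20), (4, 20),
     (5, 19), (4, 19), (5, 18), (4, 18), (5, 17), (4, 17), (5, 16), (4, 16), (5, 15), (4, 15),
     (5, 14), (4, 14), (5, 13), (4, 13), (5, 12), (4, 12), (5, 11), (4, 11), (5, 10), (4, 10),
     (5, 9), (4, 9), (5, 8), (4, 8), (5, 7), (4, 7), (5, 6), (4, 6), (5, 5), (4, 5),
     (5, 4), (4, 4), (5, 3), (4, 3), (5, 2), (4, 2), (5, 1), (4, 1), (5, 0), (4, 0)],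
    [(5, 61), (4, 61), (5, 60), (4, 60), (5, 59), (4, 59), (5, 58), (4, 58), (5, 57), (4, 57),
     (5, 56), (4, 56), (5, 55), (4, 55), (5, 54), (4, 54), (5, 53), (4, 53), (5, 52), (4, 52),
     (5, 51), (4, 51), (4, 50), (3, 50), (4, 49), (3, 49), (4, 48), (3, 48), (3, 47), (2, 47),
     (3, 46), (2, 46), (3, 45), (2, 45), (3, 44), (2, 44), (3, 43), (2, 43), (3, 42), (2, 42),
     (3, 41), (2, 41), (3, 40), (2, 40)],
    [(27, 42), (26, 42), (27, 41), (25, 42), (26, 41), (24, 42), (25, 41), (23, 42), (24, 41), (22, 42),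
     (23, 41), (21, 42), (22, 41), (20, 42), (21, 41), (19, 42), (20, 41), (18, 42), (19, 41), (17, 42),
     (18, 41), (16, 42), (17, 41), (15, 42), (16, 41), (14, 42), (15, 41), (13, 42), (14, 41), (12, 42),
     (13, 41), (11, 42), (12, 41), (10, 42), (11, 41), (9, 42), (10, 41), (8, 42), (9, 41), (7, 42),
     (8, 41), (6, 42), (7, 41), (6, 41)],
    [(63, 42), (62, 42), (63, 41), (61, 42), (62, 41), (60, 42), (61, 41), (59, 42), (60, 41), (58, 42),
     (59, 41), (57, 42), (58, 41), (56, 42), (57, 41), (55, 42), (56, 41), (54, 42), (55, 41), (53, 42),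
     (54, 41), (52, 42), (53, 41), (51, 42), (52, 41), (50, 42), (51, 41), (49, 42), (50, 41), (48, 42),
     (49, 41), (47, 42), (48, 41), (46, 42), (47, 41), (45, 42), (46, 41), (44, 42), (45, 41), (43, 42),
     (44, 41), (42, 42), (43, 41), (41, 42), (42, 41), (40, 42), (41, 41), (39, 42), (40, 41), (38, 42),
     (39, 41), (37, 42), (38, 41), (37, 41), (36, 41), (35, 41), (36, 40), (34, 41), (35, 40), (34, 40),
     (33, 40), (32, 40), (33, 39), (31, 40), (32, 39), (30, 40), (31, 39), (29, 40), (30, 39), (28, 40),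
     (29, 39), (28, 39)]]

/-- claim B_nand of the tile B -/
def clB_B_nand : Claim :=
  ⟨[(0, true), (1, true), (2, false)], 0,
    [(26, 20, 1), (26, 23, 2), (29, 23, 1)],
    (.rm 0 1 67645735168 (.rm 2 1 1056964624 (.rm 2 0 67645738240 (.stop 2))))⟩

/-- claim J_t of the tile B -/
def clB_J_t : Claim :=
  ⟨[(3, false), (4, true)], 0,
    [(4, 39, 2), (3, 40, 1)],
    (.rm 1 0 68702703592 (.stop 1))⟩

/-- claim J_r of the tile B -/
def clB_J_r : Claim :=
  ⟨[(3, false), (5, true)], 0,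
    [(5, 38, 2), (4, 39, 2), (3, 40, 0), (6, 41, 1)],
    (.rm 2 1 16777216 (.rm 3 1 34326184112 (.rm 3 2 16777216 (.rm 3 0 34359738368 (.stop 3)))))⟩

/-- claim K_r of the tile B -/
def clB_K_r : Claim :=
  ⟨[(5, false), (6, true)], 0,
    [(28, 40, 1), (27, 41, 2)],
    (.rm 0 1 68702703214 (.stop 0))⟩

/-- claim K_b of the tile B -/
def clB_K_b : Claim :=
  ⟨[(2, true), (5, false)], 0,
    [(26, 38, 1), (29, 39, 0), (31, 40, 0), (27, 41, 2)],
    (.rm 1 0 280925233610752 (.rm 3 0 35115653357568 (.rm 0 3 60129542144 (.rm 1 3 274877956096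
    (.rm 2 3 4398029991856 (.rm 1 0 2097152 (.rm 2 1 277076935966720 (.stop 2))))))))⟩

/-- goals of the tile B -/
def goalsB : List (List (ℕ × (ℕ × ℕ) × Bool)) :=
  [[(3, (4, 0), false), (4, (4, 61), true)],
    [(3, (4, 0), false), (6, (63, 41), true)],
    [(3, (4, 0), false), (1, (63, 23), true), (0, (25, 0), true)]]

/-- data of the tile B -/
def tileB : TileData :=
  ⟨patB, compsB, [clB_B_nand, clB_J_t, clB_J_r, clB_K_r, clB_K_b], goalsB⟩

/-- pattern of the tile BF -/
def patBF : List ℕ :=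
  [0, 0, 0, 0,
    0, 0, 0, 0,
    0, 0, 0, 0,
    0, 0, 0, 0,
    0, 0, 0, 0,
    0, 0, 0, 0,
    0, 0, 0, 0,
    0, 0, 0, 0,
    0, 0, 0, 0,
    0, 0, 0, 4177920,
    33538048, 18446744073705373695, 18446744073676013567, 98304,
    98304, 98304, 98304, 98304,
    98304, 98304, 98304, 98304,
    98304, 98304, 98304, 98304,
    98304, 98304, 98304, 98304,
    98304, 98304]

/-- components of the tile BF -/
def compsBF : List (List (ℕ × ℕ)) :=
  [[(13, 42), (12, 42), (13, 41), (11, 42), (12, 41), (10, 42), (11, 41), (9, 42), (10, 41), (8, 42),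
     (9, 41), (7, 42), (8, 41), (6, 42), (7, 41), (5, 42), (6, 41), (4, 42), (5, 41), (3, 42),
     (4, 41), (2, 42), (3, 41), (1, 42), (2, 41), (0, 42), (1, 41), (0, 41)],
    [(63, 42), (62, 42), (63, 41), (61, 42), (62, 41), (60, 42), (61, 41), (59, 42), (60, 41), (58, 42),
     (59, 41), (57, 42), (58, 41), (56, 42), (57, 41), (55, 42), (56, 41), (54, 42), (55, 41), (53, 42),
     (54, 41), (52, 42), (53, 41), (51, 42), (52, 41), (50, 42), (51, 41), (49, 42), (50, 41), (48, 42),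
     (49, 41), (47, 42), (48, 41), (46, 42), (47, 41), (45, 42), (46, 41), (44, 42), (45, 41), (43, 42),
     (44, 41), (42, 42), (43, 41), (41, 42), (42, 41), (40, 42), (41, 41), (39, 42), (40, 41), (38, 42),
     (39, 41), (37, 42), (38, 41), (36, 42), (37, 41), (35, 42), (36, 41), (34, 42), (35, 41), (33, 42),
     (34, 41), (32, 42), (33, 41), (31, 42), (32, 41), (30, 42), (31, 41), (29, 42), (30, 41), (28, 42),
     (29, 41), (27, 42), (28, 41), (26, 42), (27, 41), (25, 42), (26, 41), (25, 41), (24, 41), (23, 41),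
     (24, 40), (22, 41), (23, 40), (22, 40), (21, 40), (20, 40), (21, 39), (19, 40), (20, 39), (18, 40),
     (19, 39), (17, 40), (18, 39), (16, 40), (17, 39), (15, 40), (16, 39), (14, 40), (15, 39), (14, 39)],
    [(16, 61), (15, 61), (16, 60), (15, 60), (16, 59), (15, 59), (16, 58), (15, 58), (16, 57), (15, 57),
     (16, 56), (15, 56), (16, 55), (15, 55), (16, 54), (15, 54), (16, 53), (15, 53), (16, 52), (15, 52),
     (16, 51), (15, 51), (16, 50), (15, 50), (16, 49), (15, 49), (16, 48), (15, 48), (16, 47), (15, 47),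
     (16, 46), (15, 46), (16, 45), (15, 45), (16, 44), (15, 44), (16, 43), (15, 43)]]

/-- claim F_r of the tile BF -/
def clBF_F_r : Claim :=
  ⟨[(0, false), (1, true)], 0,
    [(14, 40, 1), (13, 41, 2)],
    (.rm 0 1 68702700286 (.stop 0))⟩

/-- claim F_t of the tile BF -/
def clBF_F_t : Claim :=
  ⟨[(0, false), (2, true)], 0,
    [(14, 40, 0), (13, 41, 2), (13, 42, 2), (15, 43, 1)],
    (.rm 0 3 481036361728 (.rm 1 3 70093866991616 (.rm 3 2 16777216 (.rm 1 3 211106232532992 (.rm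
    1 0 206158454784 (.stop 1))))))⟩

/-- goals of the tile BF -/
def goalsBF : List (List (ℕ × (ℕ × ℕ) × Bool)) :=
  [[(0, (0, 41), false), (1, (63, 41), true)],
    [(0, (0, 41), false), (2, (15, 61), true)]]

/-- data of the tile BF -/
def tileBF : TileData :=
  ⟨patBF, compsBF, [clBF_F_r, clBF_F_t], goalsBF⟩

/-- pattern of the tile BL -/
def patBL : List ℕ :=
  [0, 0, 0, 60,
    56, 48, 48, 48,
    48, 48, 48, 48,
    48, 48, 48, 48,
    48, 48, 48, 48,
    48, 48, 48, 48,
    48, 48, 48, 48,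
    48, 48, 48, 48,
    48, 48, 48, 48,
    48, 48, 48, 48,
    12, 18446744073709551564, 18446744073709551564, 12,
    12, 12, 12, 12,
    24, 24, 24, 48,
    48, 48, 48, 48,
    48, 48, 48, 48,
    48, 48]

/-- components of the tile BL -/
def compsBL : List (List (ℕ × ℕ)) :=
  [[(5, 39), (4, 39), (5, 38), (4, 38), (5, 37), (4, 37), (5, 36), (4, 36), (5, 35), (4, 35),
     (5, 34), (4, 34), (5, 33), (4, 33), (5, 32), (4, 32), (5, 31), (4, 31), (5, 30), (4, 30),
     (5, 29), (4, 29), (5, 28), (4, 28), (5, 27), (4, 27), (5, 26), (4, 26), (5, 25), (4, 25),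
     (5, 24), (4, 24), (5, 23), (4, 23), (5, 22), (4, 22), (5, 21), (4, 21), (5, 20), (4, 20),
     (5, 19), (4, 19), (5, 18), (4, 18), (5, 17), (4, 17), (5, 16), (4, 16), (5, 15), (4, 15),
     (5, 14), (4, 14), (5, 13), (4, 13), (5, 12), (4, 12), (5, 11), (4, 11), (5, 10), (4, 10),
     (5, 9), (4, 9), (5, 8), (4, 8), (5, 7), (4, 7), (5, 6), (4, 6), (5, 5), (4, 5),
     (5, 4), (4, 4), (5, 3), (3, 4), (4, 3), (3, 3)],
    [(5, 61), (4, 61), (5, 60), (4, 60), (5, 59), (4, 59), (5, 58), (4, 58), (5, 57), (4, 57),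
     (5, 56), (4, 56), (5, 55), (4, 55), (5, 54), (4, 54), (5, 53), (4, 53), (5, 52), (4, 52),
     (5, 51), (4, 51), (4, 50), (3, 50), (4, 49), (3, 49), (4, 48), (3, 48), (3, 47), (2, 47),
     (3, 46), (2, 46), (3, 45), (2, 45), (3, 44), (2, 44), (3, 43), (2, 43), (3, 42), (2, 42),
     (3, 41), (2, 41), (3, 40), (2, 40)],
    [(63, 42), (62, 42), (63, 41), (61, 42), (62, 41), (60, 42), (61, 41), (59, 42), (60, 41), (58, 42),
     (59, 41), (57, 42), (58, 41), (56, 42), (57, 41), (55, 42), (56, 41), (54, 42), (55, 41), (53, 42),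
     (54, 41), (52, 42), (53, 41), (51, 42), (52, 41), (50, 42), (51, 41), (49, 42), (50, 41), (48, 42),
     (49, 41), (47, 42), (48, 41), (46, 42), (47, 41), (45, 42), (46, 41), (44, 42), (45, 41), (43, 42),
     (44, 41), (42, 42), (43, 41), (41, 42), (42, 41), (40, 42), (41, 41), (39, 42), (40, 41), (38, 42),
     (39, 41), (37, 42), (38, 41), (36, 42), (37, 41), (35, 42), (36, 41), (34, 42), (35, 41), (33, 42),
     (34, 41), (32, 42), (33, 41), (31, 42), (32, 41), (30, 42), (31, 41), (29, 42), (30, 41), (28, 42),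
     (29, 41), (27, 42), (28, 41), (26, 42), (27, 41), (25, 42), (26, 41), (24, 42), (25, 41), (23, 42),
     (24, 41), (22, 42), (23, 41), (21, 42), (22, 41), (20, 42), (21, 41), (19, 42), (20, 41), (18, 42),
     (19, 41), (17, 42), (18, 41), (16, 42), (17, 41), (15, 42), (16, 41), (14, 42), (15, 41), (13, 42),
     (14, 41), (12, 42), (13, 41), (11, 42), (12, 41), (10, 42), (11, 41), (9, 42), (10, 41), (8, 42),
     (9, 41), (7, 42), (8, 41), (6, 42), (7, 41), (6, 41)]]

/-- claim BL_c of the tile BL -/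
def clBL_BL_c : Claim :=
  ⟨[(0, true)], 1,
    [(2, 3, 0), (3, 3, 1)],
    (.rm 0 1 2479616 (.stop 0))⟩

/-- claim J_t of the tile BL -/
def clBL_J_t : Claim :=
  ⟨[(0, false), (1, true)], 0,
    [(4, 39, 2), (3, 40, 1)],
    (.rm 1 0 68702703592 (.stop 1))⟩

/-- claim J_r of the tile BL -/
def clBL_J_r : Claim :=
  ⟨[(0, false), (2, true)], 0,
    [(5, 38, 2), (4, 39, 2), (3, 40, 0), (6, 41, 1)],
    (.rm 2 1 16777216 (.rm 3 1 34326184112 (.rm 3 2 16777216 (.rm 3 0 34359738368 (.stop 3)))))⟩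

/-- goals of the tile BL -/
def goalsBL : List (List (ℕ × (ℕ × ℕ) × Bool)) :=
  [[(1, (4, 61), true)],
    [(2, (63, 41), true)]]

/-- data of the tile BL -/
def tileBL : TileData :=
  ⟨patBL, compsBL, [clBL_BL_c, clBL_J_t, clBL_J_r], goalsBL⟩

/-- pattern of the tile TF -/
def patTF : List ℕ :=
  [98304, 98304, 98304, 98304,
    98304, 98304, 98304, 98304,
    98304, 98304, 98304, 98304,
    98304, 98304, 98304, 98304,
    98304, 98304, 98304, 18446744073676013567,
    18446744073705373695, 33538048, 4177920, 0,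
    0, 0, 0, 0,
    0, 0, 0, 0,
    0, 0, 0, 0,
    0, 0, 0, 0,
    0, 0, 0, 0,
    0, 0, 0, 0,
    0, 0, 0, 0,
    0, 0, 0, 0,
    0, 0, 0, 0,
    0, 0]

/-- components of the tile TF -/
def compsTF : List (List (ℕ × ℕ)) :=
  [[(13, 20), (12, 20), (13, 19), (11, 20), (12, 19), (10, 20), (11, 19), (9, 20), (10, 19), (8, 20),
     (9, 19), (7, 20), (8, 19), (6, 20), (7, 19), (5, 20), (6, 19), (4, 20), (5, 19), (3, 20),
     (4, 19), (2, 20), (3, 19), (1, 20), (2, 19), (0, 20), (1, 19), (0, 19)],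
    [(63, 19), (62, 19), (63, 20), (61, 19), (62, 20), (60, 19), (61, 20), (59, 19), (60, 20), (58, 19),
     (59, 20), (57, 19), (58, 20), (56, 19), (57, 20), (55, 19), (56, 20), (54, 19), (55, 20), (53, 19),
     (54, 20), (52, 19), (53, 20), (51, 19), (52, 20), (50, 19), (51, 20), (49, 19), (50, 20), (48, 19),
     (49, 20), (47, 19), (48, 20), (46, 19), (47, 20), (45, 19), (46, 20), (44, 19), (45, 20), (43, 19),
     (44, 20), (42, 19), (43, 20), (41, 19), (42, 20), (40, 19), (41, 20), (39, 19), (40, 20), (38, 19),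
     (39, 20), (37, 19), (38, 20), (36, 19), (37, 20), (35, 19), (36, 20), (34, 19), (35, 20), (33, 19),
     (34, 20), (32, 19), (33, 20), (31, 19), (32, 20), (30, 19), (31, 20), (29, 19), (30, 20), (28, 19),
     (29, 20), (27, 19), (28, 20), (26, 19), (27, 20), (25, 19), (26, 20), (25, 20), (24, 20), (23, 20),
     (24, 21), (22, 20), (23, 21), (21, 22), (22, 21), (20, 22), (21, 21), (19, 22), (20, 21), (18, 22),
     (19, 21), (17, 22), (18, 21), (16, 22), (17, 21), (15, 22), (16, 21), (14, 22), (15, 21), (14, 21)],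
    [(16, 18), (15, 18), (16, 17), (15, 17), (16, 16), (15, 16), (16, 15), (15, 15), (16, 14), (15, 14),
     (16, 13), (15, 13), (16, 12), (15, 12), (16, 11), (15, 11), (16, 10), (15, 10), (16, 9), (15, 9),
     (16, 8), (15, 8), (16, 7), (15, 7), (16, 6), (15, 6), (16, 5), (15, 5), (16, 4), (15, 4),
     (16, 3), (15, 3), (16, 2), (15, 2), (16, 1), (15, 1), (16, 0), (15, 0)]]

/-- claim T_r of the tile TF -/
def clTF_T_r : Claim :=
  ⟨[(0, true), (1, false)], 0,
    [(13, 20, 1), (17, 21, 2), (14, 22, 2)],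
    (.rm 1 0 263882799054848 (.rm 2 0 35115654430720 (.rm 1 2 17523468394496 (.stop 1))))⟩

/-- claim T_b of the tile TF -/
def clTF_T_b : Claim :=
  ⟨[(0, true), (2, false)], 0,
    [(15, 18, 2), (11, 19, 1), (13, 20, 1), (14, 21, 0)],
    (.rm 1 0 1056964610 (.rm 2 0 7516193152 (.rm 3 0 67645738368 (.rm 0 2 412316860416 (.rm 1 2
    1073741824 (.rm 3 2 281406273912832 (.rm 0 3 68719476736 (.rm 1 3 66571997056 (.rm 1 0 4
    (.stop 1))))))))))⟩

/-- goals of the tile TF -/
def goalsTF : List (List (ℕ × (ℕ × ℕ) × Bool)) :=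
  [[(0, (0, 19), true), (1, (63, 19), false)],
    [(0, (0, 19), true), (2, (15, 0), false)]]

/-- data of the tile TF -/
def tileTF : TileData :=
  ⟨patTF, compsTF, [clTF_T_r, clTF_T_b], goalsTF⟩

/-- pattern of the tile TL -/
def patTL : List ℕ :=
  [48, 48, 48, 48,
    48, 48, 0, 0,
    0, 0, 0, 0,
    0, 0, 12, 12,
    12, 12, 12, 18446744073709551564,
    18446744073709551564, 12, 48, 48,
    48, 48, 48, 48,
    48, 48, 48, 48,
    48, 48, 48, 48,
    48, 48, 48, 48,
    48, 48, 48, 48,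
    48, 48, 48, 48,
    48, 48, 48, 48,
    48, 48, 48, 48,
    48, 56, 60, 0,
    0, 0]

/-- components of the tile TL -/
def compsTL : List (List (ℕ × ℕ)) :=
  [[(5, 22), (4, 22), (5, 23), (4, 23), (5, 24), (4, 24), (5, 25), (4, 25), (5, 26), (4, 26),
     (5, 27), (4, 27), (5, 28), (4, 28), (5, 29), (4, 29), (5, 30), (4, 30), (5, 31), (4, 31),
     (5, 32), (4, 32), (5, 33), (4, 33), (5, 34), (4, 34), (5, 35), (4, 35), (5, 36), (4, 36),
     (5, 37), (4, 37), (5, 38), (4, 38), (5, 39), (4, 39), (5, 40), (4, 40), (5, 41), (4, 41),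
     (5, 42), (4, 42), (5, 43), (4, 43), (5, 44), (4, 44), (5, 45), (4, 45), (5, 46), (4, 46),
     (5, 47), (4, 47), (5, 48), (4, 48), (5, 49), (4, 49), (5, 50), (4, 50), (5, 51), (4, 51),
     (5, 52), (4, 52), (5, 53), (4, 53), (5, 54), (4, 54), (5, 55), (4, 55), (5, 56), (5, 58),
     (4, 56), (4, 58), (5, 57), (3, 58), (4, 57), (3, 57)],
    [(63, 20), (62, 20), (63, 19), (61, 20), (62, 19), (60, 20), (61, 19), (59, 20), (60, 19), (58, 20),
     (59, 19), (57, 20), (58, 19), (56, 20), (57, 19), (55, 20), (56, 19), (54, 20), (55, 19), (53, 20),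
     (54, 19), (52, 20), (53, 19), (51, 20), (52, 19), (50, 20), (51, 19), (49, 20), (50, 19), (48, 20),
     (49, 19), (47, 20), (48, 19), (46, 20), (47, 19), (45, 20), (46, 19), (44, 20), (45, 19), (43, 20),
     (44, 19), (42, 20), (43, 19), (41, 20), (42, 19), (40, 20), (41, 19), (39, 20), (40, 19), (38, 20),
     (39, 19), (37, 20), (38, 19), (36, 20), (37, 19), (35, 20), (36, 19), (34, 20), (35, 19), (33, 20),
     (34, 19), (32, 20), (33, 19), (31, 20), (32, 19), (30, 20), (31, 19), (29, 20), (30, 19), (28, 20),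
     (29, 19), (27, 20), (28, 19), (26, 20), (27, 19), (25, 20), (26, 19), (24, 20), (25, 19), (23, 20),
     (24, 19), (22, 20), (23, 19), (21, 20), (22, 19), (20, 20), (21, 19), (19, 20), (20, 19), (18, 20),
     (19, 19), (17, 20), (18, 19), (16, 20), (17, 19), (15, 20), (16, 19), (14, 20), (15, 19), (13, 20),
     (14, 19), (12, 20), (13, 19), (11, 20), (12, 19), (10, 20), (11, 19), (9, 20), (10, 19), (8, 20),
     (9, 19), (7, 20), (8, 19), (6, 20), (7, 19), (6, 19)]]

/-- claim TL_c of the tile TL -/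
def clTL_TL_c : Claim :=
  ⟨[(0, false)], 2,
    [(2, 58, 0), (3, 58, 2)],
    (.rm 0 1 55112 (.stop 0))⟩

/-- claim TL_r of the tile TL -/
def clTL_TL_r : Claim :=
  ⟨[(0, true), (1, false)], 0,
    [(6, 20, 2), (3, 21, 0), (4, 22, 1), (5, 23, 1)],
    (.rm 1 0 520093750 (.rm 3 0 68585262112 (.rm 0 2 105553116266496 (.rm 1 2 281406260371456
    (.rm 0 1 140737488355328 (.rm 3 1 117440526 (.rm 3 0 512 (.stop 3))))))))⟩

/-- goals of the tile TL -/
def goalsTL : List (List (ℕ × (ℕ × ℕ) × Bool)) :=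
  [[(1, (63, 19), false)]]

/-- data of the tile TL -/
def tileTL : TileData :=
  ⟨patTL, compsTL, [clTL_TL_c, clTL_TL_r], goalsTL⟩

/-- the tiles -/
def tile : ℕ → TileData
  | 0 => tileC
  | 1 => tileO
  | 2 => tileA
  | 3 => tileB
  | 4 => tileBF
  | 5 => tileBL
  | 6 => tileTF
  | _ => tileTL

/-- the patterns -/
def pat (t : ℕ) : List ℕ := (tile t).pat

end Pool.Agent.W982.TA
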