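import Pool.Agent.W982.TA.Stm2

/-!
# Min-max area triangulations: the checker for the explicit families
-/

set_option autoImplicit false

namespace Pool.Agent.W982.TA

/-- an entry `n` of a family encodes a cell `(ex n, ey n)` and a half vector
`(ea n - 8, eb n - 8)` -/
def ex (n : ℕ) : ℕ := n % 64
/-- second coordinate of the cell -/
def ey (n : ℕ) : ℕ := n / 64 % 64
/-- first coordinate of the half vector plus 8 -/
def ea (n : ℕ) : ℕ := n / 4096 % 16
/-- second coordinate of the half vector plus 8 -/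
def eb (n : ℕ) : ℕ := n / 65536 % 16
/-- first coordinate of the first endpoint plus 8 -/
def px (n : ℕ) : ℕ := ex n + ea n
/-- second coordinate of the first endpoint plus 8 -/
def py (n : ℕ) : ℕ := ey n + eb n
/-- first coordinate of the second endpoint plus 8 -/
def qx (n : ℕ) : ℕ := ex n + 16 - ea n
/-- second coordinate of the second endpoint plus 8 -/
def qy (n : ℕ) : ℕ := ey n + 16 - eb n

/-- bounding boxes strictly separated (`8 ≤ eb` for all entries) -/
def sepN (m n : ℕ) : Bool :=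
  Nat.blt (py m) (qy n) || Nat.blt (py n) (qy m) ||
    Nat.blt (max (px m) (qx m)) (min (px n) (qx n)) ||
    Nat.blt (max (px n) (qx n)) (min (px m) (qx m))

/-- positive part of the determinant -/
def dp (a1 a2 b1 b2 c1 c2 : ℕ) : ℕ := a1 * b2 + b1 * c2 + c1 * a2
/-- negative part of the determinant -/
def dn (a1 a2 b1 b2 c1 c2 : ℕ) : ℕ := a1 * c2 + b1 * a2 + c1 * b2

/-- `c` and `d` are strictly on different sides of `a b` -/
def oppN (a1 a2 b1 b2 c1 c2 d1 d2 : ℕ) : Bool :=
  (Nat.blt (dp a1 a2 b1 b2 c1 c2) (dn a1 a2 b1 b2 c1 c2) &&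
    Nat.blt (dn a1 a2 b1 b2 d1 d2) (dp a1 a2 b1 b2 d1 d2)) ||
  (Nat.blt (dn a1 a2 b1 b2 c1 c2) (dp a1 a2 b1 b2 c1 c2) &&
    Nat.blt (dp a1 a2 b1 b2 d1 d2) (dn a1 a2 b1 b2 d1 d2))

/-- the segments of the entries cross -/
def crossN (m n : ℕ) : Bool :=
  oppN (px m) (py m) (qx m) (qy m) (px n) (py n) (qx n) (qy n) &&
    oppN (px n) (py n) (qx n) (qy n) (px m) (py m) (qx m) (qy m)

/-- there is an entry in `L` joining `b` and `c` -/
def hasN (L : List ℕ) (b1 b2 c1 c2 : ℕ) : Bool :=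
  L.any fun k => (Nat.beq (px k) b1 && Nat.beq (py k) b2 && Nat.beq (qx k) c1 && Nat.beq (qy k) c2) ||
    (Nat.beq (px k) c1 && Nat.beq (py k) c2 && Nat.beq (qx k) b1 && Nat.beq (qy k) b2)

/-- the segments `a b` and `c d` do not form a triangle of doubled area 4 with `b d` in `L` if
`a = c` -/
def triN (L : List ℕ) (a1 a2 b1 b2 c1 c2 d1 d2 : ℕ) : Bool :=
  !(Nat.beq a1 c1 && Nat.beq a2 c2 &&
    (Nat.beq (dp a1 a2 b1 b2 d1 d2) (dn a1 a2 b1 b2 d1 d2 + 4) ||
      Nat.beq (dn a1 a2 b1 b2 d1 d2) (dp a1 a2 b1 b2 d1 d2 + 4)) && hasN L b1 b2 d1 d2)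

/-- the check of a pair of entries -/
def pairOK (L : List ℕ) (m n : ℕ) : Bool :=
  sepN m n || (!crossN m n &&
    triN L (px m) (py m) (qx m) (qy m) (px n) (py n) (qx n) (qy n) &&
    triN L (px m) (py m) (qx m) (qy m) (qx n) (qy n) (px n) (py n) &&
    triN L (qx m) (qy m) (px m) (py m) (px n) (py n) (qx n) (qy n) &&
    triN L (qx m) (qy m) (px m) (py m) (qx n) (qy n) (px n) (py n))

/-- the check of all pairs -/
def pairsOK (L : List ℕ) : List ℕ → Bool
  | [] => true
  | n :: t => t.all (pairOK L n) && pairsOK L t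

end Pool.Agent.W982.TA
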