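import Pool.Agent.W982.TA.Grid

/-!
# Min-max area triangulations: faster checkers
-/

set_option autoImplicit false

namespace Pool.Agent.W982.TA

/-! ### families -/

/-- positive part of the determinant -/
def dpF (a1 a2 b1 b2 c1 c2 : ℕ) : ℕ :=
  Nat.add (Nat.add (Nat.mul a1 b2) (Nat.mul b1 c2)) (Nat.mul c1 a2)
/-- negative part of the determinant -/
def dnF (a1 a2 b1 b2 c1 c2 : ℕ) : ℕ :=
  Nat.add (Nat.add (Nat.mul a1 c2) (Nat.mul b1 a2)) (Nat.mul c1 b2)

/-- `c` and `d` are strictly on the same side of `a b` -/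
def sideF (a1 a2 b1 b2 c1 c2 d1 d2 : ℕ) : Bool :=
  bif Nat.ble (Nat.succ (dpF a1 a2 b1 b2 c1 c2)) (dnF a1 a2 b1 b2 c1 c2) then
    Nat.ble (Nat.succ (dpF a1 a2 b1 b2 d1 d2)) (dnF a1 a2 b1 b2 d1 d2)
  else bif Nat.ble (Nat.succ (dnF a1 a2 b1 b2 c1 c2)) (dpF a1 a2 b1 b2 c1 c2) then
    Nat.ble (Nat.succ (dnF a1 a2 b1 b2 d1 d2)) (dpF a1 a2 b1 b2 d1 d2)
  else false

/-- the code of the midpoint of `b` and `c` -/
def midC (b1 b2 c1 c2 : ℕ) : ℕ := ((b1 + c1) / 2 - 8) + 64 * ((b2 + c2) / 2 - 8)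

/-- there is an entry in `L` joining `b` and `c` -/
def hasF (L : List ℕ) (b1 b2 c1 c2 : ℕ) : Bool :=
  L.any fun k => bif Nat.beq (Nat.mod k 4096) (midC b1 b2 c1 c2) then
    (Nat.beq (px k) b1 && Nat.beq (py k) b2 && Nat.beq (qx k) c1 && Nat.beq (qy k) c2) ||
    (Nat.beq (px k) c1 && Nat.beq (py k) c2 && Nat.beq (qx k) b1 && Nat.beq (qy k) b2) else false

/-- as `triN` -/
def triF (L : List ℕ) (a1 a2 b1 b2 c1 c2 d1 d2 : ℕ) : Bool :=
  bif Nat.beq a1 c1 then (bif Nat.beq a2 c2 then
    (bif Nat.beq (dpF a1 a2 b1 b2 d1 d2) (Nat.add (dnF a1 a2 b1 b2 d1 d2) 4) ||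
      Nat.beq (dnF a1 a2 b1 b2 d1 d2) (Nat.add (dpF a1 a2 b1 b2 d1 d2) 4) then
        !hasF L b1 b2 d1 d2 else true) else true) else true

/-- as `pairOK` -/
def pairF (L : List ℕ) (m n : ℕ) : Bool :=
  sideF (px m) (py m) (qx m) (qy m) (px n) (py n) (qx n) (qy n) ||
    (sideF (px n) (py n) (qx n) (qy n) (px m) (py m) (qx m) (qy m) ||
    (!crossN m n &&
      triF L (px m) (py m) (qx m) (qy m) (px n) (py n) (qx n) (qy n) &&
      triF L (px m) (py m) (qx m) (qy m) (qx n) (qy n) (px n) (py n) &&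
      triF L (qx m) (qy m) (px m) (py m) (px n) (py n) (qx n) (qy n) &&
      triF L (qx m) (qy m) (px m) (py m) (qx n) (qy n) (px n) (py n)))

/-- sweep list: `sm` is a lower bound of `lo` for this and all later entries; `lo, hi, xl, xr` is the
bounding box of the entry `n` -/
inductive SL : Type
  | nil : SL
  | cons (sm lo hi xl xr n : ℕ) (t : SL) : SL

/-- the first field `sm` of the list is at least `s` -/
def smGe (s : ℕ) : SL → Bool
  | .nil => true
  | .cons sm _ _ _ _ _ _ => Nat.ble s sm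

/-- the sweep list belongs to the list of entries -/
def wfS : SL → List ℕ → Bool
  | .nil, [] => true
  | .cons sm lo hi xl xr n t, m :: l => Nat.beq n m && Nat.beq lo (qy n) && Nat.beq hi (py n) &&
      ((Nat.beq xl (px n) && Nat.beq xr (qx n) && Nat.ble xl xr) ||
        (Nat.beq xl (qx n) && Nat.beq xr (px n) && Nat.ble xl xr)) &&
      Nat.ble sm lo && smGe sm t && wfS t l
  | _, _ => false

/-- the pairs of the entry `n` with the entries of the sweep list -/
def swFrom (L : List ℕ) (hi xl xr n : ℕ) : SL → Bool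
  | .nil => true
  | .cons sm lo' _ xl' xr' n' t =>
    bif Nat.ble sm hi then
      ((bif Nat.ble lo' hi then (bif Nat.ble xl' xr then (bif Nat.ble xl xr' then pairF L n n'
        else true) else true) else true) && swFrom L hi xl xr n t)
    else true

/-- the sweep over the first `k` entries -/
def swK (L : List ℕ) : ℕ → SL → Bool
  | 0, _ => true
  | _ + 1, .nil => true
  | k + 1, .cons _ _ hi xl xr n t => swFrom L hi xl xr n t && swK L k t

/-- the sweep list without the first `k` entries -/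
def dropS : ℕ → SL → SL
  | 0, s => s
  | _ + 1, .nil => .nil
  | k + 1, .cons _ _ _ _ _ _ t => dropS k t

/-! ### claims -/

/-- the function holds for all positions of bits of `D`, from position `l` on -/
def bitsAll (f : ℕ → Bool) : ℕ → ℕ → ℕ → Bool
  | 0, _, _ => true
  | n + 1, l, D => bif Nat.beq D 0 then true else
      ((bif Nat.beq (Nat.mod D 2) 1 then f l else true) && bitsAll f n (Nat.succ l) (Nat.div D 2))

/-- as `rmOK` -/
def rmF (c d : Pt) (m D : ℕ) : Bool :=
  bitsAll (fun k => bitsAll (fun l => confl c k d l) 48 0 D) 48 0 m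

/-- as `check` -/
def checkF (cs : List Pt) : List ℕ → Cert → Bool
  | D, Cert.rm i j m c =>
    rmF (cs.getD i (0, 0)) (cs.getD j (0, 0)) m (D.getD j 0) && decide (i < D.length) &&
      decide (j < D.length) && checkF cs (D.set i (Nat.ldiff (D.getD i 0) m)) c
  | D, Cert.tri i k j l m n c =>
    decide (k < 24) && decide (l < 24) && decide (n < 24) && decide (i < D.length) &&
      decide (j < D.length) && decide (m < D.length) &&
      decide (D.getD j 0 = 2 ^ l) && decide (D.getD m 0 = 2 ^ n) &&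
      triOK (cs.getD i (0, 0)) (dv k) (cs.getD j (0, 0)) (dv l) (cs.getD m (0, 0)) (dv n) &&
      checkF cs (D.set i (Nat.ldiff (D.getD i 0) (2 ^ k))) c
  | D, Cert.split i m c₁ c₂ =>
    decide (i < D.length) && checkF cs (D.set i (Nat.land (D.getD i 0) m)) c₁ &&
      checkF cs (D.set i (Nat.ldiff (D.getD i 0) m)) c₂
  | D, Cert.stop i => decide (i < D.length) && decide (D.getD i 0 = 0)

end Pool.Agent.W982.TA
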