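import Pool.Agent.W982.TA.Fast

/-!
# Min-max area triangulations: soundness of the faster checker for families
-/

set_option autoImplicit false

namespace Pool.Agent.W982.TA

theorem w1_lt {a b : ℕ} (h : Nat.ble (Nat.succ a) b = true) : a < b := Nat.le_of_ble_eq_true h

theorem w1_side {a1 a2 b1 b2 c1 c2 d1 d2 : ℕ} (h : sideF a1 a2 b1 b2 c1 c2 d1 d2 = true) :
    (dp a1 a2 b1 b2 c1 c2 < dn a1 a2 b1 b2 c1 c2 ∧ dp a1 a2 b1 b2 d1 d2 < dn a1 a2 b1 b2 d1 d2) ∨
    (dn a1 a2 b1 b2 c1 c2 < dp a1 a2 b1 b2 c1 c2 ∧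
      dn a1 a2 b1 b2 d1 d2 < dp a1 a2 b1 b2 d1 d2) := by
  unfold sideF at h
  change (bif Nat.ble (Nat.succ (dp a1 a2 b1 b2 c1 c2)) (dn a1 a2 b1 b2 c1 c2) then
    Nat.ble (Nat.succ (dp a1 a2 b1 b2 d1 d2)) (dn a1 a2 b1 b2 d1 d2)
  else bif Nat.ble (Nat.succ (dn a1 a2 b1 b2 c1 c2)) (dp a1 a2 b1 b2 c1 c2) then
    Nat.ble (Nat.succ (dn a1 a2 b1 b2 d1 d2)) (dp a1 a2 b1 b2 d1 d2)
  else false) = true at h
  cases h1 : Nat.ble (Nat.succ (dp a1 a2 b1 b2 c1 c2)) (dn a1 a2 b1 b2 c1 c2) with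
  | true =>
    rw [h1] at h
    exact Or.inl ⟨w1_lt h1, w1_lt h⟩
  | false =>
    rw [h1] at h
    cases h2 : Nat.ble (Nat.succ (dn a1 a2 b1 b2 c1 c2)) (dp a1 a2 b1 b2 c1 c2) with
    | true =>
      rw [h2] at h
      exact Or.inr ⟨w1_lt h2, w1_lt h⟩
    | false =>
      rw [h2] at h
      simp at h

theorem w1_ne {a1 a2 b1 b2 c1 c2 : ℕ} (h : dp a1 a2 b1 b2 c1 c2 ≠ dn a1 a2 b1 b2 c1 c2) :
    ¬ (a1 = c1 ∧ a2 = c2) ∧ ¬ (b1 = c1 ∧ b2 = c2) := by
  constructor
  · rintro ⟨rfl, rfl⟩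
    apply h
    unfold dp dn
    ring
  · rintro ⟨rfl, rfl⟩
    apply h
    unfold dp dn
    ring

theorem w1_opp {a1 a2 b1 b2 c1 c2 d1 d2 : ℕ} (h : sideF a1 a2 b1 b2 c1 c2 d1 d2 = true) :
    oppN a1 a2 b1 b2 c1 c2 d1 d2 = false := by
  have hs := w1_side h
  by_contra hc
  rw [Bool.not_eq_false] at hc
  unfold oppN at hc
  simp only [Bool.or_eq_true, Bool.and_eq_true] at hc
  rcases hc with ⟨p, q⟩ | ⟨p, q⟩
  · have p' : dp a1 a2 b1 b2 c1 c2 < dn a1 a2 b1 b2 c1 c2 := w1_lt p
    have q' : dn a1 a2 b1 b2 d1 d2 < dp a1 a2 b1 b2 d1 d2 := w1_lt q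
    omega
  · have p' : dn a1 a2 b1 b2 c1 c2 < dp a1 a2 b1 b2 c1 c2 := w1_lt p
    have q' : dp a1 a2 b1 b2 d1 d2 < dn a1 a2 b1 b2 d1 d2 := w1_lt q
    omega

theorem w1_tri {L : List ℕ} {a1 a2 b1 b2 c1 c2 d1 d2 : ℕ} (h : ¬ (a1 = c1 ∧ a2 = c2)) :
    triN L a1 a2 b1 b2 c1 c2 d1 d2 = true := by
  unfold triN
  rw [Bool.not_eq_true']
  by_contra hc
  rw [Bool.not_eq_false] at hc
  simp only [Bool.and_eq_true] at hc
  exact h ⟨Nat.eq_of_beq_eq_true hc.1.1.1, Nat.eq_of_beq_eq_true hc.1.1.2⟩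

theorem w1_all {L : List ℕ} {m n : ℕ} (hc : crossN m n = false)
    (h1 : ¬ (px m = px n ∧ py m = py n)) (h2 : ¬ (px m = qx n ∧ py m = qy n))
    (h3 : ¬ (qx m = px n ∧ qy m = py n)) (h4 : ¬ (qx m = qx n ∧ qy m = qy n)) :
    pairOK L m n = true := by
  unfold pairOK
  rw [hc, w1_tri h1, w1_tri h2, w1_tri h3, w1_tri h4]
  simp

theorem w1_has {L : List ℕ} {b1 b2 c1 c2 : ℕ} (h : hasN L b1 b2 c1 c2 = true) :
    hasF L b1 b2 c1 c2 = true := by
  unfold hasN at h
  unfold hasF
  rw [List.any_eq_true] at h ⊢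
  obtain ⟨k, hk, h⟩ := h
  refine ⟨k, hk, ?_⟩
  have hm : Nat.beq (Nat.mod k 4096) (midC b1 b2 c1 c2) = true := by
    have key : (px k = b1 ∧ py k = b2 ∧ qx k = c1 ∧ qy k = c2) ∨
        (px k = c1 ∧ py k = c2 ∧ qx k = b1 ∧ qy k = b2) := by
      simp only [Bool.or_eq_true, Bool.and_eq_true] at h
      rcases h with ⟨⟨⟨p, q⟩, r⟩, s⟩ | ⟨⟨⟨p, q⟩, r⟩, s⟩
      · exact Or.inl ⟨Nat.eq_of_beq_eq_true p, Nat.eq_of_beq_eq_true q, Nat.eq_of_beq_eq_true r,
          Nat.eq_of_beq_eq_true s⟩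
      · exact Or.inr ⟨Nat.eq_of_beq_eq_true p, Nat.eq_of_beq_eq_true q, Nat.eq_of_beq_eq_true r,
          Nat.eq_of_beq_eq_true s⟩
    have e : k % 4096 = midC b1 b2 c1 c2 := by
      unfold midC
      unfold px py qx qy ex ey ea eb at key
      omega
    change Nat.beq (k % 4096) (midC b1 b2 c1 c2) = true
    rw [e]
    exact Nat.beq_refl _
  rw [hm]
  exact h

theorem w1_triF {L : List ℕ} {a1 a2 b1 b2 c1 c2 d1 d2 : ℕ}
    (h : triF L a1 a2 b1 b2 c1 c2 d1 d2 = true) : triN L a1 a2 b1 b2 c1 c2 d1 d2 = true := by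
  unfold triN
  rw [Bool.not_eq_true']
  by_contra hc
  rw [Bool.not_eq_false] at hc
  simp only [Bool.and_eq_true] at hc
  obtain ⟨⟨⟨p, q⟩, r⟩, s⟩ := hc
  unfold triF at h
  rw [p, q] at h
  have r' : (Nat.beq (dpF a1 a2 b1 b2 d1 d2) (Nat.add (dnF a1 a2 b1 b2 d1 d2) 4) ||
      Nat.beq (dnF a1 a2 b1 b2 d1 d2) (Nat.add (dpF a1 a2 b1 b2 d1 d2) 4)) = true := r
  rw [r', w1_has s] at h
  simp at h

theorem w1a (L : List ℕ) (m n : ℕ) (h : pairF L m n = true) : pairOK L m n = true := by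
  unfold pairF at h
  rw [Bool.or_eq_true, Bool.or_eq_true] at h
  rcases h with h | h | h
  · have hs := w1_side h
    have n1 := w1_ne (show dp (px m) (py m) (qx m) (qy m) (px n) (py n) ≠
      dn (px m) (py m) (qx m) (qy m) (px n) (py n) by omega)
    have n2 := w1_ne (show dp (px m) (py m) (qx m) (qy m) (qx n) (qy n) ≠
      dn (px m) (py m) (qx m) (qy m) (qx n) (qy n) by omega)
    refine w1_all ?_ n1.1 n2.1 n1.2 n2.2
    unfold crossN
    rw [w1_opp h]
    rfl
  · have hs := w1_side h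
    have n1 := w1_ne (show dp (px n) (py n) (qx n) (qy n) (px m) (py m) ≠
      dn (px n) (py n) (qx n) (qy n) (px m) (py m) by omega)
    have n2 := w1_ne (show dp (px n) (py n) (qx n) (qy n) (qx m) (qy m) ≠
      dn (px n) (py n) (qx n) (qy n) (qx m) (qy m) by omega)
    refine w1_all ?_ (fun e => n1.1 ⟨e.1.symm, e.2.symm⟩) (fun e => n1.2 ⟨e.1.symm, e.2.symm⟩)
      (fun e => n2.1 ⟨e.1.symm, e.2.symm⟩) (fun e => n2.2 ⟨e.1.symm, e.2.symm⟩)
    unfold crossN
    rw [w1_opp h]
    simp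
  · simp only [Bool.and_eq_true] at h
    obtain ⟨⟨⟨⟨h0, h1⟩, h2⟩, h3⟩, h4⟩ := h
    unfold pairOK
    rw [h0, w1_triF h1, w1_triF h2, w1_triF h3, w1_triF h4]
    simp


theorem w2bb (L : List ℕ) (a b : ℕ) (S : SL) (h1 : swK L a S = true)
    (h2 : swK L b (dropS a S) = true) : swK L (a + b) S = true := by
  induction a generalizing S with
  | zero =>
    rw [Nat.zero_add]
    exact h2
  | succ a ih =>
    rw [show a + 1 + b = (a + b) + 1 by omega]
    cases S with
    | nil => rfl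
    | cons sm lo hi xl xr n t =>
      unfold swK at h1 ⊢
      rw [Bool.and_eq_true] at h1 ⊢
      exact ⟨h1.1, ih t h1.2 h2⟩

theorem w2_lo {s : ℕ} : ∀ (S : SL) (l : List ℕ), wfS S l = true → smGe s S = true →
    ∀ m ∈ l, s ≤ qy m
  | .nil, [], _, _, m, hm => by simp at hm
  | .nil, _ :: _, h, _, _, _ => by simp [wfS] at h
  | .cons .., [], h, _, _, _ => by simp [wfS] at h
  | .cons sm lo hi xl xr n t, m0 :: l, h, hs, m, hm => by
    unfold wfS at h
    simp only [Bool.and_eq_true] at h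
    obtain ⟨⟨⟨⟨⟨⟨h1, h2⟩, h3⟩, h4⟩, h5⟩, h6⟩, h7⟩ := h
    have e1 := Nat.eq_of_beq_eq_true h1
    have e2 := Nat.eq_of_beq_eq_true h2
    have e5 := Nat.le_of_ble_eq_true h5
    have hs' : s ≤ sm := Nat.le_of_ble_eq_true hs
    rcases List.mem_cons.1 hm with rfl | hm
    · rw [← e1, ← e2]
      omega
    · have h6' : smGe s t = true := by
        cases t with
        | nil => rfl
        | cons sm' _ _ _ _ _ _ =>
          have : sm ≤ sm' := Nat.le_of_ble_eq_true h6
          exact Nat.ble_eq_true_of_le (hs'.trans this)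
      exact w2_lo t l h7 h6' m hm

theorem w2_from (w1 : ∀ L m n, pairF L m n = true → pairOK L m n = true) (L : List ℕ)
    (n xl xr : ℕ)
    (hx : (xl = px n ∧ xr = qx n ∧ xl ≤ xr) ∨ (xl = qx n ∧ xr = px n ∧ xl ≤ xr)) :
    ∀ (S : SL) (l : List ℕ), wfS S l = true → swFrom L (py n) xl xr n S = true →
    ∀ m ∈ l, pairOK L n m = true
  | .nil, [], _, _, m, hm => by simp at hm
  | .nil, _ :: _, h, _, _, _ => by simp [wfS] at h
  | .cons .., [], h, _, _, _ => by simp [wfS] at h
  | .cons sm lo hi' xl' xr' n' t, m0 :: l, h, hs, m, hm => by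
    have hw := h
    unfold wfS at h
    simp only [Bool.and_eq_true] at h
    obtain ⟨⟨⟨⟨⟨⟨h1, h2⟩, h3⟩, h4⟩, h5⟩, h6⟩, h7⟩ := h
    have e1 := Nat.eq_of_beq_eq_true h1
    have e2 := Nat.eq_of_beq_eq_true h2
    unfold swFrom at hs
    have hsep : ∀ m, sepN n m = true → pairOK L n m = true := by
      intro m hm
      unfold pairOK
      rw [hm]
      rfl
    cases hb : Nat.ble sm (py n) with
    | false =>
      have hlt : py n < sm := by
        by_contra hc
        rw [Nat.ble_eq_true_of_le (by omega)] at hb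
        exact absurd hb (by decide)
      have hge : smGe sm (SL.cons sm lo hi' xl' xr' n' t) = true :=
        Nat.ble_eq_true_of_le le_rfl
      have := w2_lo _ _ hw hge m hm
      apply hsep
      unfold sepN
      have h8 : Nat.blt (py n) (qy m) = true := Nat.ble_eq_true_of_le (by omega)
      rw [h8]
      rfl
    | true =>
      rw [hb] at hs
      simp only [cond_true, Bool.and_eq_true] at hs
      obtain ⟨hs1, hs2⟩ := hs
      rcases List.mem_cons.1 hm with rfl | hm
      · rw [← e1]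
        cases hb2 : Nat.ble lo (py n) with
        | false =>
          have hlt : py n < lo := by
            by_contra hc
            rw [Nat.ble_eq_true_of_le (by omega)] at hb2
            exact absurd hb2 (by decide)
          apply hsep
          unfold sepN
          have h8 : Nat.blt (py n) (qy n') = true := Nat.ble_eq_true_of_le (by omega)
          rw [h8]
          rfl
        | true =>
          rw [hb2] at hs1
          simp only [cond_true] at hs1
          have hx' : (xl' = px n' ∧ xr' = qx n' ∧ xl' ≤ xr') ∨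
              (xl' = qx n' ∧ xr' = px n' ∧ xl' ≤ xr') := by
            rw [Bool.or_eq_true, Bool.and_eq_true, Bool.and_eq_true, Bool.and_eq_true,
              Bool.and_eq_true] at h4
            rcases h4 with ⟨⟨a, b⟩, c⟩ | ⟨⟨a, b⟩, c⟩
            · exact Or.inl ⟨Nat.eq_of_beq_eq_true a, Nat.eq_of_beq_eq_true b,
                Nat.le_of_ble_eq_true c⟩
            · exact Or.inr ⟨Nat.eq_of_beq_eq_true a, Nat.eq_of_beq_eq_true b,
                Nat.le_of_ble_eq_true c⟩
          cases hb3 : Nat.ble xl' xr with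
          | false =>
            have hlt : xr < xl' := by
              by_contra hc
              rw [Nat.ble_eq_true_of_le (by omega)] at hb3
              exact absurd hb3 (by decide)
            apply hsep
            unfold sepN
            have h8 : Nat.blt (max (px n) (qx n)) (min (px n') (qx n')) = true := by
              apply Nat.ble_eq_true_of_le
              omega
            rw [h8]
            simp
          | true =>
            rw [hb3] at hs1
            simp only [cond_true] at hs1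
            cases hb4 : Nat.ble xl xr' with
            | false =>
              have hlt : xr' < xl := by
                by_contra hc
                rw [Nat.ble_eq_true_of_le (by omega)] at hb4
                exact absurd hb4 (by decide)
              apply hsep
              unfold sepN
              have h8 : Nat.blt (max (px n') (qx n')) (min (px n) (qx n)) = true := by
                apply Nat.ble_eq_true_of_le
                omega
              rw [h8]
              simp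
            | true =>
              rw [hb4] at hs1
              exact w1 L n n' hs1
      · exact w2_from w1 L n xl xr hx t l h7 hs2 m hm

theorem w2_pf (L : List ℕ) (n : ℕ) : ∀ l : List ℕ, (∀ m ∈ l, pairOK L n m = true) →
    pairsFrom L n l = true
  | [], _ => rfl
  | m :: l, h => by
    unfold pairsFrom
    rw [h m (by simp), w2_pf L n l fun m' hm' => h m' (List.mem_cons_of_mem _ hm')]
    simp

theorem w2a (w1 : ∀ L m n, pairF L m n = true → pairOK L m n = true) (L : List ℕ) :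
    ∀ (S : SL) (l : List ℕ), wfS S l = true → swK L l.length S = true → pairsOK2 L l = true
  | .nil, [], _, _ => rfl
  | .nil, _ :: _, h, _ => by simp [wfS] at h
  | .cons .., [], h, _ => by simp [wfS] at h
  | .cons sm lo hi xl xr n t, m0 :: l, h, hs => by
    unfold wfS at h
    simp only [Bool.and_eq_true] at h
    obtain ⟨⟨⟨⟨⟨⟨h1, h2⟩, h3⟩, h4⟩, h5⟩, h6⟩, h7⟩ := h
    have e1 := Nat.eq_of_beq_eq_true h1
    have e3 := Nat.eq_of_beq_eq_true h3
    rw [List.length_cons] at hs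
    unfold swK at hs
    rw [Bool.and_eq_true] at hs
    unfold pairsOK2
    rw [Bool.and_eq_true]
    refine ⟨?_, w2a w1 L t l h7 hs.2⟩
    apply w2_pf
    have hx : (xl = px n ∧ xr = qx n ∧ xl ≤ xr) ∨ (xl = qx n ∧ xr = px n ∧ xl ≤ xr) := by
      rw [Bool.or_eq_true, Bool.and_eq_true, Bool.and_eq_true, Bool.and_eq_true,
        Bool.and_eq_true] at h4
      rcases h4 with ⟨⟨a, b⟩, c⟩ | ⟨⟨a, b⟩, c⟩
      · exact Or.inl ⟨Nat.eq_of_beq_eq_true a, Nat.eq_of_beq_eq_true b, Nat.le_of_ble_eq_true c⟩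
      · exact Or.inr ⟨Nat.eq_of_beq_eq_true a, Nat.eq_of_beq_eq_true b, Nat.le_of_ble_eq_true c⟩
    rw [← e1]
    have := hs.1
    rw [e3] at this
    exact w2_from w1 L n xl xr hx t l h7 this

end Pool.Agent.W982.TA
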