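import Pool.Agent.W982.TA.Defs

/-!
# Min-max area triangulations of rational point sets: definitions
-/

set_option autoImplicit false

namespace Pool.Agent.W982.TA.Q

/-- a point with rational coordinates as a point of the plane -/
def pt (p : ℚ × ℚ) : ℝ × ℝ := ((p.1 : ℝ), (p.2 : ℝ))

/-- the relative interior of the straight-line segment `p q` -/
def ri (p q : ℚ × ℚ) : Set (ℝ × ℝ) := openSegment ℝ (pt p) (pt q)

/-- a straight-line segment with different endpoints in `S` whose relative interior contains no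
point of `S` -/
def IsSeg (S : Finset (ℚ × ℚ)) (p q : ℚ × ℚ) : Prop :=
  p ∈ S ∧ q ∈ S ∧ p ≠ q ∧ ∀ r ∈ S, pt r ∉ ri p q

/-- a triangulation of `S`: a maximal family of pairwise non-crossing straight-line segments
whose endpoints lie in `S` and whose relative interiors contain no point of `S` -/
structure IsTriangulation (S : Finset (ℚ × ℚ)) (T : Set (Sym2 (ℚ × ℚ))) : Prop where
  seg : ∀ p q, s(p, q) ∈ T → IsSeg S p q
  noncross : ∀ p q p' q', s(p, q) ∈ T → s(p', q') ∈ T → s(p, q) ≠ s(p', q') →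
    Disjoint (ri p q) (ri p' q')
  maximal : ∀ p q, IsSeg S p q →
    (∀ p' q', s(p', q') ∈ T → s(p, q) ≠ s(p', q') → Disjoint (ri p q) (ri p' q')) →
    s(p, q) ∈ T

/-- the area of the triangle `a b c` -/
def area (a b c : ℚ × ℚ) : ℚ :=
  |(b.1 - a.1) * (c.2 - a.2) - (b.2 - a.2) * (c.1 - a.1)| / 2

/-- a triangle of the triangulation `T` of `S`: its three sides belong to `T`, it is not
degenerate, and the closed triangle contains no further point of `S` -/
def IsTriangle (S : Finset (ℚ × ℚ)) (T : Set (Sym2 (ℚ × ℚ))) (a b c : ℚ × ℚ) : Prop :=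
  s(a, b) ∈ T ∧ s(b, c) ∈ T ∧ s(a, c) ∈ T ∧ area a b c ≠ 0 ∧
    ∀ r ∈ S, pt r ∈ convexHull ℝ {pt a, pt b, pt c} → r = a ∨ r = b ∨ r = c

/-- some triangulation of `S` has all triangle areas at most `A` -/
def MinMaxArea (S : Finset (ℚ × ℚ)) (A : ℚ) : Prop :=
  ∃ T, IsTriangulation S T ∧ ∀ a b c, IsTriangle S T a b c → area a b c ≤ A

/-- the rational point of an integer point -/
def qt (p : Pt) : ℚ × ℚ := ((p.1 : ℚ), (p.2 : ℚ))

/-- integer and rational points -/
def TaskQ1 : Prop := ∀ (S : Finset Pt) (A : ℚ), TA.MinMaxArea S A ↔ MinMaxArea (S.image qt) A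

end Pool.Agent.W982.TA.Q
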