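import Pool.Agent.W982.TA.Grid
import Pool.Agent.W982.TA.Stm
import Pool.Agent.W982.TA.Rat

/-!
# Min-max area triangulations: assembly
-/

set_option autoImplicit false

namespace Pool.Agent.W982.TA

open Pool.Agent.NPC

/-- the list of rational points of the instance -/
def Qlist (φ : List Cl) : List (ℚ × ℚ) := (Slist φ).map Q.qt

theorem qt_inj : Function.Injective Q.qt := by
  intro p q h
  unfold Q.qt at h
  rw [Prod.mk.injEq] at h
  exact Prod.ext (by exact_mod_cast h.1) (by exact_mod_cast h.2)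

/-- correctness of the instance -/
theorem inst_iff (h14 : TaskG14) (h15 : TaskG15) (i2 : TaskI2) (i3 : TaskI3) (i6 : TaskI6)
    (j3 : TaskJ3) (j4 : TaskJ4) (q1 : Q.TaskQ1) (hP : PatsOK) (hT : TilesOK) (hF : FamsOK)
    (φ : List Cl) (h0 : φ ≠ []) (hb : Bounded3 φ) :
    SAT3 φ ↔ Q.MinMaxArea (Qlist φ).toFinset 1 := by
  have hX : (0 : ℤ) < 64 * nC φ + 7 := by omega
  have hY : (0 : ℤ) < 62 * nR φ - 1 := by unfold nR; push_cast; omega
  have hM := i2 hP φ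
  have e1 : (Qlist φ).toFinset = (box (64 * nC φ + 7) (62 * nR φ - 1) \ Mset φ).image Q.qt := by
    rw [← (i3 hP φ).2]
    ext p
    simp [Qlist]
  rw [e1, ← q1]
  constructor
  · intro h
    obtain ⟨e, he⟩ := i6 hP hF φ h0 hb h
    exact h15 _ _ _ e hX hY hM he
  · intro h
    obtain ⟨e, he⟩ := h14 _ _ _ hX hY hM h
    obtain ⟨a, b, hs⟩ := j3 hP hT φ e h0 he
    exact j4 φ a b hb hs

theorem mem_Qlist (i2 : TaskI2) (i3 : TaskI3) (hP : PatsOK) (φ : List Cl) (x y : ℤ) (hx : 0 ≤ x)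
    (hy : 0 ≤ y) (hx' : x ≤ 64 * nC φ + 7) (hy' : y ≤ 62 * nR φ - 1) (h : x = 0 ∨ y = 0) :
    ((x : ℚ), (y : ℚ)) ∈ Qlist φ := by
  unfold Qlist
  rw [List.mem_map]
  refine ⟨(x, y), ?_, rfl⟩
  rw [← List.mem_toFinset, (i3 hP φ).2, Finset.mem_sdiff]
  constructor
  · simp [box, hx, hy, hx', hy']
  · intro hm
    have := i2 hP φ hm
    simp only [ibox, Finset.mem_product, Finset.mem_Ioo] at this
    omega

theorem Qlist_nodup (i3 : TaskI3) (hP : PatsOK) (φ : List Cl) : (Qlist φ).Nodup :=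
  (i3 hP φ).1.map qt_inj

theorem Qlist_not_collinear (i2 : TaskI2) (i3 : TaskI3) (hP : PatsOK) (φ : List Cl) :
    ¬ Collinear ℝ {x | ∃ p ∈ Qlist φ, x = Q.pt p} := by
  intro h
  have m0 : (((0 : ℤ) : ℚ), ((0 : ℤ) : ℚ)) ∈ Qlist φ :=
    mem_Qlist i2 i3 hP φ 0 0 le_rfl le_rfl (by omega) (by unfold nR; push_cast; omega) (Or.inl rfl)
  have m1 : (((1 : ℤ) : ℚ), ((0 : ℤ) : ℚ)) ∈ Qlist φ :=
    mem_Qlist i2 i3 hP φ 1 0 (by omega) le_rfl (by omega) (by unfold nR; push_cast; omega)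
      (Or.inr rfl)
  have m2 : (((0 : ℤ) : ℚ), ((1 : ℤ) : ℚ)) ∈ Qlist φ :=
    mem_Qlist i2 i3 hP φ 0 1 le_rfl (by omega) (by omega) (by unfold nR; push_cast; omega)
      (Or.inl rfl)
  have hm : Q.pt (((0 : ℤ) : ℚ), ((0 : ℤ) : ℚ)) ∈ {x | ∃ p ∈ Qlist φ, x = Q.pt p} := ⟨_, m0, rfl⟩
  rw [collinear_iff_of_mem hm] at h
  obtain ⟨v, hv⟩ := h
  obtain ⟨r, hr⟩ := hv _ ⟨_, m1, rfl⟩
  obtain ⟨s, hs⟩ := hv _ ⟨_, m2, rfl⟩
  simp only [Q.pt, vadd_eq_add, Prod.ext_iff, Prod.fst_add, Prod.snd_add, Prod.smul_fst,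
    Prod.smul_snd, smul_eq_mul] at hr hs
  push_cast at hr hs
  obtain ⟨r1, r2⟩ := hr
  obtain ⟨s1, s2⟩ := hs
  have hr0 : r ≠ 0 := by rintro rfl; norm_num at r1
  have : v.2 = 0 := by
    rcases mul_eq_zero.1 (show r * v.2 = 0 by linarith) with h | h
    · exact absurd h hr0
    · exact h
  rw [this] at s2
  norm_num at s2

theorem Qlist_grid (i2 : TaskI2) (i3 : TaskI3) (hP : PatsOK) (φ : List Cl) :
    ∀ p ∈ Qlist φ, ∃ a b : ℕ, a < (Qlist φ).length ∧ b < (Qlist φ).length ∧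
      p = ((a : ℚ), (b : ℚ)) := by
  have hlen : ∀ (n : ℕ) (g : ℕ → ℤ × ℤ), Function.Injective g →
      (∀ x < n, (((g x).1 : ℚ), ((g x).2 : ℚ)) ∈ Qlist φ) → n ≤ (Qlist φ).length := by
    intro n g hg h
    have h1 : ((List.range n).map fun x => (((g x).1 : ℚ), ((g x).2 : ℚ))).Nodup := by
      refine List.Nodup.map ?_ List.nodup_range
      intro a b hab
      apply hg
      simp only [Prod.mk.injEq, Int.cast_inj] at hab
      exact Prod.ext hab.1 hab.2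
    have h2 : ((List.range n).map fun x => (((g x).1 : ℚ), ((g x).2 : ℚ))) ⊆ Qlist φ := by
      intro p hp
      rw [List.mem_map] at hp
      obtain ⟨x, hx, rfl⟩ := hp
      exact h x (List.mem_range.1 hx)
    have := (h1.subperm h2).length_le
    simpa using this
  have l1 : 64 * nC φ + 8 ≤ (Qlist φ).length := by
    refine hlen _ (fun x => ((x : ℤ), 0)) ?_ ?_
    · intro a b h
      simpa using h
    · intro x hx
      exact mem_Qlist i2 i3 hP φ x 0 (by omega) le_rfl (by omega) (by unfold nR; push_cast; omega)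
        (Or.inr rfl)
  have l2 : 62 * nR φ ≤ (Qlist φ).length := by
    refine hlen _ (fun x => (0, (x : ℤ))) ?_ ?_
    · intro a b h
      simpa using h
    · intro x hx
      exact mem_Qlist i2 i3 hP φ 0 x le_rfl (by omega) (by omega) (by omega) (Or.inl rfl)
  intro p hp
  unfold Qlist at hp
  rw [List.mem_map] at hp
  obtain ⟨q, hq, rfl⟩ := hp
  rw [← List.mem_toFinset, (i3 hP φ).2, Finset.mem_sdiff] at hq
  have hb := hq.1
  simp only [box, Finset.mem_product, Finset.mem_Icc] at hb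
  refine ⟨q.1.toNat, q.2.toNat, by omega, by omega, ?_⟩
  have e1 : ((q.1.toNat : ℕ) : ℤ) = q.1 := Int.toNat_of_nonneg hb.1.1
  have e2 : ((q.2.toNat : ℕ) : ℤ) = q.2 := Int.toNat_of_nonneg hb.2.1
  unfold Q.qt
  rw [Prod.mk.injEq]
  exact ⟨by exact_mod_cast (congrArg (Int.cast : ℤ → ℚ) e1).symm,
    by exact_mod_cast (congrArg (Int.cast : ℤ → ℚ) e2).symm⟩

/-- the hardness theorem -/
theorem hard (h14 : TaskG14) (h15 : TaskG15) (i2 : TaskI2) (i3 : TaskI3) (i6 : TaskI6)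
    (j3 : TaskJ3) (j4 : TaskJ4) (q1 : Q.TaskQ1) (hP : PatsOK) (hT : TilesOK) (hF : FamsOK)
    (r2 : Poly (fun φ : List Cl => (Qlist φ, (1 : ℚ)))) (L : Set (List Bool)) (hL : InNP L) :
    ∃ f : List Bool → List (ℚ × ℚ), PolyTime (fun w => bits (f w, (1 : ℚ))) ∧ ∀ w,
      (f w).Nodup ∧
      (∀ p ∈ f w, ∃ a b : ℕ, a < (f w).length ∧ b < (f w).length ∧ p = ((a : ℚ), (b : ℚ))) ∧
      ¬ Collinear ℝ {x | ∃ p ∈ f w, x = Q.pt p} ∧
      (w ∈ L ↔ Q.MinMaxArea (f w).toFinset 1) := by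
  obtain ⟨g, hg, hpr, hgL⟩ := hardPr_SAT3b L hL
  refine ⟨fun w => Qlist (g w), PC.toPolyTime_bits r2 g hg, fun w => ⟨Qlist_nodup i3 hP _,
    Qlist_grid i2 i3 hP _, Qlist_not_collinear i2 i3 hP _, ?_⟩⟩
  rw [hgL w]
  exact inst_iff h14 h15 i2 i3 i6 j3 j4 q1 hP hT hF _ (hpr w).2.2 (hpr w).2.1

end Pool.Agent.W982.TA
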