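import Pool.Agent.W982.TA.Chk

/-!
# Min-max area triangulations: statements about the local checker
-/

set_option autoImplicit false

namespace Pool.Agent.W982.TA

/-- classification of the normal primitive vectors -/
def TaskS1 : Prop := ∀ v : Pt, Norm v → Int.gcd v.1 v.2 = 1 → ∃ k < 48, HasT k v

/-- signs and sizes of the vectors of type `k` -/
def TaskS2 : Prop := ∀ k < 48, ∀ v : Pt, HasT k v →
  (0 < v.1 * v.2 → sgT k = 1) ∧ (v.1 * v.2 < 0 → sgT k = 2) ∧
    minA k ≤ v.1.natAbs ∧ minB k ≤ v.2.natAbs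

/-- soundness of `crossCS` -/
def TaskS3 : Prop := ∀ (u w d v : Pt) (i j : ℤ), 1 ≤ i → 1 ≤ j → crossCS u w d v = true →
  PCross (-(i * u.1 + j * w.1), -(i * u.2 + j * w.2)) (i * u.1 + j * w.1, i * u.2 + j * w.2)
    (d.1 - v.1, d.2 - v.2) (d.1 + v.1, d.2 + v.2)

/-- soundness of `crossCC` -/
def TaskS4 : Prop := ∀ (u w d u' w' : Pt) (i j i' j' : ℤ), 1 ≤ i → 1 ≤ j → 1 ≤ i' → 1 ≤ j' →
  crossCC u w d u' w' = true →
  PCross (-(i * u.1 + j * w.1), -(i * u.2 + j * w.2)) (i * u.1 + j * w.1, i * u.2 + j * w.2)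
    (d.1 - (i' * u'.1 + j' * w'.1), d.2 - (i' * u'.2 + j' * w'.2))
    (d.1 + (i' * u'.1 + j' * w'.1), d.2 + (i' * u'.2 + j' * w'.2))

/-- soundness of `confl` -/
def TaskS5 : Prop := ∀ (o c d : Pt) (k l : ℕ) (v w : Pt), HasT k v → HasT l w →
  confl c k d l = true → PCross (o + c - v) (o + c + v) (o + d - w) (o + d + w)

/-- soundness of `triOK` -/
def TaskS6 : Prop := ∀ (o c u d v f w : Pt), triOK c u d v f w = true →
  ∃ a b c' : Pt, s(o + c - u, o + c + u) = s(b, c') ∧ s(o + d - v, o + d + v) = s(a, c') ∧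
    s(o + f - w, o + f + w) = s(a, b) ∧ |dt a b c'| = 4

/-- soundness of `check` -/
def TaskS7 : Prop := ∀ (X Y : ℤ) (M : Finset Pt) (e : Pt → Pt) (o : Pt) (cs : List Pt)
  (D : List ℕ) (cert : Cert), Medial X Y M e →
  (∀ i < D.length, o + cs.getD i (0, 0) ∈ M) →
  (∀ i < D.length, ∃ k < 48, (D.getD i 0).testBit k = true ∧ HasT k (e (o + cs.getD i (0, 0)))) →
  check cs D cert = true → False

/-- bits of the initial domain -/
def TaskS8 : Prop := ∀ (P : List ℕ) (bd : ℕ) (c : ℕ × ℕ × ℕ) (k : ℕ), k < 48 →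
  (dom0 P bd c).testBit k = allow P bd c.1 c.2.1 c.2.2 k

/-- soundness of `allow` -/
def TaskS9 : Prop := ∀ (X Y : ℤ) (M : Finset Pt) (e : Pt → Pt) (o : Pt) (P : List ℕ) (bd : ℕ)
  (c : ℕ × ℕ × ℕ) (k : ℕ), Medial X Y M e → HasP P o M → BdOK bd o Y → SgOK e o c →
  missP P ((c.1 : ℤ), (c.2.1 : ℤ)) = true → c.2.1 < 62 → k < 48 →
  HasT k (e (o.1 + c.1, o.2 + c.2.1)) → allow P bd c.1 c.2.1 c.2.2 k = true

/-- soundness of `certOK` -/
def TaskS10 : Prop := ∀ (X Y : ℤ) (M : Finset Pt) (e : Pt → Pt) (o : Pt) (P : List ℕ) (bd : ℕ)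
  (cells : List (ℕ × ℕ × ℕ)) (cert : Cert), Medial X Y M e → HasP P o M → BdOK bd o Y →
  (∀ c ∈ cells, SgOK e o c) → certOK P bd cells cert = true → False

/-- adjacent blocky cells have the same sign -/
def TaskS11 : Prop := ∀ (X Y : ℤ) (M : Finset Pt) (e : Pt → Pt) (p q : Pt), Medial X Y M e →
  p ∈ M → q ∈ M →
  ((p.1 + 1, p.2) ∈ M ∨ (p.1 - 1, p.2) ∈ M) → ((p.1, p.2 + 1) ∈ M ∨ (p.1, p.2 - 1) ∈ M) →
  ((q.1 + 1, q.2) ∈ M ∨ (q.1 - 1, q.2) ∈ M) → ((q.1, q.2 + 1) ∈ M ∨ (q.1, q.2 - 1) ∈ M) →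
  adjC p q = true → 0 < sg e p * sg e q

/-- the cells of a component all have the same sign -/
def TaskS12 : Prop := ∀ (X Y : ℤ) (M : Finset Pt) (e : Pt → Pt) (o : Pt) (P : List ℕ)
  (l : List (ℕ × ℕ)), Medial X Y M e → HasP P o M → compOK P l = true →
  ∃ b : Bool, ∀ q ∈ l, if b = true then 0 < sg e (o.1 + q.1, o.2 + q.2)
    else sg e (o.1 + q.1, o.2 + q.2) < 0

/-- the data of a tile: the pattern, the components, the claims, and the goals: lists of cells
with the number of their component and signs that are impossible together -/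
structure TileData where
  pat : List ℕ
  comps : List (List (ℕ × ℕ))
  claims : List Claim
  goals : List (List (ℕ × (ℕ × ℕ) × Bool))

/-- the claim `c` is violated by the signs given by the bits of `σ` -/
def viol (σ : ℕ) (c : Claim) : Bool := c.asm.all fun a => σ.testBit a.1 == a.2

/-- the goal `g` follows from the claims -/
def goalOK (T : TileData) (g : List (ℕ × (ℕ × ℕ) × Bool)) : Bool :=
  (g.all fun a => (T.comps.getD a.1 []).contains a.2.1) &&
    (List.range (2 ^ T.comps.length)).all fun σ => T.claims.any (viol σ) ||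
      g.any fun a => σ.testBit a.1 != a.2.2

/-- the check of a tile -/
def tileOK (T : TileData) : Bool :=
  T.comps.all (compOK T.pat) && T.claims.all (claimOK T.pat T.comps) && T.goals.all (goalOK T) &&
    T.claims.all (fun c => c.asm.all fun a => decide (a.1 < T.comps.length))

/-- the sign of a cell -/
def SgAt (e : Pt → Pt) (q : Pt) (b : Bool) : Prop :=
  if b = true then 0 < sg e q else sg e q < 0

/-- soundness of tiles -/
def TaskS13 : Prop := ∀ (X Y : ℤ) (M : Finset Pt) (e : Pt → Pt) (o : Pt) (T : TileData),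
  Medial X Y M e → HasP T.pat o M → (∀ c ∈ T.claims, BdOK c.bd o Y) → tileOK T = true →
  (∀ g ∈ T.goals, ¬ ∀ a ∈ g, SgAt e (o.1 + a.2.1.1, o.2 + a.2.1.2) a.2.2) ∧
    ∀ c ∈ T.comps, ∀ q ∈ c, sg e (o.1 + q.1, o.2 + q.2) ≠ 0

end Pool.Agent.W982.TA
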